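import Pool.Agent.TH125.Sec.Def

/-!
# Cyclic covers: definitions
-/

open CategoryTheory AlgebraicGeometry

universe u v w

namespace Pool.Agent.TH125.Cyc

section Alg

open Pool.Agent.TH125.Gal

variable {K : Type*} [Field K] {A : Type*} [Ring A] [Algebra K A] {Γ : Type*} [Group Γ]

/-- The subspace of the `t` in `T` such that `a t = x t`. -/
def eigenPart (a : A →ₐ[K] A) (T : Submodule K A) (x : K) : Submodule K A where
  carrier := {t | t ∈ T ∧ a t = x • t}
  add_mem' := fun {s t} hs ht =>
    ⟨T.add_mem hs.1 ht.1, by rw [map_add, hs.2, ht.2, smul_add]⟩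
  zero_mem' := ⟨T.zero_mem, by rw [map_zero, smul_zero]⟩
  smul_mem' := fun y t ht => ⟨T.smul_mem y ht.1, by rw [map_smul, ht.2, smul_comm]⟩

/-- `x` is a `d`-th root of unity different from `1`. -/
def IsChar (d : ℕ) (x : K) : Prop := x ^ d = 1 ∧ x ≠ 1

/-- The `d`-th power of the homomorphism `a` is the identity, where `d` is odd and the field
contains the `d`-th roots of unity, `a` preserves the orientation `tr`, and no nonzero element of
`T` is invariant under `a`. -/
structure IsCyclicAut (d : ℕ) (tr : A →ₗ[K] K) (T : Submodule K A) (a : A →ₐ[K] A) : Prop where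
  odd : Odd d
  root : ∃ ζ : K, IsPrimitiveRoot ζ d
  pow_eq : ∀ t, (a : A → A)^[d] t = t
  tr_eq : ∀ t, tr (a t) = tr t
  free : ∀ t ∈ T, a t = t → t = 0

/-- The element `g` acts on the subspaces `T_x = eigenPart a T x`, for all `d`-th roots of unity
`x ≠ 1`, by pseudo-reflections `t ↦ t + c_x tr(δ_{x⁻¹} t) δ_x`, where `δ_x ∈ T_x`, and the numbers
`c_x tr(δ_{x⁻¹} δ_x)` are not zero and pairwise different (so the same holds for the eigenvalues
`1 + c_x tr(δ_{x⁻¹} δ_x)` of `g` on the vectors `δ_x`, which are different from `1`). -/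
def ReflAct (d : ℕ) (tr : A →ₗ[K] K) (T : Submodule K A) (a : A →ₐ[K] A)
    (ρ : Γ →* (A ≃ₐ[K] A)) (g : Γ) : Prop :=
  ∃ (δ : K → A) (c : K → K),
    (∀ x, IsChar d x → δ x ∈ eigenPart a T x ∧
      (∀ t ∈ eigenPart a T x, ρ g t = t + (c x * tr (δ x⁻¹ * t)) • δ x) ∧
      c x * tr (δ x⁻¹ * δ x) ≠ 0) ∧
    Set.InjOn (fun x => c x * tr (δ x⁻¹ * δ x)) {x | IsChar d x}

/-- `n + 1` is less than the dimensions of the subspaces `eigenPart a T x`, `x ≠ 1` a `d`-th root of
unity. -/
def SmallEigen (d : ℕ) (T : Submodule K A) (a : A →ₐ[K] A) (n : ℕ) : Prop :=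
  ∀ x, IsChar d x → n + 1 < Module.finrank K (eigenPart a T x)

variable {B : Type*} [Ring B] [Algebra K B] {C : Type*} [Ring C] [Algebra K C]

/-- The automorphism `a` of order dividing `d`, see `IsCyclicAut`, is equivariant; the field
contains only finitely many `ζ + ζ⁻¹`, `ζ` a root of unity; the eigenspaces of `a` in `T` for the
`d`-th roots of unity `x ≠ 1` are irreducible under all subgroups of finite index; there is an
element `g` of the group which acts on them by pseudo-reflections, see `ReflAct`, and trivially on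
`B` and `C` and by the character `χ`. -/
structure CyclicAct (d : ℕ) (χ : Γ →* Kˣ) (tr : A →ₗ[K] K) (T : Submodule K A) (a : A →ₐ[K] A)
    (ρ : Γ →* (A ≃ₐ[K] A)) (ρB : Γ →* (B ≃ₐ[K] B)) (ρC : Γ →* (C ≃ₐ[K] C)) : Prop where
  aut : IsCyclicAut d tr T a
  equivariant : Intertwines a ρ ρ
  few : FewRoots K
  irreducible : ∀ x, IsChar d x → IrredAct ρ (eigenPart a T x)
  node : ∃ g, ReflAct d tr T a ρ g ∧ χ g = 1 ∧ TrivAct ρB g ∧ TrivAct ρC g

end Alg

open Pool.Agent.H914 Pool.Agent.H914.VarClass Pool.Agent.H914.VarClass.Obj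
  Pool.Agent.H914.WeilCohomology Pool.Agent.TH125.Gal Pool.Agent.TH125.Sec

variable {k : Type u} [Field k] {𝒱 : VarClass k} {ops : CycleOps 𝒱}
  {W : WeilCohomology.{u, v} ops} {Γ : Type w} [Group Γ]

/-- `X`, `Y` and `Z` are members of the class `G`, `f : X ⟶ Y` is an equivariant morphism, `σ` is
an endomorphism of `X` over `Y`. The cohomology of `X` is the sum of the pull-back of the cohomology
of `Y` and of the primitive part `T = relPrimitive W f`, with an algebraic projector. On
cohomology, `σ` is an equivariant automorphism of odd order (dividing `d`) without nonzero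
invariants in `T`. The eigenspaces of `σ` in `T` are irreducible under all subgroups of finite
index; there is an element of `Γ` which acts on them by pseudo-reflections with pairwise
different eigenvalues and trivially on the cohomology of `Y` and of `Z` and by `χ`. -/
structure CyclicOver (χ : Γ →* W.Kˣ) (G : Set (GVar W Γ)) {X Y : GVar W Γ} (f : X.X ⟶ Y.X)
    (σ : X.X ⟶ X.X) (d : ℕ) (Z : GVar W Γ) : Prop where
  galoisClass : GaloisClass χ G
  mem : X ∈ G ∧ Y ∈ G ∧ Z ∈ G
  equivariant : Equivariant f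
  comp_eq : σ ≫ f = f
  split : SplitOver W f
  cyclic : CyclicAct d χ (W.tr X.X) (relPrimitive W f) (W.map σ) X.act Y.act Z.act

end Pool.Agent.TH125.Cyc
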