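import Mathlib

/-!
# Operators of finite order and their eigenspaces
-/

open Finset

set_option linter.unusedSectionVars false

namespace Pool.Agent.TH125.Cyc

universe u v

variable {K : Type u} [Field K] [CharZero K] {M : Type v} [AddCommGroup M] [Module K M]
  {a : M →ₗ[K] M} {d : ℕ}

/-- the projection to the eigenspace -/
noncomputable def pj (a : M →ₗ[K] M) (d : ℕ) (x : K) : M →ₗ[K] M :=
  (d : K)⁻¹ • ∑ j ∈ range d, (x⁻¹) ^ j • a ^ j

theorem pj_apply (x : K) (t : M) : pj a d x t = (d : K)⁻¹ • ∑ j ∈ range d, (x⁻¹) ^ j • (a ^ j) t := by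
  rw [pj, LinearMap.smul_apply, LinearMap.sum_apply]
  rfl

theorem pj_eig (hd : a ^ d = 1) {x : K} (hx : x ^ d = 1) (hd0 : 0 < d) (t : M) :
    a (pj a d x t) = x • pj a d x t := by
  have hx0 : x ≠ 0 := by
    rintro rfl
    rw [zero_pow hd0.ne'] at hx
    exact zero_ne_one hx
  rw [pj_apply, map_smul, map_sum, smul_comm x]
  congr 1
  rw [Finset.smul_sum]
  have h1 : ∀ j, a ((x⁻¹) ^ j • (a ^ j) t) = x • ((x⁻¹) ^ (j + 1) • (a ^ (j + 1)) t) := by
    intro j
    rw [map_smul, smul_smul, pow_succ', pow_succ' a, Module.End.mul_apply, ← mul_assoc,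
      mul_inv_cancel₀ hx0, one_mul]
  rw [Finset.sum_congr rfl fun j _ => h1 j, ← Finset.smul_sum, ← Finset.smul_sum]
  congr 1
  have h2 := Finset.sum_range_succ (fun j => (x⁻¹) ^ j • (a ^ j) t) d
  rw [Finset.sum_range_succ'] at h2
  have h3 : (x⁻¹) ^ d • (a ^ d) t = (x⁻¹) ^ 0 • (a ^ 0) t := by
    rw [inv_pow, hx, hd, inv_one, pow_zero, pow_zero]
  rw [h3] at h2
  exact add_right_cancel h2

theorem geom_zero {w : K} (hw : w ^ d = 1) (hw1 : w ≠ 1) : ∑ j ∈ range d, w ^ j = 0 := by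
  have h1 := geom_sum_mul w d
  rw [hw, sub_self] at h1
  exact (mul_eq_zero.1 h1).resolve_right (sub_ne_zero.2 hw1)

theorem pow_eig {y : K} {t : M} (ht : a t = y • t) (j : ℕ) : (a ^ j) t = y ^ j • t := by
  induction j with
  | zero => rw [pow_zero, pow_zero, one_smul]; rfl
  | succ j ih => rw [pow_succ', Module.End.mul_apply, ih, map_smul, ht, smul_smul, pow_succ]

theorem pj_aux {x y : K} {t : M} (ht : a t = y • t) :
    pj a d x t = (d : K)⁻¹ • (∑ j ∈ range d, (x⁻¹ * y) ^ j) • t := by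
  have h1 : ∀ j, (x⁻¹) ^ j • (a ^ j) t = (x⁻¹ * y) ^ j • t := by
    intro j
    rw [pow_eig ht, smul_smul, mul_pow]
  rw [pj_apply, Finset.sum_congr rfl fun j _ => h1 j, ← Finset.sum_smul]

theorem pj_same {x : K} (hx : x ^ d = 1) (hd0 : 0 < d) {t : M} (ht : a t = x • t) :
    pj a d x t = t := by
  have hx0 : x ≠ 0 := by
    rintro rfl
    rw [zero_pow hd0.ne'] at hx
    exact zero_ne_one hx
  rw [pj_aux ht]
  simp only [inv_mul_cancel₀ hx0, one_pow, Finset.sum_const, Finset.card_range, nsmul_eq_mul,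
    mul_one]
  rw [smul_smul, inv_mul_cancel₀ (by exact_mod_cast hd0.ne'), one_smul]

theorem pj_ne {x y : K} (hx : x ^ d = 1) (hy : y ^ d = 1) (hxy : x ≠ y) {t : M}
    (ht : a t = y • t) : pj a d x t = 0 := by
  rw [pj_aux ht, geom_zero, zero_smul, smul_zero]
  · rw [mul_pow, inv_pow, hx, hy, inv_one, one_mul]
  · intro h2
    apply hxy
    exact (eq_of_inv_mul_eq_one h2)

theorem pj_total {ζ : K} (hζ : IsPrimitiveRoot ζ d) (hd0 : 0 < d) (t : M) :
    ∑ i ∈ range d, pj a d (ζ ^ i) t = t := by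
  have hζ0 : ζ ≠ 0 := hζ.ne_zero hd0.ne'
  simp only [pj_apply]
  rw [← Finset.smul_sum, Finset.sum_comm]
  have h1 : ∀ j ∈ range d, ∑ i ∈ range d, ((ζ ^ i)⁻¹) ^ j • (a ^ j) t =
      if j = 0 then (d : K) • t else 0 := by
    intro j hj
    have h2 : ∀ i, ((ζ ^ i)⁻¹) ^ j = ((ζ ^ j)⁻¹) ^ i := by
      intro i
      rw [inv_pow, inv_pow, ← pow_mul, ← pow_mul, mul_comm]
    simp only [h2]
    rw [← Finset.sum_smul]
    split_ifs with hj0
    · subst hj0
      simp
    · rw [geom_zero, zero_smul]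
      · rw [inv_pow, ← pow_mul, mul_comm, pow_mul, hζ.pow_eq_one, one_pow, inv_one]
      · intro h3
        rw [inv_eq_one] at h3
        have h4 := hζ.dvd_of_pow_eq_one j h3
        have h5 := Nat.le_of_dvd (Nat.pos_of_ne_zero hj0) h4
        rw [Finset.mem_range] at hj
        omega
  rw [Finset.sum_congr rfl h1, Finset.sum_ite_eq' (range d) 0, if_pos (Finset.mem_range.2 hd0),
    smul_smul, inv_mul_cancel₀ (by exact_mod_cast hd0.ne'), one_smul]

end Pool.Agent.TH125.Cyc
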