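import Pool.Agent.TH125.Cyc.Geo
import Pool.Agent.TH125.Cyc.Root
import Pool.Agent.TH125.Cyc.Def
import Pool.Agent.TH125.Gal.Std

/-!
# Cyclic covers: the blocks
-/

open CategoryTheory AlgebraicGeometry Finset

set_option linter.unusedSectionVars false

universe u v w

namespace Pool.Agent.TH125.Cyc

open Pool.Agent.H914 Pool.Agent.H914.VarClass Pool.Agent.H914.VarClass.Obj
  Pool.Agent.H914.WeilCohomology Pool.Agent.H281R3.HT Pool.Agent.W552 Pool.Agent.TH125.Gal
  Pool.Agent.TH125.Sec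

variable {k : Type u} [Field k] {𝒱 : VarClass k} {ops : CycleOps 𝒱}
  {W : WeilCohomology.{u, v} ops}

/-- the index set -/
abbrev Ix (d : ℕ) : Type := ↥(Finset.Ioo 0 d)

/-- the inverse -/
def barI {d : ℕ} (i : Ix d) : Ix d :=
  ⟨d - i.1, by
    have h := Finset.mem_Ioo.1 i.2
    rw [Finset.mem_Ioo]
    omega⟩

theorem barI_barI {d : ℕ} (i : Ix d) : barI (barI i) = i := by
  have h := Finset.mem_Ioo.1 i.2
  apply Subtype.ext
  change d - (d - i.1) = i.1
  omega

theorem barI_ne {d : ℕ} (hd : Odd d) (i : Ix d) : barI i ≠ i := by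
  have h := Finset.mem_Ioo.1 i.2
  intro h1
  have h2 := congrArg Subtype.val h1
  change d - i.1 = i.1 at h2
  obtain ⟨m, hm⟩ := hd
  omega

section root

variable {K : Type v} [Field K] {d : ℕ} {ζ : K} (hζ : IsPrimitiveRoot ζ d)

include hζ

theorem isChar_pow (i : Ix d) : IsChar d (ζ ^ (i.1 : ℕ)) := by
  have h := Finset.mem_Ioo.1 i.2
  refine ⟨?_, hζ.pow_ne_one_of_pos_of_lt (by omega) h.2⟩
  rw [← pow_mul, mul_comm, pow_mul, hζ.pow_eq_one, one_pow]

theorem pow_bar (i : Ix d) : ζ ^ ((barI i).1 : ℕ) = (ζ ^ (i.1 : ℕ))⁻¹ := by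
  have h := Finset.mem_Ioo.1 i.2
  apply eq_inv_of_mul_eq_one_left
  rw [← pow_add]
  have h1 : (barI i).1 + i.1 = d := by
    change d - i.1 + i.1 = d
    omega
  rw [h1, hζ.pow_eq_one]

theorem pow_injI {i j : Ix d} (h : ζ ^ (i.1 : ℕ) = ζ ^ (j.1 : ℕ)) : i = j := by
  have hi := Finset.mem_Ioo.1 i.2
  have hj := Finset.mem_Ioo.1 j.2
  exact Subtype.ext (hζ.pow_inj hi.2 hj.2 h)

end root

section

variable {X Y : 𝒱.Obj} {f : X ⟶ Y} {σ : X ⟶ X} {d : ℕ}

section stab

variable (hσ : σ ≫ f = f) (haut : IsCyclicAut d (W.tr X) (relPrimitive W f) (W.map σ))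

include hσ haut

theorem aut_rel {t : W.H X} (ht : t ∈ relPrimitive W f) : W.map σ t ∈ relPrimitive W f := by
  refine rel_of fun y => ?_
  have h1 : W.map f y = W.map σ (W.map f y) := by rw [← W.map_comp, hσ]
  rw [h1, bil_apply, ← map_mul, haut.tr_eq, ← bil_apply, rel_map ht]

end stab

/-- the restriction of the pull-back to the primitive part -/
noncomputable def aT (hσ : σ ≫ f = f)
    (haut : IsCyclicAut d (W.tr X) (relPrimitive W f) (W.map σ)) :
    relPrimitive W f →ₗ[W.K] relPrimitive W f :=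
  (W.map σ).toLinearMap.restrict fun _ ht => aut_rel hσ haut ht

variable (hσ : σ ≫ f = f) (haut : IsCyclicAut d (W.tr X) (relPrimitive W f) (W.map σ))

theorem aT_apply (t : relPrimitive W f) : (aT hσ haut t : W.H X) = W.map σ t := rfl

theorem d_pos (haut : IsCyclicAut d (W.tr X) (relPrimitive W f) (W.map σ)) : 0 < d :=
  haut.odd.pos

theorem aT_pow_apply (j : ℕ) (t : relPrimitive W f) :
    ((aT hσ haut ^ j) t : W.H X) = (W.map σ : W.H X → W.H X)^[j] t := by
  induction j with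
  | zero => rfl
  | succ j ih => rw [pow_succ', Module.End.mul_apply, aT_apply, ih, Function.iterate_succ_apply']

theorem aT_pow : aT hσ haut ^ d = 1 := by
  apply LinearMap.ext
  intro t
  apply Subtype.ext
  rw [aT_pow_apply, haut.pow_eq]
  rfl

theorem aT_form (s t : relPrimitive W f) :
    rform W X (relPrimitive W f) (aT hσ haut s) (aT hσ haut t) =
      rform W X (relPrimitive W f) s t := by
  rw [rform_apply, rform_apply, aT_apply, aT_apply, bil_apply, bil_apply, ← map_mul, haut.tr_eq]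

/-- different eigenspaces are orthogonal -/
theorem eig_orth {x y : W.K} (hxy : x * y ≠ 1) {s t : relPrimitive W f}
    (hs : aT hσ haut s = x • s) (ht : aT hσ haut t = y • t) :
    rform W X (relPrimitive W f) s t = 0 := by
  have h1 := aT_form hσ haut s t
  rw [hs, ht, map_smul, map_smul, LinearMap.smul_apply, smul_eq_mul, smul_eq_mul] at h1
  have h2 : (x * y - 1) * rform W X (relPrimitive W f) s t = 0 := by
    linear_combination h1
  exact (mul_eq_zero.1 h2).resolve_left (sub_ne_zero.2 hxy)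

variable {ζ : W.K} (hζ : IsPrimitiveRoot ζ d)

/-- the projections to the eigenspaces -/
noncomputable def qC (ζ : W.K) (i : Ix d) : relPrimitive W f →ₗ[W.K] relPrimitive W f :=
  pj (aT hσ haut) d (ζ ^ (i.1 : ℕ))

include hζ

theorem qC_eig (i : Ix d) (t : relPrimitive W f) :
    aT hσ haut (qC hσ haut ζ i t) = ζ ^ (i.1 : ℕ) • qC hσ haut ζ i t :=
  pj_eig (aT_pow hσ haut) (isChar_pow hζ i).1 (d_pos haut) t

theorem qC_iff {i : Ix d} {t : relPrimitive W f} :
    qC hσ haut ζ i t = t ↔ (t : W.H X) ∈ eigenPart (W.map σ) (relPrimitive W f)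
      (ζ ^ (i.1 : ℕ)) := by
  constructor
  · intro h
    refine ⟨t.2, ?_⟩
    have h1 := qC_eig hσ haut hζ i t
    rw [h] at h1
    exact congrArg Subtype.val h1
  · rintro ⟨_, h⟩
    exact pj_same (isChar_pow hζ i).1 (d_pos haut) (Subtype.ext h)

theorem qC_total (t : relPrimitive W f) : ∑ i, qC hσ haut ζ i t = t := by
  have h1 := pj_total (a := aT hσ haut) hζ (d_pos haut) t
  have h2 : range d = insert 0 (Finset.Ioo 0 d) := by
    ext i
    rw [Finset.mem_range, Finset.mem_insert, Finset.mem_Ioo]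
    have := d_pos haut
    omega
  rw [h2, Finset.sum_insert (by simp)] at h1
  have h3 : pj (aT hσ haut) d (ζ ^ 0) t = 0 := by
    apply Subtype.ext
    refine haut.free _ (pj (aT hσ haut) d (ζ ^ 0) t).2 ?_
    have h4 := pj_eig (aT_pow hσ haut) (x := ζ ^ 0) (by rw [pow_zero, one_pow]) (d_pos haut) t
    have h5 := congrArg Subtype.val h4
    rw [aT_apply] at h5
    rw [h5, pow_zero, one_smul]
  rw [h3, zero_add, ← Finset.sum_coe_sort] at h1
  exact h1

theorem qC_orth {i j : Ix d} (hij : j ≠ barI i) {s t : relPrimitive W f}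
    (hs : qC hσ haut ζ i s = s) (ht : qC hσ haut ζ j t = t) :
    rform W X (relPrimitive W f) s t = 0 := by
  have e1 := qC_eig hσ haut hζ i s
  have e2 := qC_eig hσ haut hζ j t
  rw [hs] at e1
  rw [ht] at e2
  refine eig_orth hσ haut ?_ e1 e2
  intro h1
  apply hij
  apply pow_injI hζ
  rw [pow_bar hζ]
  exact eq_inv_of_mul_eq_one_right h1

theorem qC_adj (i : Ix d) (s t : relPrimitive W f) :
    rform W X (relPrimitive W f) (qC hσ haut ζ i s) t =
      rform W X (relPrimitive W f) s (qC hσ haut ζ (barI i) t) := by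
  have hid : ∀ i t, qC hσ haut ζ i (qC hσ haut ζ i t) = qC hσ haut ζ i t := fun i t =>
    pj_same (isChar_pow hζ i).1 (d_pos haut) (qC_eig hσ haut hζ i t)
  have h1 : rform W X (relPrimitive W f) (qC hσ haut ζ i s) t =
      rform W X (relPrimitive W f) (qC hσ haut ζ i s) (qC hσ haut ζ (barI i) t) := by
    conv_lhs => rw [← qC_total hσ haut hζ t]
    rw [map_sum, Finset.sum_eq_single (barI i)]
    · intro j _ hj
      exact qC_orth hσ haut hζ hj (hid i s) (hid j t)
    · intro h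
      exact absurd (Finset.mem_univ _) h
  have h2 : rform W X (relPrimitive W f) s (qC hσ haut ζ (barI i) t) =
      rform W X (relPrimitive W f) (qC hσ haut ζ i s) (qC hσ haut ζ (barI i) t) := by
    conv_lhs => rw [← qC_total hσ haut hζ s]
    rw [map_sum, LinearMap.sum_apply, Finset.sum_eq_single i]
    · intro j _ hj
      refine qC_orth hσ haut hζ (fun h => hj ?_) (hid j s) (hid _ t)
      have h3 := congrArg barI h
      rw [barI_barI, barI_barI] at h3
      exact h3.symm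
    · intro h
      exact absurd (Finset.mem_univ _) h
  rw [h1, h2]

variable {Γ : Type w} [Group Γ] {χ : Γ →* W.Kˣ} {ρ : Γ →* (W.H X ≃ₐ[W.K] W.H X)}
  {ρ' : Γ →* (W.H Y ≃ₐ[W.K] W.H Y)}

end

section

variable {P Q : Polarized 𝒱} {f : P.X ⟶ Q.X} {σ : P.X ⟶ P.X} {d : ℕ}
  (hσ : σ ≫ f = f) (haut : IsCyclicAut d (W.tr P.X) (relPrimitive W f) (W.map σ))
  {ζ : W.K} (hζ : IsPrimitiveRoot ζ d)
  {Γ : Type w} [Group Γ] {χ : Γ →* W.Kˣ} {ρ : Γ →* (W.H P.X ≃ₐ[W.K] W.H P.X)}
  {ρ' : Γ →* (W.H Q.X ≃ₐ[W.K] W.H Q.X)}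

theorem qC_comm (hG : IsGalois W χ P.X ρ) (hf : Intertwines (W.map f) ρ' ρ)
    (heq : Intertwines (W.map σ) ρ ρ) (γ : Γ) (i : Ix d) (t : relPrimitive W f) :
    rhoR hG hf γ (qC hσ haut ζ i t) = qC hσ haut ζ i (rhoR hG hf γ t) := by
  have h1 : ∀ t, rhoR hG hf γ (aT hσ haut t) = aT hσ haut (rhoR hG hf γ t) := by
    intro t
    apply Subtype.ext
    rw [rhoR_apply, aT_apply, aT_apply, rhoR_apply, heq]
  have h2 : ∀ (j : ℕ) t, rhoR hG hf γ ((aT hσ haut ^ j) t) =
      (aT hσ haut ^ j) (rhoR hG hf γ t) := by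
    intro j
    induction j with
    | zero => exact fun t => rfl
    | succ j ih =>
      intro t
      rw [pow_succ', Module.End.mul_apply, Module.End.mul_apply, h1, ih]
  rw [qC, pj_apply, pj_apply, map_smul, map_sum]
  congr 1
  refine Finset.sum_congr rfl fun j _ => ?_
  rw [map_smul, h2]

include hζ in
theorem blocks (hmid : relPrimitive W f ≤ W.gr P.X P.X.dim) {z : W.H (P.X.prod Q.X)}
    (hz : ∀ x, x - W.map f (W.corr z x) ∈ relPrimitive W f)
    (hG : IsGalois W χ P.X ρ) (hf : Intertwines (W.map f) ρ' ρ)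
    (heq : Intertwines (W.map σ) ρ ρ)
    (hirr : ∀ x, IsChar d x → IrredAct ρ (eigenPart (W.map σ) (relPrimitive W f) x)) :
    Blocks (rform W P.X (relPrimitive W f)) ((-1) ^ P.X.dim) barI (qC hσ haut ζ) (rhoR hG hf)
      (fun g => (χ g : W.K) ^ P.X.dim) where
  hs := neg_one_pow_eq_or ℤ _
  symm a b := by
    rw [rform_apply, rform_apply, rel_symm (hmid a.2) (hmid b.2)]
    push_cast
    rfl
  nondeg := rel_nondeg hmid hz
  bar_bar := barI_barI
  bar_ne := barI_ne haut.odd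
  idem i x := pj_same (isChar_pow hζ i).1 (d_pos haut) (qC_eig hσ haut hζ i x)
  orth i j hij x := pj_ne (isChar_pow hζ i).1 (isChar_pow hζ j).1
    (fun h => hij (pow_injI hζ h)) (qC_eig hσ haut hζ j x)
  total := qC_total hσ haut hζ
  adj := qC_adj hσ haut hζ
  comm := qC_comm hσ haut hG hf heq
  mu_ne γ := pow_ne_zero _ (Units.ne_zero _)
  act γ a b := bil_act hG γ a b
  irr i Δ hΔ U hU hst := by
    have h1 : U.map (relPrimitive W f).subtype ≤
        eigenPart (W.map σ) (relPrimitive W f) (ζ ^ (i.1 : ℕ)) := by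
      rintro _ ⟨x, hx, rfl⟩
      exact (qC_iff hσ haut hζ).1 (hU x hx)
    rcases hirr _ (isChar_pow hζ i) Δ hΔ _ h1 (by
        rintro γ hγ _ ⟨x, hx, rfl⟩
        exact ⟨_, hst γ hγ x hx, rfl⟩) with h2 | h2
    · left
      rw [eq_bot_iff]
      intro x hx
      have h3 : (x : W.H P.X) ∈ U.map (relPrimitive W f).subtype := ⟨x, hx, rfl⟩
      rw [h2, Submodule.mem_bot] at h3
      exact (Submodule.mem_bot _).2 (Subtype.ext h3)
    · right
      intro x
      have h3 : ((qC hσ haut ζ i x : relPrimitive W f) : W.H P.X) ∈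
          eigenPart (W.map σ) (relPrimitive W f) (ζ ^ (i.1 : ℕ)) := by
        rw [← qC_iff hσ haut hζ]
        exact pj_same (isChar_pow hζ i).1 (d_pos haut) (qC_eig hσ haut hζ i x)
      rw [← h2] at h3
      obtain ⟨y, hy, hyx⟩ := h3
      have h4 : y = qC hσ haut ζ i x := Subtype.ext hyx
      rwa [h4] at hy

include hζ in
theorem refl_of (hG : IsGalois W χ P.X ρ) (hf : Intertwines (W.map f) ρ' ρ) {g : Γ}
    (hg : ReflAct d (W.tr P.X) (relPrimitive W f) (W.map σ) ρ g) :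
    ∃ (δ : Ix d → relPrimitive W f) (c : Ix d → W.K),
      Refl (rform W P.X (relPrimitive W f)) barI (qC hσ haut ζ) (rhoR hG hf) g δ c := by
  obtain ⟨δ, c, h1, h2⟩ := hg
  set δ' : Ix d → relPrimitive W f :=
    fun i => ⟨δ (ζ ^ (i.1 : ℕ)), (h1 _ (isChar_pow hζ i)).1.1⟩ with hδ'
  have hr : ∀ (i : Ix d) (y : relPrimitive W f), rform W P.X (relPrimitive W f) (δ' (barI i)) y =
      W.tr P.X (δ (ζ ^ (i.1 : ℕ))⁻¹ * y) := by
    intro i y
    change W.tr P.X (δ (ζ ^ ((barI i).1 : ℕ)) * y) = _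
    rw [pow_bar hζ]
  refine ⟨δ', fun i => c (ζ ^ (i.1 : ℕ)), ⟨fun i => ?_, fun i x hx => ?_, fun i h => ?_, ?_⟩⟩
  · rw [qC_iff hσ haut hζ]
    exact (h1 _ (isChar_pow hζ i)).1
  · apply Subtype.ext
    rw [rhoR_apply, (h1 _ (isChar_pow hζ i)).2.1 _ ((qC_iff hσ haut hζ).1 hx), hr]
    rfl
  · apply (h1 _ (isChar_pow hζ i)).2.2
    have h3 := add_eq_left.1 h
    rw [hr] at h3
    exact h3
  · intro i j hij
    apply pow_injI hζ
    refine h2 (isChar_pow hζ i) (isChar_pow hζ j) ?_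
    have h3 := add_left_cancel hij
    rw [hr, hr] at h3
    exact h3

include hζ in
theorem finrank_blk (i : Ix d) : Module.finrank W.K (blk (qC hσ haut ζ) i) =
    Module.finrank W.K (eigenPart (W.map σ) (relPrimitive W f) (ζ ^ (i.1 : ℕ))) := by
  have h1 : (blk (qC hσ haut ζ) i).map (relPrimitive W f).subtype =
      eigenPart (W.map σ) (relPrimitive W f) (ζ ^ (i.1 : ℕ)) := by
    ext t
    constructor
    · rintro ⟨_, ⟨x, rfl⟩, rfl⟩
      rw [Submodule.subtype_apply, ← qC_iff hσ haut hζ]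
      exact pj_same (isChar_pow hζ i).1 (d_pos haut) (qC_eig hσ haut hζ i x)
    · intro ht
      refine ⟨⟨t, ht.1⟩, ⟨⟨t, ht.1⟩, ?_⟩, rfl⟩
      rw [qC_iff hσ haut hζ]
      exact ht
  rw [← h1, Submodule.finrank_map_subtype_eq]

end

section diag

variable {X Y : 𝒱.Obj} {f : X ⟶ Y}

theorem dK_eq (s : TB W X (relPrimitive W f))
    {q q' : relPrimitive W f →ₗ[W.K] relPrimitive W f}
    (hq : ∀ a b, rform W X (relPrimitive W f) (q a) b = rform W X (relPrimitive W f) a (q' b)) :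
    dK s q = ∑ j, W.map (fst X X) (q' (s.uT j) : W.H X) * W.map (snd X X) (s.bT j : W.H X) := by
  have h1 : dK s q = ∑ i, ∑ j, rform W X (relPrimitive W f) (q (s.uT i)) (s.uT j) •
      (W.map (fst X X) (s.bT i : W.H X) * W.map (snd X X) (s.bT j : W.H X)) := by
    have h2 := Fintype.sum_equiv (finTwoArrowEquiv (Fin s.NT))
      (fun a : Fin 2 → Fin s.NT => rform W X (relPrimitive W f) (q (s.uT (a 0))) (s.uT (a 1)) •
        (W.map (fst X X) (s.bT (a 0) : W.H X) * W.map (snd X X) (s.bT (a 1) : W.H X)))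
      (fun a => rform W X (relPrimitive W f) (q (s.uT a.1)) (s.uT a.2) •
        (W.map (fst X X) (s.bT a.1 : W.H X) * W.map (snd X X) (s.bT a.2 : W.H X)))
      (fun a => rfl)
    rw [Fintype.sum_prod_type] at h2
    exact h2
  rw [h1, Finset.sum_comm]
  refine Finset.sum_congr rfl fun j _ => ?_
  conv_rhs => rw [s.expand_bT (q' (s.uT j)).2]
  rw [map_sum, Finset.sum_mul]
  refine Finset.sum_congr rfl fun i _ => ?_
  rw [map_smul, smul_mul_assoc, hq, rform_apply]

theorem dG_eq_dK (s : TB W X (relPrimitive W f)) : dG s = dK s LinearMap.id := rfl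

/-- the iterates -/
noncomputable def pw (σ : X ⟶ X) : ℕ → (X ⟶ X)
  | 0 => 𝟙 X
  | j + 1 => pw σ j ≫ σ

theorem map_pw (σ : X ⟶ X) (j : ℕ) (x : W.H X) :
    W.map (pw σ j) x = (W.map σ : W.H X → W.H X)^[j] x := by
  induction j generalizing x with
  | zero => exact W.map_id X x
  | succ j ih =>
    change W.map (pw σ j ≫ σ) x = _
    rw [W.map_comp, ih, Function.iterate_succ_apply]

variable {σ : X ⟶ X} {d : ℕ} (hσ : σ ≫ f = f)
  (haut : IsCyclicAut d (W.tr X) (relPrimitive W f) (W.map σ)) {ζ : W.K}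
  (hζ : IsPrimitiveRoot ζ d)

include hζ in
theorem dK_alg (s : TB W X (relPrimitive W f)) (hdG : dG s ∈ algSpan W (X.prod X)) (i : Ix d) :
    dK s (qC hσ haut ζ i) ∈ algSpan W (X.prod X) := by
  have h1 := dK_eq s (qC_adj hσ haut hζ i)
  have h2 : dG s = ∑ j, W.map (fst X X) (s.uT j : W.H X) * W.map (snd X X) (s.bT j : W.H X) := by
    rw [dG_eq_dK]
    exact dK_eq s (q := LinearMap.id) (q' := LinearMap.id) fun a b => rfl
  have h3 : dK s (qC hσ haut ζ i) = (d : W.K)⁻¹ • ∑ j ∈ range d,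
      ((ζ ^ ((barI i).1 : ℕ))⁻¹) ^ j •
        W.map (Obj.lift (fst X X ≫ pw σ j) (snd X X)) (dG s) := by
    rw [h1, h2]
    have h4 : ∀ l, W.map (fst X X) (qC hσ haut ζ (barI i) (s.uT l) : W.H X) *
        W.map (snd X X) (s.bT l : W.H X) = (d : W.K)⁻¹ • ∑ j ∈ range d,
          ((ζ ^ ((barI i).1 : ℕ))⁻¹) ^ j • (W.map (fst X X) (W.map (pw σ j) (s.uT l : W.H X)) *
            W.map (snd X X) (s.bT l : W.H X)) := by
      intro l
      rw [qC, pj_apply, Submodule.coe_smul, Submodule.coe_sum, map_smul, map_sum, smul_mul_assoc,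
        Finset.sum_mul]
      congr 1
      refine Finset.sum_congr rfl fun j _ => ?_
      rw [Submodule.coe_smul, map_smul, smul_mul_assoc, aT_pow_apply, map_pw]
    rw [Finset.sum_congr rfl fun l _ => h4 l, ← Finset.smul_sum, Finset.sum_comm]
    congr 1
    refine Finset.sum_congr rfl fun j _ => ?_
    rw [← Finset.smul_sum, map_sum]
    congr 1
    refine Finset.sum_congr rfl fun l _ => ?_
    rw [map_mul, ← W.map_comp (Obj.lift _ _), ← W.map_comp (Obj.lift _ _), Obj.lift_fst,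
      Obj.lift_snd, W.map_comp]
  rw [h3]
  exact Submodule.smul_mem _ _ (Submodule.sum_mem _ fun j _ => Submodule.smul_mem _ _
    (algSpan_map _ hdG))

end diag

end Pool.Agent.TH125.Cyc
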