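import Pool.Agent.TH125.Cyc.Tor

/-!
# Base change: rational operators which kill invariant forms
-/

open Finset Function TensorProduct

set_option linter.unusedSectionVars false

namespace Pool.Agent.TH125.Cyc

universe u v w x

open Pool.Agent.TH125.Gal

section extend

variable {K : Type u} [Field K] {L : Type w} [Field L] [Algebra K L] {T : Type v}
  [AddCommGroup T] [Module K T] [Module.Finite K T] {S : Type} [Fintype S] [DecidableEq S]

/-- extension of the scalars of a form -/
noncomputable def ext (L : Type w) [Field L] [Algebra K L]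
    (F : MultilinearMap K (fun _ : S => T) K) : MultilinearMap L (fun _ : S => L ⊗[K] T) L :=
  ∑ r : S → Fin (Module.finrank K T),
    algebraMap K L (F fun p => Module.finBasis K T (r p)) •
      (MultilinearMap.mkPiAlgebra L S L).compLinearMap fun p =>
        (Algebra.TensorProduct.basis L (Module.finBasis K T)).coord (r p)

theorem ext_tmul (F : MultilinearMap K (fun _ : S => T) K) (v : S → T) :
    ext L F (fun p => (1 : L) ⊗ₜ[K] v p) = algebraMap K L (F v) := by
  have h1 : ((ext L F).restrictScalars K).compLinearMap (fun _ => TensorProduct.mk K L T 1) =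
      (Algebra.linearMap K L).compMultilinearMap F := by
    refine Module.Basis.ext_multilinear (fun _ => Module.finBasis K T) fun r => ?_
    change ext L F (fun p => (1 : L) ⊗ₜ[K] Module.finBasis K T (r p)) =
      algebraMap K L (F fun p => Module.finBasis K T (r p))
    rw [ext, _root_.sum_apply, Finset.sum_eq_single r]
    · rw [smul_apply, MultilinearMap.compLinearMap_apply,
        MultilinearMap.mkPiAlgebra_apply, Finset.prod_eq_one, smul_eq_mul, mul_one]
      intro p _
      rw [← Algebra.TensorProduct.basis_apply, Module.Basis.coord_apply, Module.Basis.repr_self,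
        Finsupp.single_eq_same]
    · intro r' _ hr
      obtain ⟨p, hp⟩ := Function.ne_iff.1 hr
      rw [smul_apply, MultilinearMap.compLinearMap_apply,
        MultilinearMap.mkPiAlgebra_apply, Finset.prod_eq_zero (Finset.mem_univ p), smul_zero]
      rw [← Algebra.TensorProduct.basis_apply, Module.Basis.coord_apply, Module.Basis.repr_self,
        Finsupp.single_eq_of_ne hp]
    · intro h
      exact absurd (Finset.mem_univ _) h
  exact DFunLike.congr_fun h1 v

/-- invariance -/
theorem ext_inv {F : MultilinearMap K (fun _ : S => T) K} {A : T →ₗ[K] T}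
    (hF : ∀ v, F (fun j => A (v j)) = F v) (w : S → L ⊗[K] T) :
    ext L F (fun j => (A.baseChange L) (w j)) = ext L F w := by
  have h1 : (ext L F).compLinearMap (fun _ => A.baseChange L) = ext L F := by
    refine Module.Basis.ext_multilinear
      (fun _ => Algebra.TensorProduct.basis L (Module.finBasis K T)) fun r => ?_
    rw [MultilinearMap.compLinearMap_apply]
    simp only [Algebra.TensorProduct.basis_apply, LinearMap.baseChange_tmul]
    rw [ext_tmul, ext_tmul, hF]
  exact DFunLike.congr_fun h1 w

end extend

section main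

variable {K : Type u} [Field K] {T : Type v} [AddCommGroup T] [Module K T]
  {I : Type} [Fintype I] {H H' : T →ₗ[K] T} {q : I → (T →ₗ[K] T)} {y : I → K}

/-- the coefficients -/
noncomputable def kp {L : Type x} [Field L] (a : Additive Lˣ →+ ℚ) (z : Lˣ) : L :=
  if a (Additive.ofMul z) = 0 then 0 else (a (Additive.ofMul z) : L) / ((z : L) - (z⁻¹ : Lˣ))

theorem kp_ne {L : Type x} [Field L] {a : Additive Lˣ →+ ℚ} {z : Lˣ}
    (h : a (Additive.ofMul z) ≠ 0) : (z : L) - (z⁻¹ : Lˣ) ≠ 0 := by
  intro h1
  apply h
  have h2 : z = z⁻¹ := Units.ext (sub_eq_zero.1 h1)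
  have h3 : a (Additive.ofMul z) = -a (Additive.ofMul z) := by
    conv_lhs => rw [h2, ofMul_inv, map_neg]
  linarith

variable (h1 : H * H' = 1) (h2 : H' * H = 1) (hq : ∀ j, Commute (q j) H)
  (hsum : ∑ j, q j = 1) (hrel : ∀ j, (H - 1) * (H * H - y j • H + 1) * q j = 0)

include h1 h2 hq hsum hrel in
/-- the operator over the extension -/
theorem act_GE {L : Type x} [Field L] [Algebra K L] {W : Type w} [AddCommGroup W] [Module L W]
    (B : Module.End K T →+* Module.End L W)
    (hB : ∀ (c : K) (A : Module.End K T), B (c • A) = algebraMap K L c • B A) {z : I → Lˣ}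
    (hz : ∀ j, (z j : L) + ((z j)⁻¹ : Lˣ) = algebraMap K L (y j)) (a : Additive Lˣ →+ ℚ)
    (c : Lˣ) {x : W} (hx : GE (B H) (c : L) x) :
    (∑ j, kp a (z j) • B ((H - H') * q j)) x = ((a (Additive.ofMul c) : ℚ) : L) • x := by
  have hHH' : B H * B H' = 1 := by rw [← map_mul, h1, map_one]
  have hH'H : B H' * B H = 1 := by rw [← map_mul, h2, map_one]
  have hqB : ∀ j, Commute (B (q j)) (B H) := fun j => (hq j).map B
  have hxj : ∀ j, GE (B H) (c : L) (B (q j) x) := fun j => hx.map (hqB j)
  have hsumx : ∑ j, B (q j) x = x := by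
    rw [← LinearMap.sum_apply, ← map_sum, hsum, map_one]
    rfl
  have hrel' : ∀ j, ((B H - (1 : L) • 1) * (B H - (z j : L) • 1) *
      (B H - ((z j)⁻¹ : Lˣ).val • 1)) (B (q j) x) = 0 := by
    intro j
    have h3 := congrArg B (hrel j)
    rw [map_mul, map_mul, map_sub, map_add, map_sub, map_mul, hB, map_one, map_zero] at h3
    have h4 : (B H - (z j : L) • 1) * (B H - ((z j)⁻¹ : Lˣ).val • (1 : Module.End L W)) =
        B H * B H - algebraMap K L (y j) • B H + 1 := by
      rw [← hz j, sub_mul, mul_sub, mul_sub, mul_smul_comm, mul_one, smul_mul_assoc, one_mul,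
        smul_mul_assoc, one_mul, smul_smul, Units.mul_inv, one_smul, add_smul]
      abel
    rw [one_smul, mul_assoc (B H - 1), h4, ← Module.End.mul_apply, h3]
    rfl
  have hterm : ∀ j, kp a (z j) • (B ((H - H') * q j)) x =
      ((a (Additive.ofMul c) : ℚ) : L) • B (q j) x := by
    intro j
    rw [map_mul, map_sub, Module.End.mul_apply]
    have hxj' := hxj j
    have hrelj := hrel' j
    generalize B (q j) x = u at hxj' hrelj ⊢
    by_cases ha : a (Additive.ofMul (z j)) = 0
    · rw [kp, if_pos ha, zero_smul]
      by_cases hu0 : u = 0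
      · rw [hu0, smul_zero]
      · have h3 : a (Additive.ofMul c) = 0 := by
          by_contra hac
          apply hu0
          refine hxj'.eq_zero (c₁ := (1 : L)) (c₂ := (z j : L)) (c₃ := ((z j)⁻¹ : Lˣ).val)
            ?_ ?_ ?_ hrelj
          · intro h4
            have h5 : c = 1 := Units.ext h4
            rw [h5, ofMul_one, map_zero] at hac
            exact hac rfl
          · intro h4
            have h5 : c = z j := Units.ext h4
            rw [h5] at hac
            exact hac ha
          · intro h4
            have h5 : c = (z j)⁻¹ := Units.ext h4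
            rw [h5, ofMul_inv, map_neg, ha, neg_zero] at hac
            exact hac rfl
        rw [h3, Rat.cast_zero, zero_smul]
    · have hne := kp_ne ha
      have hz1 : z j ≠ 1 := by
        intro h4
        rw [h4, ofMul_one, map_zero] at ha
        exact ha rfl
      have hzz : z j ≠ (z j)⁻¹ := by
        intro h4
        exact hne (sub_eq_zero.2 (congrArg Units.val h4))
      rw [kp, if_neg ha]
      have hinv : ∀ b : Lˣ, B H u = (b : L) • u → B H' u = ((b⁻¹ : Lˣ) : L) • u := by
        intro b hb
        have h4 : B H' (B H u) = u := by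
          rw [← Module.End.mul_apply, hH'H]
          rfl
        rw [hb, map_smul] at h4
        conv_rhs => rw [← h4, smul_smul, Units.inv_mul, one_smul]
      by_cases hc1 : c = 1
      · subst hc1
        have h4 : B H u = ((1 : Lˣ) : L) • u := by
          refine GE.eig (c₂ := (z j : L)) (c₃ := ((z j)⁻¹ : Lˣ).val) ?_ ?_ hxj' (by
            rw [Units.val_one]
            exact hrelj)
          · intro h5
            exact hz1 (Units.ext h5.symm)
          · intro h5
            have h6 : (1 : Lˣ) = (z j)⁻¹ := Units.ext h5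
            exact hz1 (by rw [← inv_inj, ← h6, inv_one])
        rw [LinearMap.sub_apply, hinv _ h4, h4, inv_one, sub_self, smul_zero, ofMul_one,
          map_zero, Rat.cast_zero, zero_smul]
      by_cases hc2 : c = z j
      · rw [hc2] at hxj' ⊢
        have h4 : B H u = ((z j : Lˣ) : L) • u := by
          refine GE.eig (c₂ := (1 : L)) (c₃ := ((z j)⁻¹ : Lˣ).val) ?_ ?_ hxj' (by
            rwa [(comm_lin' (H := B H) 1 (z j : L)).eq] at hrelj)
          · intro h5
            exact hz1 (Units.ext h5)
          · intro h5
            exact hzz (Units.ext h5)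
        rw [LinearMap.sub_apply, hinv _ h4, h4, ← sub_smul, smul_smul, div_mul_cancel₀ _ hne]
      by_cases hc3 : c = (z j)⁻¹
      · rw [hc3] at hxj' ⊢
        have h4 : B H u = (((z j)⁻¹ : Lˣ) : L) • u := by
          refine GE.eig (c₂ := (1 : L)) (c₃ := (z j : L)) ?_ ?_ hxj' (by
            have h7 : (B H - (1 : L) • 1) * (B H - (z j : L) • 1) *
                (B H - ((z j)⁻¹ : Lˣ).val • (1 : Module.End L W)) =
                (B H - ((z j)⁻¹ : Lˣ).val • 1) * (B H - (1 : L) • 1) * (B H - (z j : L) • 1) := by
              rw [mul_assoc _ _ (B H - (z j : L) • 1)]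
              exact ((comm_lin' (H := B H) 1 _).mul_left (comm_lin' (H := B H) _ _)).eq
            rwa [h7] at hrelj)
          · intro h5
            have h6 : (z j)⁻¹ = 1 := Units.ext h5
            exact hz1 (by rw [← inv_inj, h6, inv_one])
          · intro h5
            exact hzz (Units.ext h5.symm)
        have h5 := hinv _ h4
        rw [inv_inv] at h5
        have h6 : ((((z j)⁻¹ : Lˣ) : L) - (z j : L)) = -((z j : L) - ((z j)⁻¹ : Lˣ).val) := by ring
        rw [LinearMap.sub_apply, h5, h4, ← sub_smul, smul_smul, h6, mul_neg,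
          div_mul_cancel₀ _ hne, ofMul_inv, map_neg, Rat.cast_neg]
      · have h4 : u = 0 := by
          refine hxj'.eq_zero (c₁ := (1 : L)) (c₂ := (z j : L)) (c₃ := ((z j)⁻¹ : Lˣ).val)
            ?_ ?_ ?_ hrelj
          · exact fun h5 => hc1 (Units.ext h5)
          · exact fun h5 => hc2 (Units.ext h5)
          · exact fun h5 => hc3 (Units.ext h5)
        rw [h4, map_zero, smul_zero, smul_zero]
  rw [LinearMap.sum_apply]
  conv_rhs => rw [← hsumx, Finset.smul_sum]
  exact Finset.sum_congr rfl fun j _ => hterm j

include h1 h2 in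
/-- the generalized eigenvectors span -/
theorem span_GE {L : Type x} [Field L] [IsAlgClosed L] {W : Type w} [AddCommGroup W] [Module L W]
    [Module.Finite L W] (B : Module.End K T →+* Module.End L W) :
    Submodule.span L {x : W | ∃ z : Lˣ, GE (B H) (z : L) x} = ⊤ := by
  rw [eq_top_iff, ← Module.End.iSup_maxGenEigenspace_eq_top (B H), iSup_le_iff]
  intro μ x hx
  rw [Module.End.mem_maxGenEigenspace] at hx
  obtain ⟨n, hn⟩ := hx
  by_cases hμ : μ = 0
  · subst hμ
    have h3 : x = 0 := by
      rw [zero_smul, sub_zero] at hn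
      have h4 : ((B H') ^ n) (((B H) ^ n) x) = x := by
        rw [← map_pow, ← map_pow, ← Module.End.mul_apply, ← map_mul]
        have h5 : H' ^ n * H ^ n = 1 := by
          have h6 : Commute H' H := h2.trans h1.symm
          rw [← h6.mul_pow, h2, one_pow]
        rw [h5, map_one]
        rfl
      rw [← h4, hn, map_zero]
    rw [h3]
    exact Submodule.zero_mem _
  · exact Submodule.subset_span ⟨Units.mk0 μ hμ, n, hn⟩

variable [CharZero K] [Module.Finite K T] {E : Type w} [AddCommGroup E] [Module K E] {S : Type}
  [Fintype S] [DecidableEq S]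

include h1 h2 hq hsum hrel in
/-- **Rational operators which kill the invariant maps.** -/
theorem torus_kill {L : Type x} [Field L] [Algebra K L] [IsAlgClosed L] {z : I → Lˣ}
    (hz : ∀ j, (z j : L) + ((z j)⁻¹ : Lˣ) = algebraMap K L (y j)) (a : Additive Lˣ →+ ℚ)
    (θ : L →ₗ[K] K) {f : MultilinearMap K (fun _ : S => T) E} {m : ℕ}
    (hm : 1 ≤ m) (hf : ∀ v, f (fun j => (H ^ m) (v j)) = f v) :
    Kill (∑ j, θ (kp a (z j)) • ((H - H') * q j)) f := by
  have : CharZero L := charZero_of_injective_algebraMap (algebraMap K L).injective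
  set B : Module.End K T →+* Module.End L (L ⊗[K] T) :=
    (Module.End.baseChangeHom K L T).toRingHom with hB
  have hBe : ∀ A : T →ₗ[K] T, A.baseChange L = B A := fun _ => rfl
  have hBs : ∀ (c : K) (A : Module.End K T), B (c • A) = algebraMap K L c • B A := by
    intro c A
    rw [algebraMap_smul]
    exact map_smul (Module.End.baseChangeHom K L T) c A
  intro v
  rw [← Module.forall_dual_apply_eq_zero_iff K]
  intro ψ
  set F : MultilinearMap K (fun _ : S => T) K := ψ.compMultilinearMap f with hF
  have hFm : ∀ w : S → L ⊗[K] T, ext L F (fun j => ((B H) ^ m) (w j)) = ext L F w := by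
    intro w
    rw [← map_pow, ← hBe]
    refine ext_inv (fun v => ?_) w
    exact congrArg ψ (hf v)
  have h3 := kill_of_inv hm hFm a
    (X := ∑ j, kp a (z j) • B ((H - H') * q j))
    (fun c x hx => act_GE h1 h2 hq hsum hrel B hBs hz a c hx) (span_GE h1 h2 B)
    (fun p => (1 : L) ⊗ₜ[K] v p)
  have h4 : ∀ p, ext L F (update (fun p => (1 : L) ⊗ₜ[K] v p) p
      ((∑ j, kp a (z j) • B ((H - H') * q j)) ((1 : L) ⊗ₜ[K] v p))) =
      ∑ j, F (update v p (((H - H') * q j) (v p))) • kp a (z j) := by
    intro p
    rw [LinearMap.sum_apply, MultilinearMap.map_update_sum]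
    refine Finset.sum_congr rfl fun j _ => ?_
    rw [LinearMap.smul_apply, MultilinearMap.map_update_smul, ← hBe, LinearMap.baseChange_tmul]
    have h5 : update (fun p => (1 : L) ⊗ₜ[K] v p) p ((1 : L) ⊗ₜ[K] ((H - H') * q j) (v p)) =
        fun i => (1 : L) ⊗ₜ[K] update v p (((H - H') * q j) (v p)) i := by
      funext i
      by_cases hi : i = p
      · subst hi
        rw [update_self, update_self]
      · rw [update_of_ne hi, update_of_ne hi]
    rw [h5, ext_tmul, smul_eq_mul, mul_comm, Algebra.smul_def]
  rw [Finset.sum_congr rfl fun p _ => h4 p] at h3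
  have h5 := congrArg θ h3
  rw [map_zero, map_sum] at h5
  rw [map_sum, ← h5]
  refine Finset.sum_congr rfl fun p _ => ?_
  rw [map_sum, LinearMap.sum_apply, MultilinearMap.map_update_sum, map_sum]
  refine Finset.sum_congr rfl fun j _ => ?_
  rw [LinearMap.smul_apply, MultilinearMap.map_update_smul, map_smul, map_smul, smul_eq_mul,
    smul_eq_mul, mul_comm]
  rfl

end main

end Pool.Agent.TH125.Cyc
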