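import Mathlib

/-!
# The first fundamental theorem for products of special linear Lie algebras and few variables
-/

open Finset Function

set_option linter.unusedSectionVars false

namespace Pool.Agent.TH125.Cyc

universe u v

variable {K : Type u} [Field K] [CharZero K] {J I : Type} [Fintype J] [DecidableEq J]
  [DecidableEq I] {S : Type} [Fintype S] [DecidableEq S] {M : Type v} [AddCommGroup M] [Module K M]

/-- the number of the positions of the given sign with value `a` -/
def cnt (sg : S → Bool) (t : Bool) (r : S → J) (a : J) : ℕ :=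
  (univ.filter fun p => sg p = t ∧ r p = a).card

/-- The conditions on the coordinates of a form. -/
structure Hyp (K : Type u) [Field K] {M : Type v} [AddCommGroup M] [Module K M] (κ : J → I)
    (bk : S → I) (sg : S → Bool) (F : (S → J) → M) : Prop where
  sup : ∀ r, ¬ (∀ p, κ (r p) = bk p) → F r = 0
  inv : ∀ a b, a ≠ b → κ a = κ b → ∀ r,
    ∑ p ∈ univ.filter (fun p => sg p = true ∧ r p = b), F (update r p a) =
      ∑ q ∈ univ.filter (fun q => sg q = false ∧ r q = a), F (update r q b)
  dia : ∀ a b, κ a = κ b → ∀ r, F r ≠ 0 →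
    (cnt sg true r a : ℤ) - cnt sg false r a = cnt sg true r b - cnt sg false r b

variable {κ : J → I} {bk : S → I} {sg : S → Bool}

theorem Hyp.sub {F G : (S → J) → M} (hF : Hyp K κ bk sg F) (hG : Hyp K κ bk sg G) :
    Hyp K κ bk sg (F - G) where
  sup r hr := by rw [Pi.sub_apply, hF.sup r hr, hG.sup r hr, sub_zero]
  inv a b hab hκ r := by
    simp only [Pi.sub_apply, Finset.sum_sub_distrib]
    rw [hF.inv a b hab hκ, hG.inv a b hab hκ]
  dia a b hκ r h := by
    by_cases h1 : F r = 0
    · by_cases h2 : G r = 0
      · exact absurd (by rw [Pi.sub_apply, h1, h2, sub_zero]) h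
      · exact hG.dia a b hκ r h2
    · exact hF.dia a b hκ r h1

theorem Hyp.sum {ι : Type*} (s : Finset ι) {F : ι → (S → J) → M}
    (hF : ∀ i ∈ s, Hyp K κ bk sg (F i)) : Hyp K κ bk sg (∑ i ∈ s, F i) where
  sup r hr := by
    rw [Finset.sum_apply]
    exact Finset.sum_eq_zero fun i hi => (hF i hi).sup r hr
  inv a b hab hκ r := by
    simp only [Finset.sum_apply]
    rw [Finset.sum_comm, Finset.sum_comm (s := univ.filter (fun q => sg q = false ∧ r q = a))]
    exact Finset.sum_congr rfl fun i hi => (hF i hi).inv a b hab hκ r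
  dia a b hκ r h := by
    rw [Finset.sum_apply] at h
    obtain ⟨i, hi, h1⟩ := Finset.exists_ne_zero_of_sum_ne_zero h
    exact (hF i hi).dia a b hκ r h1

/-- the generators -/
def gs (κ : J → I) (bk : S → I) {sg : S → Bool}
    (σ : {q // sg q = false} ≃ {p // sg p = true}) (w : M) (r : S → J) : M :=
  if (∀ p, κ (r p) = bk p) ∧ ∀ q, r q.1 = r (σ q).1 then w else 0

theorem cnt_eq {σ : {q // sg q = false} ≃ {p // sg p = true}} {r : S → J}
    (h : ∀ q, r q.1 = r (σ q).1) (a : J) : cnt sg true r a = cnt sg false r a := by
  symm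
  refine Finset.card_bij' (fun q hq => (σ ⟨q, (Finset.mem_filter.1 hq).2.1⟩).1)
    (fun p hp => (σ.symm ⟨p, (Finset.mem_filter.1 hp).2.1⟩).1) ?_ ?_ ?_ ?_
  · intro q hq
    rw [Finset.mem_filter] at hq ⊢
    exact ⟨Finset.mem_univ _, (σ _).2, by rw [← h]; exact hq.2.2⟩
  · intro p hp
    rw [Finset.mem_filter] at hp ⊢
    refine ⟨Finset.mem_univ _, (σ.symm _).2, ?_⟩
    rw [h, Equiv.apply_symm_apply]
    exact hp.2.2
  · intro q hq
    simp
  · intro p hp
    simp

theorem hyp_gs (σ : {q // sg q = false} ≃ {p // sg p = true}) (w : M) :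
    Hyp K κ bk sg (gs κ bk σ w) where
  sup r hr := by rw [gs, if_neg fun h => hr h.1]
  inv a b hab hκ r := by
    -- the terms
    have h1 : ∀ p : {p // sg p = true}, r p.1 = b →
        (r (σ.symm p).1 = a → gs κ bk σ w (update r p.1 a) =
          gs κ bk σ w (update r (σ.symm p).1 b)) := by
      intro p hp hq
      have hne : (σ.symm p).1 ≠ p.1 := fun h => by
        have h2 := (σ.symm p).2
        rw [h, p.2] at h2
        exact absurd h2 (by decide)
      have e1 : (∀ x, κ (update r p.1 a x) = bk x) ↔ ∀ x, κ (update r (σ.symm p).1 b x) = bk x := by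
        refine forall_congr' fun x => ?_
        by_cases h2 : x = p.1
        · rw [h2, update_self, update_of_ne hne.symm, hp, hκ]
        · by_cases h3 : x = (σ.symm p).1
          · rw [h3, update_self, update_of_ne hne, hq, hκ]
          · rw [update_of_ne h2, update_of_ne h3]
      have e2 : (∀ q, update r p.1 a q.1 = update r p.1 a (σ q).1) ↔
          ∀ q, update r (σ.symm p).1 b q.1 = update r (σ.symm p).1 b (σ q).1 := by
        refine forall_congr' fun q => ?_
        have h2 : q.1 ≠ p.1 := fun h => by
          have h3 := q.2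
          rw [h, p.2] at h3
          exact absurd h3 (by decide)
        have h3 : (σ q).1 ≠ (σ.symm p).1 := fun h => by
          have h4 := (σ q).2
          rw [h, (σ.symm p).2] at h4
          exact absurd h4 (by decide)
        rw [update_of_ne h2, update_of_ne h3]
        by_cases h4 : q = σ.symm p
        · subst h4
          rw [update_self, Equiv.apply_symm_apply, update_self, hq, hp]
          exact ⟨fun _ => rfl, fun _ => rfl⟩
        · rw [update_of_ne (fun h => h4 (Subtype.ext h)), update_of_ne fun h => h4 (by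
            rw [← Subtype.ext h, Equiv.symm_apply_apply])]
      exact if_congr (and_congr e1 e2) rfl rfl
    have h2 : ∀ p : {p // sg p = true}, r p.1 = b → r (σ.symm p).1 ≠ a →
        gs κ bk σ w (update r p.1 a) = 0 := by
      intro p hp hq
      refine if_neg fun h => hq ?_
      have h3 := h.2 (σ.symm p)
      rw [Equiv.apply_symm_apply, update_self, update_of_ne] at h3
      · exact h3
      · intro h4
        have h5 := (σ.symm p).2
        rw [h4, p.2] at h5
        exact absurd h5 (by decide)
    have h3 : ∀ q : {q // sg q = false}, r q.1 = a → r (σ q).1 ≠ b →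
        gs κ bk σ w (update r q.1 b) = 0 := by
      intro q hq hp
      refine if_neg fun h => hp ?_
      have h3 := h.2 q
      rw [update_self, update_of_ne] at h3
      · exact h3.symm
      · intro h4
        have h5 := (σ q).2
        rw [h4, q.2] at h5
        exact absurd h5 (by decide)
    rw [← Finset.sum_filter_add_sum_filter_not (univ.filter fun p => sg p = true ∧ r p = b)
      (fun p => ∃ h : sg p = true, r (σ.symm ⟨p, h⟩).1 = a),
      ← Finset.sum_filter_add_sum_filter_not (univ.filter fun q => sg q = false ∧ r q = a)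
      (fun q => ∃ h : sg q = false, r (σ ⟨q, h⟩).1 = b)]
    congr 1
    · refine Finset.sum_bij'
        (fun p hp => (σ.symm ⟨p, (Finset.mem_filter.1 (Finset.mem_filter.1 hp).1).2.1⟩).1)
        (fun q hq => (σ ⟨q, (Finset.mem_filter.1 (Finset.mem_filter.1 hq).1).2.1⟩).1) ?_ ?_ ?_ ?_ ?_
      · intro p hp
        rw [Finset.mem_filter, Finset.mem_filter] at hp ⊢
        obtain ⟨⟨_, h4, h5⟩, h6, h7⟩ := hp
        refine ⟨⟨Finset.mem_univ _, (σ.symm _).2, h7⟩, (σ.symm _).2, ?_⟩
        rw [Subtype.coe_eta, Equiv.apply_symm_apply]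
        exact h5
      · intro q hq
        rw [Finset.mem_filter, Finset.mem_filter] at hq ⊢
        obtain ⟨⟨_, h4, h5⟩, h6, h7⟩ := hq
        refine ⟨⟨Finset.mem_univ _, (σ _).2, h7⟩, (σ _).2, ?_⟩
        rw [Subtype.coe_eta, Equiv.symm_apply_apply]
        exact h5
      · intro p hp
        simp
      · intro q hq
        simp
      · intro p hp
        rw [Finset.mem_filter, Finset.mem_filter] at hp
        obtain ⟨⟨_, h4, h5⟩, h6, h7⟩ := hp
        exact h1 ⟨p, h4⟩ h5 h7
    · rw [Finset.sum_eq_zero, Finset.sum_eq_zero]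
      · intro q hq
        rw [Finset.mem_filter, Finset.mem_filter] at hq
        obtain ⟨⟨_, h4, h5⟩, h6⟩ := hq
        exact h3 ⟨q, h4⟩ h5 fun h7 => h6 ⟨h4, h7⟩
      · intro p hp
        rw [Finset.mem_filter, Finset.mem_filter] at hp
        obtain ⟨⟨_, h4, h5⟩, h6⟩ := hp
        exact h2 ⟨p, h4⟩ h5 fun h7 => h6 ⟨h4, h7⟩
  dia a b _ r h := by
    have h1 : ∀ q, r q.1 = r (σ q).1 := by
      by_contra h2
      exact h (if_neg fun h3 => h2 h3.2)
    rw [cnt_eq h1, cnt_eq h1, sub_self, sub_self]

section

variable {F : (S → J) → M} (hF : Hyp K κ bk sg F)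
  (hcard : ∀ i, (univ.filter fun p => bk p = i).card < (univ.filter fun a => κ a = i).card ∨
    ∀ p, bk p ≠ i)

include hF hcard in
/-- the balance -/
theorem balance {r : S → J} (hr : F r ≠ 0) (a : J) : cnt sg true r a = cnt sg false r a := by
  have hκ : ∀ p, κ (r p) = bk p := by
    by_contra h
    exact hr (hF.sup r h)
  rcases hcard (κ a) with hc | hc
  · set d : ℤ := (cnt sg true r a : ℤ) - cnt sg false r a with hd
    have h1 : ∀ b ∈ univ.filter (fun b => κ b = κ a),
        (cnt sg true r b : ℤ) - cnt sg false r b = d := fun b hb =>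
      hF.dia b a (Finset.mem_filter.1 hb).2 r hr
    have h2 : ∀ b, |(cnt sg true r b : ℤ) - cnt sg false r b| ≤
        ((univ.filter fun p => r p = b).card : ℤ) := by
      intro b
      have h3 : cnt sg true r b + cnt sg false r b ≤ (univ.filter fun p => r p = b).card := by
        rw [cnt, cnt, ← Finset.card_union_of_disjoint]
        · refine Finset.card_le_card fun p hp => ?_
          rw [Finset.mem_union, Finset.mem_filter, Finset.mem_filter] at hp
          rw [Finset.mem_filter]
          rcases hp with h | h
          · exact ⟨Finset.mem_univ _, h.2.2⟩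
          · exact ⟨Finset.mem_univ _, h.2.2⟩
        · rw [Finset.disjoint_left]
          intro p hp hp'
          rw [Finset.mem_filter] at hp hp'
          have h4 := hp.2.1.symm.trans hp'.2.1
          exact absurd h4 (by decide)
      rw [abs_le]
      constructor <;> omega
    have h3 : ∑ b ∈ univ.filter (fun b => κ b = κ a), ((univ.filter fun p => r p = b).card) =
        (univ.filter fun p => bk p = κ a).card := by
      have h4 : (univ.filter fun p => bk p = κ a).card =
          ∑ b ∈ univ.filter (fun b => κ b = κ a),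
            ((univ.filter fun p => bk p = κ a).filter fun p => r p = b).card := by
        refine Finset.card_eq_sum_card_fiberwise fun p hp => ?_
        simp only [Finset.coe_filter, Finset.mem_univ, true_and, Set.mem_ofPred_eq] at hp ⊢
        rw [hκ, hp]
      rw [h4]
      refine Finset.sum_congr rfl fun b hb => ?_
      congr 1
      ext p
      simp only [Finset.mem_filter, Finset.mem_univ, true_and] at hb ⊢
      constructor
      · intro h5
        exact ⟨by rw [← hκ, h5, hb], h5⟩
      · exact fun h5 => h5.2
    have h4 : ((univ.filter fun b => κ b = κ a).card : ℤ) * |d| ≤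
        ((univ.filter fun p => bk p = κ a).card : ℤ) := by
      rw [← h3]
      push_cast
      rw [← nsmul_eq_mul, ← Finset.sum_const]
      refine Finset.sum_le_sum fun b hb => ?_
      rw [← h1 b hb]
      exact h2 b
    have h5 : d = 0 := by
      by_contra hd0
      have h6 : 1 ≤ |d| := Int.one_le_abs hd0
      have h7 : ((univ.filter fun b => κ b = κ a).card : ℤ) * 1 ≤
          ((univ.filter fun b => κ b = κ a).card : ℤ) * |d| :=
        mul_le_mul_of_nonneg_left h6 (Int.natCast_nonneg _)
      have h8 : ((univ.filter fun p => bk p = κ a).card : ℤ) <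
          ((univ.filter fun b => κ b = κ a).card : ℤ) := by exact_mod_cast hc
      omega
    omega
  · have h1 : ∀ t, cnt sg t r a = 0 := by
      intro t
      rw [cnt, Finset.card_eq_zero, Finset.filter_eq_empty_iff]
      rintro p _ ⟨_, h2⟩
      exact hc p (by rw [← hκ, h2])
    rw [h1, h1]

/-- `F` vanishes if the values at the positive positions are given by `r`. -/
def Van (sg : S → Bool) (F : (S → J) → M) (r : S → J) : Prop :=
  ∀ r' : S → J, (∀ p, sg p = true → r' p = r p) → F r' = 0

include hF in
/-- moves -/
theorem van_move {r : S → J} {p₀ : S} (hp₀ : sg p₀ = true) {b : J} (hb : κ b = κ (r p₀))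
    (hun : ∀ p, sg p = true → r p ≠ b) (h : Van sg F (update r p₀ b)) : Van sg F r := by
  intro r' hr'
  have hab : r' p₀ ≠ b := by
    rw [hr' p₀ hp₀]
    exact hun p₀ hp₀
  have h1 := hF.inv (r' p₀) b hab (by rw [hb, hr' p₀ hp₀]) (update r' p₀ b)
  have h2 : (univ.filter fun p => sg p = true ∧ update r' p₀ b p = b) = {p₀} := by
    ext p
    simp only [Finset.mem_filter, Finset.mem_univ, true_and, Finset.mem_singleton]
    constructor
    · rintro ⟨h3, h4⟩
      by_contra h5
      rw [update_of_ne h5, hr' p h3] at h4
      exact hun p h3 h4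
    · rintro rfl
      exact ⟨hp₀, update_self _ _ _⟩
  rw [h2, Finset.sum_singleton, update_idem, update_eq_self] at h1
  rw [h1]
  refine Finset.sum_eq_zero fun q hq => h _ fun p hp => ?_
  rw [Finset.mem_filter] at hq
  have h3 : p ≠ q := by
    rintro rfl
    rw [hp] at hq
    exact absurd hq.2.1 (by decide)
  rw [update_of_ne h3]
  by_cases h4 : p = p₀
  · rw [h4, update_self, update_self]
  · rw [update_of_ne h4, update_of_ne h4, hr' p hp]

include hcard in
/-- unused values -/
theorem exists_unused {r : S → J} (hr : ∀ p, sg p = true → κ (r p) = bk p) {p₁ : S}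
    (hp₁ : sg p₁ = true) : ∃ b, κ b = κ (r p₁) ∧ ∀ p, sg p = true → r p ≠ b := by
  by_contra hcon
  push Not at hcon
  rcases hcard (κ (r p₁)) with h | h
  · have h1 : (univ.filter fun a => κ a = κ (r p₁)).card ≤
        (univ.filter fun p => bk p = κ (r p₁)).card := by
      refine Finset.card_le_card_of_surjOn r ?_
      intro b hb
      simp only [Finset.coe_filter, Finset.mem_univ, true_and, Set.mem_ofPred_eq] at hb
      obtain ⟨p, hp, hpb⟩ := hcon b hb
      refine ⟨p, ?_, hpb⟩
      simp only [Finset.coe_filter, Finset.mem_univ, true_and, Set.mem_ofPred_eq]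
      rw [← hr p hp, hpb, hb]
    omega
  · exact h p₁ (by rw [hr p₁ hp₁])

include hF hcard in
/-- **Connecting two configurations.** -/
theorem van_all {r₀ : S → J} (h₀ : ∀ p, κ (r₀ p) = bk p) (hinj : Injective r₀)
    (hvan : Van sg F r₀) {r : S → J} (hr : ∀ p, sg p = true → κ (r p) = bk p) : Van sg F r := by
  have key : ∀ m : ℕ, ∀ r : S → J, (∀ p, sg p = true → κ (r p) = bk p) →
      (univ.filter fun p => sg p = true ∧ r p ≠ r₀ p).card ≤ m → Van sg F r := by
    intro m
    induction m with
    | zero =>
      intro r hr hm r' hr'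
      rw [Nat.le_zero, Finset.card_eq_zero, Finset.filter_eq_empty_iff] at hm
      refine hvan r' fun p hp => ?_
      rw [hr' p hp]
      by_contra h
      exact hm (Finset.mem_univ p) ⟨hp, h⟩
    | succ m ih =>
      intro r hr hm
      by_cases h0 : ∀ p, sg p = true → r p = r₀ p
      · refine ih r hr ?_
        rw [Finset.filter_eq_empty_iff.2 fun p _ h => h.2 (h0 p h.1), Finset.card_empty]
        exact Nat.zero_le _
      push Not at h0
      obtain ⟨p₀, hp₀, hne⟩ := h0
      have inner : ∀ k : ℕ, ∀ r : S → J, (∀ p, sg p = true → κ (r p) = bk p) →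
          (univ.filter fun p => sg p = true ∧ r p ≠ r₀ p).card ≤ m + 1 → r p₀ ≠ r₀ p₀ →
          (univ.filter fun p => sg p = true ∧ r p = r₀ p₀).card ≤ k → Van sg F r := by
        intro k
        induction k with
        | zero =>
          intro r hr hm hne hk
          rw [Nat.le_zero, Finset.card_eq_zero, Finset.filter_eq_empty_iff] at hk
          refine van_move hF hp₀ (b := r₀ p₀) (by rw [h₀, hr p₀ hp₀])
            (fun p hp h => hk (Finset.mem_univ p) ⟨hp, h⟩) (ih _ (fun p hp => ?_) ?_)
          · by_cases h1 : p = p₀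
            · rw [h1, update_self, h₀]
            · rw [update_of_ne h1, hr p hp]
          · have h1 : (univ.filter fun p => sg p = true ∧ update r p₀ (r₀ p₀) p ≠ r₀ p).card <
                (univ.filter fun p => sg p = true ∧ r p ≠ r₀ p).card := by
              refine Finset.card_lt_card ⟨fun p hp => ?_, fun hsub => ?_⟩
              · rw [Finset.mem_filter] at hp ⊢
                refine ⟨hp.1, hp.2.1, ?_⟩
                by_cases h1 : p = p₀
                · rw [h1]
                  exact hne
                · have h2 := hp.2.2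
                  rwa [update_of_ne h1] at h2
              · have h2 := hsub (Finset.mem_filter.2 ⟨Finset.mem_univ p₀, hp₀, hne⟩)
                rw [Finset.mem_filter, update_self] at h2
                exact h2.2.2 rfl
            omega
        | succ k ihk =>
          intro r hr hm hne hk
          by_cases hex : ∃ p₁, sg p₁ = true ∧ r p₁ = r₀ p₀
          · obtain ⟨p₁, hp₁, hrp₁⟩ := hex
            have h10 : p₁ ≠ p₀ := by
              rintro rfl
              exact hne hrp₁
            obtain ⟨c, hc, hun⟩ := exists_unused hcard hr hp₁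
            have hcb : c ≠ r₀ p₀ := fun h => hun p₁ hp₁ (by rw [hrp₁, h])
            refine van_move hF hp₁ hc hun (ihk _ (fun p hp => ?_) ?_ ?_ ?_)
            · by_cases h1 : p = p₁
              · rw [h1, update_self, hc, hr p₁ hp₁]
              · rw [update_of_ne h1, hr p hp]
            · refine le_trans (Finset.card_le_card fun p hp => ?_) hm
              rw [Finset.mem_filter] at hp ⊢
              refine ⟨hp.1, hp.2.1, ?_⟩
              by_cases h1 : p = p₁
              · rw [h1, hrp₁]
                exact fun h => h10 (hinj h).symm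
              · have h2 := hp.2.2
                rwa [update_of_ne h1] at h2
            · rw [update_of_ne h10.symm]
              exact hne
            · have h1 : (univ.filter fun p => sg p = true ∧ update r p₁ c p = r₀ p₀).card <
                  (univ.filter fun p => sg p = true ∧ r p = r₀ p₀).card := by
                refine Finset.card_lt_card ⟨fun p hp => ?_, fun hsub => ?_⟩
                · rw [Finset.mem_filter] at hp ⊢
                  refine ⟨hp.1, hp.2.1, ?_⟩
                  by_cases h1 : p = p₁
                  · rw [h1, hrp₁]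
                  · have h2 := hp.2.2
                    rwa [update_of_ne h1] at h2
                · have h2 := hsub (Finset.mem_filter.2 ⟨Finset.mem_univ p₁, hp₁, hrp₁⟩)
                  rw [Finset.mem_filter, update_self] at h2
                  exact hcb h2.2.2
              omega
          · refine ihk r hr hm hne ?_
            rw [Finset.filter_eq_empty_iff.2 fun p _ h => hex ⟨p, h⟩, Finset.card_empty]
            exact Nat.zero_le _
      exact inner _ r hr hm hne le_rfl
  exact key _ r hr le_rfl

include hcard in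
/-- injective configurations -/
theorem exists_inj : ∃ r₀ : S → J, (∀ p, κ (r₀ p) = bk p) ∧ Injective r₀ := by
  have h1 : ∀ i, Nonempty ({p // bk p = i} ↪ {a // κ a = i}) := by
    intro i
    refine Function.Embedding.nonempty_of_card_le ?_
    rw [Fintype.card_subtype, Fintype.card_subtype]
    rcases hcard i with h | h
    · exact h.le
    · rw [Finset.filter_eq_empty_iff.2 fun p _ => h p, Finset.card_empty]
      exact Nat.zero_le _
  let f : ∀ i, {p // bk p = i} ↪ {a // κ a = i} := fun i => (h1 i).some
  refine ⟨fun p => (f (bk p) ⟨p, rfl⟩).1, fun p => (f (bk p) ⟨p, rfl⟩).2, fun p p' h => ?_⟩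
  beta_reduce at h
  have h2 : bk p = bk p' := by
    rw [← (f (bk p) ⟨p, rfl⟩).2, ← (f (bk p') ⟨p', rfl⟩).2, h]
  have h3 : ∀ i (hi : bk p = i) (hi' : bk p' = i), (f i ⟨p, hi⟩).1 = (f i ⟨p', hi'⟩).1 → p = p' := by
    intro i hi hi' h4
    exact congrArg Subtype.val ((f i).injective (Subtype.ext h4))
  refine h3 (bk p') h2 rfl ?_
  rw [← h]
  have h4 : ∀ i (hi : bk p = i), (f i ⟨p, hi⟩).1 = (f (bk p) ⟨p, rfl⟩).1 := by
    rintro i rfl
    rfl
  exact h4 _ h2

open Classical in
include hF hcard in
/-- **The first fundamental theorem.** -/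
theorem fft : ∃ w : ({q // sg q = false} ≃ {p // sg p = true}) → M,
    F = ∑ σ, gs κ bk σ (w σ) := by
  obtain ⟨r₀, h₀, hinj⟩ := exists_inj hcard
  let ext : ({q // sg q = false} ≃ {p // sg p = true}) → S → J := fun σ p =>
    if h : sg p = false then r₀ (σ ⟨p, h⟩).1 else r₀ p
  have hext1 : ∀ σ p, sg p = true → ext σ p = r₀ p := fun σ p hp =>
    dif_neg fun h => by rw [hp] at h; exact absurd h (by decide)
  have hext2 : ∀ σ (q : {q // sg q = false}), ext σ q.1 = r₀ (σ q).1 := fun σ q => dif_pos q.2
  refine ⟨fun σ => F (ext σ), ?_⟩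
  rw [← sub_eq_zero]
  have hG : Hyp K κ bk sg (F - ∑ σ, gs κ bk σ (F (ext σ))) :=
    hF.sub (Hyp.sum _ fun σ _ => hyp_gs σ _)
  have hvan : Van sg (F - ∑ σ, gs κ bk σ (F (ext σ))) r₀ := by
    intro r hr
    rw [Pi.sub_apply, Finset.sum_apply]
    have hiff : ∀ σ, (∀ q, r q.1 = r (σ q).1) ↔ r = ext σ := by
      intro σ
      constructor
      · intro h
        funext p
        cases hp : sg p with
        | true => rw [hext1 σ p hp, hr p hp]
        | false =>
          rw [hext2 σ ⟨p, hp⟩, h ⟨p, hp⟩, hr _ (σ ⟨p, hp⟩).2]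
      · rintro rfl q
        rw [hext2, hext1 _ _ (σ q).2]
    have huniq : ∀ σ σ', ext σ = ext σ' → σ = σ' := by
      intro σ σ' h
      apply Equiv.ext
      intro q
      apply Subtype.ext
      apply hinj
      rw [← hext2, ← hext2, h]
    have hterm : ∀ σ, gs κ bk σ (F (ext σ)) r = if r = ext σ then F r else 0 := by
      intro σ
      unfold gs
      by_cases h1 : r = ext σ
      · rw [if_pos h1, ← h1]
        by_cases h2 : ∀ p, κ (r p) = bk p
        · rw [if_pos ⟨h2, (hiff σ).2 h1⟩]
        · rw [if_neg fun h => h2 h.1, hF.sup r h2]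
      · rw [if_neg h1, if_neg fun h => h1 ((hiff σ).1 h.2)]
    rw [Finset.sum_congr rfl fun σ _ => hterm σ]
    by_cases hr0 : F r = 0
    · rw [hr0]
      simp
    · have hbal := balance hF hcard hr0
      -- the bijection
      have h1 : ∀ q : {q // sg q = false}, ∃ p : {p // sg p = true}, r₀ p.1 = r q.1 := by
        intro q
        have h2 : 0 < cnt sg false r (r q.1) := Finset.card_pos.2
          ⟨q.1, Finset.mem_filter.2 ⟨Finset.mem_univ _, q.2, rfl⟩⟩
        rw [← hbal] at h2
        obtain ⟨p, hp⟩ := Finset.card_pos.1 h2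
        rw [Finset.mem_filter] at hp
        exact ⟨⟨p, hp.2.1⟩, by rw [← hr p hp.2.1]; exact hp.2.2⟩
      choose s hs using h1
      have hle : ∀ a, cnt sg true r a ≤ 1 := by
        intro a
        rw [cnt, Finset.card_le_one]
        intro p hp p' hp'
        rw [Finset.mem_filter] at hp hp'
        apply hinj
        rw [← hr p hp.2.1, ← hr p' hp'.2.1, hp.2.2, hp'.2.2]
      have hinj' : Injective s := by
        intro q q' h
        have h2 : r q.1 = r q'.1 := by rw [← hs, ← hs, h]
        have h3 := hle (r q'.1)
        rw [hbal, cnt, Finset.card_le_one] at h3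
        exact Subtype.ext (h3 q.1 (Finset.mem_filter.2 ⟨Finset.mem_univ _, q.2, h2⟩) q'.1
          (Finset.mem_filter.2 ⟨Finset.mem_univ _, q'.2, rfl⟩))
      have hsurj : Surjective s := by
        intro p
        have h2 : 0 < cnt sg true r (r₀ p.1) := Finset.card_pos.2
          ⟨p.1, Finset.mem_filter.2 ⟨Finset.mem_univ _, p.2, hr p.1 p.2⟩⟩
        rw [hbal] at h2
        obtain ⟨q, hq⟩ := Finset.card_pos.1 h2
        rw [Finset.mem_filter] at hq
        refine ⟨⟨q, hq.2.1⟩, Subtype.ext (hinj ?_)⟩
        rw [hs]
        exact hq.2.2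
      set σ₀ := Equiv.ofBijective s ⟨hinj', hsurj⟩ with hσ₀
      have h2 : r = ext σ₀ := by
        rw [← hiff]
        intro q
        rw [hr _ (σ₀ q).2]
        exact (hs q).symm
      rw [Finset.sum_eq_single σ₀, if_pos h2, sub_self]
      · intro σ _ hσ
        rw [if_neg fun h => hσ (huniq _ _ (h.symm.trans h2))]
      · intro h
        exact absurd (Finset.mem_univ _) h
  funext r
  rw [Pi.zero_apply]
  by_cases hκ : ∀ p, κ (r p) = bk p
  · exact van_all hG hcard h₀ hinj hvan (fun p _ => hκ p) r fun _ _ => rfl
  · exact hG.sup r hκ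

end

end Pool.Agent.TH125.Cyc
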