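import Pool.Agent.TH125.Cyc.Lie3
import Pool.Agent.TH125.Cyc.Fft

/-!
# Adapted bases and the expansion of equivariant maps
-/

open Finset Function

set_option linter.unusedSectionVars false

namespace Pool.Agent.TH125.Cyc

universe u v w x

open Pool.Agent.TH125.Gal

section form

variable {K : Type u} [Field K] {T : Type v} [AddCommGroup T] [Module K T] {S : Type}

theorem pf_update {m : ℕ} (Q : Fin m → (T →ₗ[K] T →ₗ[K] K)) (e : Fin m × Fin 2 ≃ S)
    [DecidableEq S] (v : S → T) (l : Fin m) (j : Fin 2) (x : T) :
    ∏ l', Q l' (update v (e (l, j)) x (e (l', 0))) (update v (e (l, j)) x (e (l', 1))) =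
      Q l (update v (e (l, j)) x (e (l, 0))) (update v (e (l, j)) x (e (l, 1))) *
        ∏ l' ∈ univ.erase l, Q l' (v (e (l', 0))) (v (e (l', 1))) := by
  rw [← Finset.mul_prod_erase _ _ (Finset.mem_univ l)]
  congr 1
  refine Finset.prod_congr rfl fun l' hl => ?_
  have h1 : ∀ j', e (l', j') ≠ e (l, j) := by
    intro j' h
    exact (Finset.ne_of_mem_erase hl) (Prod.mk.inj (e.injective h)).1
  rw [update_of_ne (h1 0), update_of_ne (h1 1)]

/-- The product of the values of bilinear forms on pairs of entries. -/
def pf {m : ℕ} (Q : Fin m → (T →ₗ[K] T →ₗ[K] K)) (e : Fin m × Fin 2 ≃ S) :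
    MultilinearMap K (fun _ : S => T) K where
  toFun v := ∏ l, Q l (v (e (l, 0))) (v (e (l, 1)))
  map_update_add' := by
    intro _ v i x y
    obtain ⟨⟨l, j⟩, rfl⟩ := e.surjective i
    rw [pf_update, pf_update, pf_update, ← add_mul]
    congr 1
    have h01 : e (l, 1) ≠ e (l, 0) := fun h =>
      absurd (Prod.mk.inj (e.injective h)).2 (by decide)
    fin_cases j
    · change Q l (update v (e (l, 0)) (x + y) (e (l, 0)))
        (update v (e (l, 0)) (x + y) (e (l, 1))) =
        Q l (update v (e (l, 0)) x (e (l, 0))) (update v (e (l, 0)) x (e (l, 1))) +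
          Q l (update v (e (l, 0)) y (e (l, 0))) (update v (e (l, 0)) y (e (l, 1)))
      rw [update_self, update_self, update_self, update_of_ne h01, update_of_ne h01,
        update_of_ne h01, map_add, LinearMap.add_apply]
    · change Q l (update v (e (l, 1)) (x + y) (e (l, 0)))
        (update v (e (l, 1)) (x + y) (e (l, 1))) =
        Q l (update v (e (l, 1)) x (e (l, 0))) (update v (e (l, 1)) x (e (l, 1))) +
          Q l (update v (e (l, 1)) y (e (l, 0))) (update v (e (l, 1)) y (e (l, 1)))
      rw [update_self, update_self, update_self, update_of_ne h01.symm, update_of_ne h01.symm,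
        update_of_ne h01.symm, map_add]
  map_update_smul' := by
    intro _ v i c x
    obtain ⟨⟨l, j⟩, rfl⟩ := e.surjective i
    rw [pf_update, pf_update, smul_eq_mul, ← mul_assoc]
    congr 1
    have h01 : e (l, 1) ≠ e (l, 0) := fun h =>
      absurd (Prod.mk.inj (e.injective h)).2 (by decide)
    fin_cases j
    · change Q l (update v (e (l, 0)) (c • x) (e (l, 0)))
        (update v (e (l, 0)) (c • x) (e (l, 1))) =
        c * Q l (update v (e (l, 0)) x (e (l, 0))) (update v (e (l, 0)) x (e (l, 1)))
      rw [update_self, update_self, update_of_ne h01, update_of_ne h01, map_smul,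
        LinearMap.smul_apply, smul_eq_mul]
    · change Q l (update v (e (l, 1)) (c • x) (e (l, 0)))
        (update v (e (l, 1)) (c • x) (e (l, 1))) =
        c * Q l (update v (e (l, 1)) x (e (l, 0))) (update v (e (l, 1)) x (e (l, 1)))
      rw [update_self, update_self, update_of_ne h01.symm, update_of_ne h01.symm, map_smul,
        smul_eq_mul]

theorem pf_apply {m : ℕ} (Q : Fin m → (T →ₗ[K] T →ₗ[K] K)) (e : Fin m × Fin 2 ≃ S) (v : S → T) :
    pf Q e v = ∏ l, Q l (v (e (l, 0))) (v (e (l, 1))) := rfl

theorem pf_scale {m : ℕ} (Q : Fin m → (T →ₗ[K] T →ₗ[K] K)) (e : Fin m × Fin 2 ≃ S) {ρ : T → T}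
    {μ : K} (h : ∀ l x y, Q l (ρ x) (ρ y) = μ * Q l x y) (v : S → T) :
    pf Q e (fun j => ρ (v j)) = μ ^ m * pf Q e v := by
  rw [pf_apply, pf_apply]
  simp only [h]
  rw [Finset.prod_mul_distrib, Finset.prod_const, Finset.card_univ, Fintype.card_fin]

end form

section expand

variable {K : Type u} [Field K] {R : Type} [Fintype R] [DecidableEq R]

/-- **Independent functions.** -/
theorem indep_expand {𝒜 : Type*} (f : 𝒜 → R → K) :
    ∃ (N : ℕ) (a : Fin N → 𝒜) (c : Fin N → R → K),
      (∀ l l', ∑ r, c l r * f (a l') r = if l' = l then 1 else 0) ∧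
      ∀ (M : Type w) [AddCommGroup M] [Module K M] (F : R → M),
        F ∈ Submodule.span K {F : R → M | ∃ (a : 𝒜) (w : M), F = fun r => f a r • w} →
        ∀ r, F r = ∑ l, f (a l) r • ∑ r', c l r' • F r' := by
  classical
  obtain ⟨A, hA, hspan, hli⟩ := exists_linearIndependent K (Set.range f)
  have hfin : A.Finite := hli.setFinite
  have := hfin.fintype
  let eA := Fintype.equivFin A
  have h0 : ∀ l : Fin (Fintype.card A), ∃ a : 𝒜, f a = ((eA.symm l : A) : R → K) :=
    fun l => hA (eA.symm l).2
  choose a ha using h0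
  let Bs := Module.Basis.extend hli
  let φ : Fin (Fintype.card A) → (R → K) →ₗ[K] K := fun l =>
    Bs.coord ⟨(eA.symm l : A), Module.Basis.subset_extend hli (eA.symm l).2⟩
  have hφ : ∀ l l', φ l (f (a l')) = if l' = l then 1 else 0 := by
    intro l l'
    have h1 : f (a l') =
        Bs ⟨(eA.symm l' : A), Module.Basis.subset_extend hli (eA.symm l').2⟩ := by
      rw [ha]
      exact (Module.Basis.extend_apply_self hli ⟨((eA.symm l' : A) : R → K),
        Module.Basis.subset_extend hli (eA.symm l').2⟩).symm
    change Bs.coord _ _ = _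
    rw [h1, Module.Basis.coord_apply, Module.Basis.repr_self, Finsupp.single_apply]
    congr 1
    apply propext
    rw [Subtype.mk.injEq, Subtype.ext_iff.symm, EmbeddingLike.apply_eq_iff_eq]
  have hφ' : ∀ l (g : R → K), φ l g = ∑ r, φ l (Pi.single r 1) * g r := by
    intro l g
    conv_lhs => rw [← Finset.univ_sum_single g]
    rw [map_sum]
    refine Finset.sum_congr rfl fun r _ => ?_
    have h1 : (Pi.single r (g r) : R → K) = g r • Pi.single r 1 := by
      rw [← Pi.single_smul, smul_eq_mul, mul_one]
    rw [h1, map_smul, smul_eq_mul, mul_comm]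
  refine ⟨Fintype.card A, a, fun l r => φ l (Pi.single r 1), fun l l' => ?_, ?_⟩
  · rw [← hφ', hφ]
  · intro M _ _ F hF
    induction hF using Submodule.span_induction with
    | mem F hF =>
      obtain ⟨a', w, rfl⟩ := hF
      have h1 : f a' ∈ Submodule.span K (Set.range fun l : Fin (Fintype.card A) => f (a l)) := by
        have h2 : (Set.range fun l : Fin (Fintype.card A) => f (a l)) = A := by
          ext x
          constructor
          · rintro ⟨l, rfl⟩
            beta_reduce
            rw [ha]
            exact (eA.symm l).2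
          · intro hx
            refine ⟨eA ⟨x, hx⟩, ?_⟩
            beta_reduce
            rw [ha]
            simp
        rw [h2, hspan]
        exact Submodule.subset_span ⟨a', rfl⟩
      obtain ⟨b, hb⟩ := (Submodule.mem_span_range_iff_exists_fun K).1 h1
      have h3 : ∀ l, φ l (f a') = b l := by
        intro l
        rw [← hb, map_sum, Finset.sum_eq_single l]
        · rw [map_smul, hφ, if_pos rfl, smul_eq_mul, mul_one]
        · intro l' _ hl
          rw [map_smul, hφ, if_neg hl, smul_zero]
        · intro h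
          exact absurd (Finset.mem_univ _) h
      intro r
      have h5 : ∀ l, ∑ r', φ l (Pi.single r' 1) • f a' r' • w = b l • w := by
        intro l
        rw [← h3, hφ', Finset.sum_smul]
        exact Finset.sum_congr rfl fun r' _ => smul_smul _ _ _
      simp only [h5]
      conv_lhs => rw [← hb]
      rw [Finset.sum_apply, Finset.sum_smul]
      refine Finset.sum_congr rfl fun l _ => ?_
      rw [Pi.smul_apply, smul_eq_mul, smul_smul, mul_comm]
    | zero => simp
    | add F F' _ _ hF hF' =>
      intro r
      rw [Pi.add_apply, hF r, hF' r, ← Finset.sum_add_distrib]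
      refine Finset.sum_congr rfl fun l _ => ?_
      rw [← smul_add, ← Finset.sum_add_distrib]
      congr 1
      refine Finset.sum_congr rfl fun r' _ => ?_
      rw [Pi.add_apply, smul_add]
    | smul x F _ hF =>
      intro r
      rw [Pi.smul_apply, hF r, Finset.smul_sum]
      refine Finset.sum_congr rfl fun l _ => ?_
      rw [smul_comm]
      congr 1
      rw [Finset.smul_sum]
      refine Finset.sum_congr rfl fun r' _ => ?_
      rw [Pi.smul_apply, smul_comm]

end expand

section semi

variable {K : Type u} [Field K] {T : Type v} [AddCommGroup T] [Module K T] {J S : Type}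
  [Fintype J] [DecidableEq J] [Fintype S] [DecidableEq S] {E : Type w} [AddCommGroup E]
  [Module K E]

/-- **The coefficients are semi-invariant.** -/
theorem coef_semi {N : ℕ} (Φ : Fin N → MultilinearMap K (fun _ : S => T) K)
    (t : Module.Basis J K T) {h : MultilinearMap K (fun _ : S => T) E} {a : Fin N → (S → J) → K}
    (ha : ∀ l l', ∑ r, a l r * Φ l' (fun j => t (r j)) = if l' = l then 1 else 0)
    (hh : ∀ r : S → J, h (fun j => t (r j)) = ∑ l, Φ l (fun j => t (r j)) •
      ∑ r', a l r' • h (fun j => t (r' j)))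
    {ρ : T →ₗ[K] T} {σ : E →ₗ[K] E} {μ : Fin N → K}
    (hΦ : ∀ l v, Φ l (fun j => ρ (v j)) = μ l * Φ l v)
    (hρ : ∀ v, h (fun j => ρ (v j)) = σ (h v)) (l : Fin N) :
    σ (∑ r, a l r • h (fun j => t (r j))) = μ l • ∑ r, a l r • h (fun j => t (r j)) := by
  set w : Fin N → E := fun l => ∑ r, a l r • h (fun j => t (r j)) with hw
  have h1 : h = ∑ l, (Φ l).smulRight (w l) := by
    refine Module.Basis.ext_multilinear (fun _ => t) fun r => ?_
    rw [hh r, _root_.sum_apply]
    rfl
  have h2 : ∀ v, h v = ∑ l, Φ l v • w l := by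
    intro v
    conv_lhs => rw [h1]
    rw [_root_.sum_apply]
    rfl
  change σ (∑ r, a l r • h (fun j => t (r j))) = μ l • w l
  rw [map_sum]
  have h3 : ∀ r : S → J, σ (a l r • h (fun j => t (r j))) =
      ∑ l', (a l r * Φ l' (fun j => t (r j))) • μ l' • w l' := by
    intro r
    rw [map_smul, ← hρ, h2, Finset.smul_sum]
    refine Finset.sum_congr rfl fun l' _ => ?_
    rw [hΦ, smul_smul, smul_smul]
    congr 1
    ring
  rw [Finset.sum_congr rfl fun r _ => h3 r, Finset.sum_comm]
  have h4 : ∀ l', ∑ r, (a l r * Φ l' (fun j => t (r j))) • μ l' • w l' =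
      (if l' = l then (1 : K) else 0) • μ l' • w l' := by
    intro l'
    rw [← Finset.sum_smul, ha]
  rw [Finset.sum_congr rfl fun l' _ => h4 l', Finset.sum_eq_single l]
  · rw [if_pos rfl, one_smul]
  · intro l' _ hl
    rw [if_neg hl, zero_smul]
  · intro h
    exact absurd (Finset.mem_univ _) h

end semi

section adapted

variable {K : Type u} [Field K] [CharZero K] {T : Type v} [AddCommGroup T] [Module K T]
  {I : Type} [Fintype I] [DecidableEq I] {G : Type x} [Group G]
  {B : T →ₗ[K] T →ₗ[K] K} {s : ℤ} {bar : I → I} {q : I → (T →ₗ[K] T)}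
  {ρ : G →* (T →ₗ[K] T)} {μ : G → K} (h : Blocks B s bar q ρ μ)

/-- the choice of one of the two blocks of every pair -/
theorem exists_sgn (hb : ∀ i, bar (bar i) = i) (hb' : ∀ i, bar i ≠ i) :
    ∃ sgn : I → Bool, ∀ i, sgn (bar i) = !sgn i := by
  let e := Fintype.equivFin I
  refine ⟨fun i => decide (e i < e (bar i)), fun i => ?_⟩
  beta_reduce
  rw [hb]
  have h1 : e (bar i) ≠ e i := fun h => hb' i (e.injective h)
  rcases lt_or_gt_of_ne h1 with h2 | h2
  · rw [decide_eq_true h2, decide_eq_false (not_lt_of_gt h2)]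
    rfl
  · rw [decide_eq_true h2, decide_eq_false (not_lt_of_gt h2)]
    rfl

/-- Adapted families of vectors. -/
structure Adapted (B : T →ₗ[K] T →ₗ[K] K) (bar : I → I) (q : I → (T →ₗ[K] T)) (sgn : I → Bool)
    {J : Type} (κ : J → I) (P N : J → T) : Prop where
  hκ : ∀ a, sgn (κ a) = true
  hP : ∀ a, q (κ a) (P a) = P a
  hN : ∀ a, q (bar (κ a)) (N a) = N a
  dual : ∀ a b, B (N a) (P b) = 1 ∧ a = b ∨ B (N a) (P b) = 0 ∧ a ≠ b
  span : Submodule.span K (Set.range P ∪ Set.range N) = ⊤

variable [Module.Finite K T]

include h in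
/-- vectors which represent functionals -/
theorem exists_rep (i : I) (φ : blk q i →ₗ[K] K) :
    ∃ u, q (bar i) u = u ∧ ∀ x : blk q i, B u x = φ x := by
  have h2 : Injective B := (injective_iff_map_eq_zero _).2 fun a ha =>
    h.nondeg a fun b => by rw [ha]; rfl
  have h3 : Surjective B :=
    (LinearMap.injective_iff_surjective_of_finrank_eq_finrank
      (Subspace.dual_finrank_eq).symm).1 h2
  obtain ⟨u, hu⟩ := h3 (φ ∘ₗ (q i).codRestrict (blk q i) fun x => ⟨x, rfl⟩)
  refine ⟨q (bar i) u, h.idem _ _, fun x => ?_⟩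
  rw [h.adj, h.bar_bar, hu, LinearMap.comp_apply]
  congr 1
  apply Subtype.ext
  change q i (q i x) = x
  rw [(mem_blk h).1 x.2, (mem_blk h).1 x.2]

include h in
/-- **Adapted bases.** -/
theorem exists_adapted {sgn : I → Bool} (hsgn : ∀ i, sgn (bar i) = !sgn i) :
    ∃ (J : Type) (_ : Fintype J) (_ : DecidableEq J) (κ : J → I) (P N : J → T),
      Adapted B bar q sgn κ P N ∧ ∀ i, sgn i = true →
        (univ.filter fun a => κ a = i).card = Module.finrank K (blk q i) := by
  have h1 : ∀ (i : I) (j : Fin (Module.finrank K (blk q i))), ∃ u, q (bar i) u = u ∧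
      ∀ x : blk q i, B u x = (Module.finBasis K (blk q i)).coord j x :=
    fun i j => exists_rep h i _
  choose u hu1 hu2 using h1
  refine ⟨Σ i : {i // sgn i = true}, Fin (Module.finrank K (blk q i.1)), inferInstance,
    inferInstance, fun a => a.1.1, fun a => Module.finBasis K (blk q a.1.1) a.2,
    fun a => u a.1.1 a.2, ⟨fun a => a.1.2, fun a => ?_, fun a => hu1 _ _, ?_, ?_⟩, ?_⟩
  · exact (mem_blk h).1 (Module.finBasis K (blk q a.1.1) a.2).2
  · rintro ⟨⟨i, hi⟩, j⟩ ⟨⟨i', hi'⟩, j'⟩
    by_cases hii : i = i'
    · subst hii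
      have h2 := hu2 i j (Module.finBasis K (blk q i) j')
      rw [Module.Basis.coord_apply, Module.Basis.repr_self] at h2
      by_cases hjj : j = j'
      · subst hjj
        left
        rw [Finsupp.single_eq_same] at h2
        exact ⟨h2, rfl⟩
      · right
        rw [Finsupp.single_eq_of_ne hjj] at h2
        refine ⟨h2, fun h3 => hjj ?_⟩
        have h4 := Sigma.mk.inj h3
        exact eq_of_heq h4.2
    · right
      refine ⟨h.zero_of (hu1 i j) ((mem_blk h).1 (Module.finBasis K (blk q i') j').2) ?_, ?_⟩
      · rw [h.bar_bar]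
        exact Ne.symm hii
      · intro h3
        have h4 := Sigma.mk.inj h3
        exact hii (congrArg Subtype.val h4.1)
  · rw [eq_top_iff]
    intro x _
    rw [← h.total x]
    refine Submodule.sum_mem _ fun i _ => ?_
    cases hi : sgn i with
    | true =>
      have h2 := (Module.finBasis K (blk q i)).sum_repr ⟨q i x, x, rfl⟩
      have h3 := congrArg Subtype.val h2
      rw [Submodule.coe_sum] at h3
      change _ = q i x at h3
      rw [← h3]
      refine Submodule.sum_mem _ fun j _ => ?_
      rw [Submodule.coe_smul]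
      exact Submodule.smul_mem _ _ (Submodule.subset_span (Or.inl ⟨⟨⟨i, hi⟩, j⟩, rfl⟩))
    | false =>
      have hi' : sgn (bar i) = true := by rw [hsgn, hi]; rfl
      set y := q i x with hy
      have hyq : q i y = y := h.idem i x
      have h2 : y = ∑ j, ((s : K) * B (Module.finBasis K (blk q (bar i)) j : T) y) •
          u (bar i) j := by
        rw [← sub_eq_zero]
        set z := y - ∑ j, ((s : K) * B (Module.finBasis K (blk q (bar i)) j : T) y) •
          u (bar i) j with hz
        have hzq : q i z = z := by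
          rw [hz, map_sub, hyq, map_sum]
          congr 1
          refine Finset.sum_congr rfl fun j _ => ?_
          have h3 := hu1 (bar i) j
          rw [h.bar_bar] at h3
          rw [map_smul, h3]
        have hzb : ∀ j, B z (Module.finBasis K (blk q (bar i)) j : T) = 0 := by
          intro j
          have h5 : ∀ j', B (u (bar i) j') (Module.finBasis K (blk q (bar i)) j : T) =
              if j = j' then 1 else 0 := by
            intro j'
            rw [hu2, Module.Basis.coord_apply, Module.Basis.repr_self, Finsupp.single_apply]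
          rw [hz, map_sub, LinearMap.sub_apply, map_sum, LinearMap.sum_apply]
          simp only [map_smul, LinearMap.smul_apply, h5, smul_eq_mul, mul_ite, mul_one, mul_zero]
          rw [Finset.sum_ite_eq univ j, if_pos (Finset.mem_univ _), h.symm y, sub_self]
        apply h.nondeg
        intro t
        have h3 : B z t = B z (q (bar i) t) := by
          conv_lhs => rw [← hzq]
          rw [h.adj]
        have h4 := (Module.finBasis K (blk q (bar i))).sum_repr ⟨q (bar i) t, t, rfl⟩
        have h5 := congrArg Subtype.val h4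
        rw [Submodule.coe_sum] at h5
        change _ = q (bar i) t at h5
        rw [h3, ← h5, map_sum]
        refine Finset.sum_eq_zero fun j _ => ?_
        rw [Submodule.coe_smul, map_smul, hzb, smul_zero]
      rw [h2]
      refine Submodule.sum_mem _ fun j _ => ?_
      exact Submodule.smul_mem _ _ (Submodule.subset_span (Or.inr ⟨⟨⟨bar i, hi'⟩, j⟩, rfl⟩))
  · intro i hi
    rw [← Fintype.card_fin (Module.finrank K (blk q i))]
    symm
    rw [← Finset.card_univ]
    refine Finset.card_bij (fun j _ => ⟨⟨i, hi⟩, j⟩) ?_ ?_ ?_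
    · intro j _
      exact Finset.mem_filter.2 ⟨Finset.mem_univ _, rfl⟩
    · intro j _ j' _ hjj
      exact eq_of_heq (Sigma.mk.inj hjj).2
    · rintro ⟨⟨i', hi'⟩, j⟩ ha
      obtain rfl : i' = i := (Finset.mem_filter.1 ha).2
      exact ⟨j, Finset.mem_univ _, rfl⟩

end adapted

end Pool.Agent.TH125.Cyc
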