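import Pool.Agent.TH125.Cyc.Crd

/-!
# The expansion of equivariant maps
-/

open Finset Function

set_option linter.unusedSectionVars false

namespace Pool.Agent.TH125.Cyc

universe u v w x

open Pool.Agent.TH125.Gal

variable {K : Type u} [Field K] [CharZero K] {T : Type v} [AddCommGroup T] [Module K T]
  {I : Type} [Fintype I] [DecidableEq I] {G : Type x} [Group G]
  {B : T →ₗ[K] T →ₗ[K] K} {s : ℤ} {bar : I → I} {q : I → (T →ₗ[K] T)}
  {ρ : G →* (T →ₗ[K] T)} {μ : G → K} (h : Blocks B s bar q ρ μ)
  {E : Type w} [AddCommGroup E] [Module K E]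
  {S : Type} [Fintype S] [DecidableEq S]
  {sgn : I → Bool} (hsgn : ∀ i, sgn (bar i) = !sgn i) {J : Type} [Fintype J] [DecidableEq J]
  {κ : J → I} {P N : J → T} (ha : Adapted B bar q sgn κ P N)

include h hsgn ha

theorem ad_PP (a c : J) : B (P a) (P c) = 0 := by
  refine h.zero_of (ha.hP a) (ha.hP c) fun h1 => ?_
  have h2 := ha.hκ c
  rw [h1, hsgn, ha.hκ] at h2
  exact absurd h2 (by decide)

theorem ad_NN (a c : J) : B (N a) (N c) = 0 := by
  refine h.zero_of (ha.hN a) (ha.hN c) fun h1 => ?_
  rw [h.bar_bar] at h1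
  have h2 := ha.hκ a
  rw [← h1, hsgn, ha.hκ] at h2
  exact absurd h2 (by decide)

omit h hsgn in
theorem ad_NP (a c : J) : B (N a) (P c) = if a = c then 1 else 0 := by
  rcases ha.dual a c with ⟨h1, h2⟩ | ⟨h1, h2⟩
  · rw [h1, if_pos h2]
  · rw [h1, if_neg h2]

omit hsgn in
theorem ad_PN (a c : J) : B (P a) (N c) = if c = a then (s : K) else 0 := by
  rw [h.symm, ad_NP ha]
  split_ifs
  · rw [mul_one]
  · rw [mul_zero]

theorem ws_P (a b c : J) : ws B s (N b) (P a) (P c) = if c = b then (-(s : K)) • P a else 0 := by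
  rw [ws_apply, ad_PP h hsgn ha, ad_NP ha]
  by_cases h1 : c = b
  · rw [if_pos h1, if_pos h1.symm, zero_smul, zero_sub, mul_one, neg_smul]
  · rw [if_neg h1, if_neg (Ne.symm h1), zero_smul, zero_sub, mul_zero, zero_smul, neg_zero]

theorem ws_N (a b c : J) : ws B s (N b) (P a) (N c) = if c = a then (s : K) • N b else 0 := by
  rw [ws_apply, ad_NN h hsgn ha, ad_PN h ha]
  by_cases h1 : c = a
  · rw [if_pos h1, if_pos h1, mul_zero, zero_smul, sub_zero]
  · rw [if_neg h1, if_neg h1, zero_smul, mul_zero, zero_smul, sub_zero]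

omit h hsgn ha

/-- the vectors -/
def vec (P N : J → T) (sg : S → Bool) (r : S → J) (p : S) : T :=
  if sg p = true then P (r p) else N (r p)

omit [DecidableEq J] in
theorem vec_update {sg : S → Bool} (r : S → J) (p : S) (a : J) :
    vec P N sg (update r p a) = update (vec P N sg r) p (if sg p = true then P a else N a) := by
  funext x
  by_cases hx : x = p
  · subst hx
    rw [vec, update_self, update_self]
  · rw [vec, update_of_ne hx, update_of_ne hx, vec]

open Classical in
/-- the coordinates -/
noncomputable def crd (f : MultilinearMap K (fun _ : S => T) E) (κ : J → I) (P N : J → T)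
    (sg : S → Bool) (bk : S → I) (r : S → J) : E :=
  if ∀ p, κ (r p) = bk p then f (vec P N sg r) else 0

section kill

variable {f : MultilinearMap K (fun _ : S => T) E}

include h hsgn ha in
theorem kill_sum {a b : J} {sg : S → Bool} {r : S → J} :
    ∑ p, f (update (vec P N sg r) p (ws B s (N b) (P a) (vec P N sg r p))) =
      (s : K) • (∑ p ∈ univ.filter (fun p => sg p = false ∧ r p = a),
          f (vec P N sg (update r p b)) -
        ∑ p ∈ univ.filter (fun p => sg p = true ∧ r p = b), f (vec P N sg (update r p a))) := by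
  rw [Finset.sum_filter, Finset.sum_filter, ← Finset.sum_sub_distrib, Finset.smul_sum]
  refine Finset.sum_congr rfl fun p _ => ?_
  cases hp : sg p with
  | true =>
    have h1 : vec P N sg r p = P (r p) := if_pos hp
    rw [h1, ws_P h hsgn ha, if_neg (c := true = false ∧ r p = a) (by simp), zero_sub]
    by_cases h2 : r p = b
    · rw [if_pos h2, if_pos ⟨rfl, h2⟩, MultilinearMap.map_update_smul, vec_update, if_pos hp]
      module
    · rw [if_neg h2, if_neg fun h3 => h2 h3.2, f.map_coord_zero p (update_self _ _ _), neg_zero,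
        smul_zero]
  | false =>
    have h1 : vec P N sg r p = N (r p) := if_neg (by rw [hp]; decide)
    rw [h1, ws_N h hsgn ha, if_neg (c := false = true ∧ r p = b) (by simp), sub_zero]
    by_cases h2 : r p = a
    · rw [if_pos h2, if_pos ⟨rfl, h2⟩, MultilinearMap.map_update_smul, vec_update,
        if_neg (by rw [hp]; decide)]
    · rw [if_neg h2, if_neg fun h3 => h2 h3.2, f.map_coord_zero p (update_self _ _ _), smul_zero]

include h hsgn ha in
/-- **The coordinates satisfy the hypotheses of the first fundamental theorem.** -/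
theorem hyp_crd (hsl : ∀ i, ∃ w₀ : T →ₗ[K] T, ∀ a b, q (bar i) a = a → q i b = b →
      Kill (ws B s a b - B a b • w₀) f) (sg : S → Bool) (bk : S → I) :
    Hyp K κ bk sg (crd f κ P N sg bk) where
  sup r hr := if_neg hr
  inv a b hab hκ r := by
    by_cases hr : ∀ p, κ (r p) = bk p
    · have h1 : ∀ p c, r p = b → κ c = κ b → crd f κ P N sg bk (update r p c) =
          f (vec P N sg (update r p c)) := by
        intro p c hp hc
        refine if_pos fun x => ?_
        by_cases hx : x = p
        · rw [hx, update_self, hc, ← hp, hr]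
        · rw [update_of_ne hx, hr]
      have h2 : ∀ p c, r p = a → κ c = κ a → crd f κ P N sg bk (update r p c) =
          f (vec P N sg (update r p c)) := by
        intro p c hp hc
        refine if_pos fun x => ?_
        by_cases hx : x = p
        · rw [hx, update_self, hc, ← hp, hr]
        · rw [update_of_ne hx, hr]
      rw [Finset.sum_congr rfl fun p hp => h1 p a (Finset.mem_filter.1 hp).2.2 hκ,
        Finset.sum_congr rfl fun p hp => h2 p b (Finset.mem_filter.1 hp).2.2 hκ.symm]
      obtain ⟨w₀, hw₀⟩ := hsl (κ a)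
      have h3 := hw₀ (N b) (P a) (by rw [hκ]; exact ha.hN b) (ha.hP a) (vec P N sg r)
      rw [ad_NP ha, if_neg (Ne.symm hab), zero_smul, sub_zero, kill_sum h hsgn ha] at h3
      have hs0 : (s : K) ≠ 0 := by
        intro h7
        have h8 := h.ss
        rw [h7, zero_mul] at h8
        exact zero_ne_one h8
      exact (sub_eq_zero.1 ((smul_eq_zero.1 h3).resolve_left hs0)).symm
    · have h1 : ∀ p c c', r p = c' → κ c = κ c' → crd f κ P N sg bk (update r p c) = 0 := by
        intro p c c' hp hc
        refine if_neg fun h2 => hr fun x => ?_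
        have h3 := h2 x
        by_cases hx : x = p
        · rw [hx, update_self] at h3
          rw [hx, hp, ← hc, h3]
        · rwa [update_of_ne hx] at h3
      rw [Finset.sum_eq_zero fun p hp => h1 p a b (Finset.mem_filter.1 hp).2.2 hκ,
        Finset.sum_eq_zero fun p hp => h1 p b a (Finset.mem_filter.1 hp).2.2 hκ.symm]
  dia a b hκ r hF := by
    by_cases hr : ∀ p, κ (r p) = bk p
    · have hf : f (vec P N sg r) ≠ 0 := by
        intro h1
        apply hF
        rw [crd, if_pos hr, h1]
      obtain ⟨w₀, hw₀⟩ := hsl (κ a)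
      have h1 := hw₀ (N a) (P a) (ha.hN a) (ha.hP a) (vec P N sg r)
      have h2 := hw₀ (N b) (P b) (by rw [hκ]; exact ha.hN b) (by rw [hκ]; exact ha.hP b)
        (vec P N sg r)
      rw [ad_NP ha, if_pos rfl, one_smul] at h1 h2
      simp only [LinearMap.sub_apply, MultilinearMap.map_update_sub, Finset.sum_sub_distrib]
        at h1 h2
      rw [sub_eq_zero] at h1 h2
      have h3 := h1.trans h2.symm
      rw [kill_sum h hsgn ha, kill_sum h hsgn ha] at h3
      have hs0 : (s : K) ≠ 0 := by
        intro h7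
        have h8 := h.ss
        rw [h7, zero_mul] at h8
        exact zero_ne_one h8
      have h4 := smul_right_injective _ hs0 h3
      have h5 : ∀ (t : Bool) (c : J), ∑ p ∈ univ.filter (fun p => sg p = t ∧ r p = c),
          f (vec P N sg (update r p c)) = (cnt sg t r c : K) • f (vec P N sg r) := by
        intro t c
        have h6 : ∀ p ∈ univ.filter (fun p => sg p = t ∧ r p = c),
            f (vec P N sg (update r p c)) = f (vec P N sg r) := by
          intro p hp
          have h7 := (Finset.mem_filter.1 hp).2.2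
          rw [← h7, update_eq_self]
        rw [Finset.sum_congr rfl h6, Finset.sum_const, cnt, ← Nat.cast_smul_eq_nsmul K]
      beta_reduce at h4
      rw [h5, h5, h5, h5, ← sub_smul, ← sub_smul] at h4
      have h6 := smul_left_injective _ hf h4
      have h7 : ((cnt sg false r a : ℤ) - cnt sg true r a : ℤ) =
          (cnt sg false r b : ℤ) - cnt sg true r b := by
        exact_mod_cast h6
      linarith
    · exact absurd (if_neg hr) hF

end kill

/-- the pairs of positions -/
theorem exists_pairing {sg : S → Bool} (τ : {q // sg q = false} ≃ {p // sg p = true}) :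
    ∃ (m : ℕ) (e : Fin m × Fin 2 ≃ S), ∀ l, ∃ x : {q // sg q = false}, e (l, 1) = x.1 ∧
      e (l, 0) = (τ x).1 := by
  let ε := (Fintype.equivFin {q // sg q = false}).symm
  have hbij : Bijective (fun a : Fin (Fintype.card {q // sg q = false}) × Fin 2 =>
      if a.2 = 0 then (τ (ε a.1)).1 else (ε a.1).1) := by
    constructor
    · rintro ⟨l, j⟩ ⟨l', j'⟩ hll
      beta_reduce at hll
      dsimp only at hll
      have hpn : ∀ x y : {q // sg q = false}, (τ x).1 ≠ y.1 := by
        intro x y hxy
        have h1 := (τ x).2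
        rw [hxy, y.2] at h1
        exact absurd h1 (by decide)
      by_cases hj : j = 0
      · by_cases hj' : j' = 0
        · rw [if_pos hj, if_pos hj'] at hll
          have h1 := ε.injective (τ.injective (Subtype.ext hll))
          rw [h1, hj, hj']
        · rw [if_pos hj, if_neg hj'] at hll
          exact absurd hll (hpn _ _)
      · by_cases hj' : j' = 0
        · rw [if_neg hj, if_pos hj'] at hll
          exact absurd hll.symm (hpn _ _)
        · rw [if_neg hj, if_neg hj'] at hll
          have h1 := ε.injective (Subtype.ext hll)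
          have h2 : j = j' := by omega
          rw [h1, h2]
    · intro p
      cases hp : sg p with
      | true =>
        refine ⟨(ε.symm (τ.symm ⟨p, hp⟩), 0), ?_⟩
        simp
      | false =>
        refine ⟨(ε.symm ⟨p, hp⟩, 1), ?_⟩
        simp
  refine ⟨_, Equiv.ofBijective _ hbij, fun l => ⟨ε l, ?_, ?_⟩⟩
  · simp
  · simp

include h hsgn ha in
theorem pair_val {k : I} (hk : sgn k = true) (sg : S → Bool) (r : S → J) (p₀ p₁ : S) :
    (B ∘ₗ q k) (vec P N sg r p₀) (vec P N sg r p₁) =
      if sg p₀ = true ∧ sg p₁ = false ∧ κ (r p₀) = k ∧ r p₀ = r p₁ then (s : K) else 0 := by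
  rw [LinearMap.comp_apply]
  cases h0 : sg p₀ with
  | true =>
    have e0 : vec P N sg r p₀ = P (r p₀) := if_pos h0
    rw [e0]
    by_cases h1 : κ (r p₀) = k
    · have e1 : q k (P (r p₀)) = P (r p₀) := by rw [← h1]; exact ha.hP _
      rw [e1]
      cases h2 : sg p₁ with
      | true =>
        have e2 : vec P N sg r p₁ = P (r p₁) := if_pos h2
        rw [e2, ad_PP h hsgn ha, if_neg (by simp)]
      | false =>
        have e2 : vec P N sg r p₁ = N (r p₁) := if_neg (by rw [h2]; decide)
        rw [e2, ad_PN h ha]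
        by_cases h3 : r p₁ = r p₀
        · rw [if_pos h3, if_pos ⟨rfl, rfl, h1, h3.symm⟩]
        · rw [if_neg h3, if_neg fun h4 => h3 h4.2.2.2.symm]
    · rw [if_neg fun h4 => h1 h4.2.2.1, h.q_of (ha.hP _) (Ne.symm h1), map_zero,
        LinearMap.zero_apply]
  | false =>
    have e0 : vec P N sg r p₀ = N (r p₀) := if_neg (by rw [h0]; decide)
    rw [e0, if_neg (by simp), h.q_of (ha.hN _), map_zero, LinearMap.zero_apply]
    intro h1
    rw [h1, hsgn, ha.hκ] at hk
    exact absurd hk (by decide)

/-- the generators -/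
def GenT (B : T →ₗ[K] T →ₗ[K] K) (q : I → (T →ₗ[K] T)) (S : Type) (E : Type w)
    [AddCommGroup E] [Module K E] : Set (MultilinearMap K (fun _ : S => T) E) :=
  {F | ∃ (m : ℕ) (e : Fin m × Fin 2 ≃ S) (k : Fin m → I) (w : E),
    F = (pf (fun l => B ∘ₗ q (k l)) e).smulRight w}

include h hsgn ha in
/-- **The expansion.** -/
theorem in_span {f : MultilinearMap K (fun _ : S => T) E}
    (hsl : ∀ i, ∃ w₀ : T →ₗ[K] T, ∀ a b, q (bar i) a = a → q i b = b →
      Kill (ws B s a b - B a b • w₀) f)
    (hcard : ∀ i, sgn i = true → Fintype.card S < (univ.filter fun a => κ a = i).card) :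
    f ∈ Submodule.span K (GenT B q S E) := by
  classical
  have hw : ∀ (sg : S → Bool) (bk : S → I),
      ∃ w : ({q // sg q = false} ≃ {p // sg p = true}) → E, (∀ p, sgn (bk p) = true) →
        crd f κ P N sg bk = ∑ τ, gs κ bk τ (w τ) := by
    intro sg bk
    by_cases hbk : ∀ p, sgn (bk p) = true
    · obtain ⟨w, hw⟩ := fft (hyp_crd h hsgn ha hsl sg bk) (by
        intro i
        by_cases h1 : ∀ p, bk p ≠ i
        · exact Or.inr h1
        · left
          push Not at h1
          obtain ⟨p, rfl⟩ := h1
          exact lt_of_le_of_lt (Finset.card_le_univ _) (hcard _ (hbk p)))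
      exact ⟨w, fun _ => hw⟩
    · exact ⟨0, fun h1 => absurd h1 hbk⟩
  choose w hw using hw
  have he : ∀ (sg : S → Bool) (τ : {q // sg q = false} ≃ {p // sg p = true}),
      ∃ (m : ℕ) (e : Fin m × Fin 2 ≃ S), ∀ l, ∃ x : {q // sg q = false}, e (l, 1) = x.1 ∧
        e (l, 0) = (τ x).1 := fun sg τ => exists_pairing τ
  choose m e he using he
  set C : ∀ (sg : S → Bool) (bk : S → I) (τ : {q // sg q = false} ≃ {p // sg p = true}),
      MultilinearMap K (fun _ : S => T) E := fun sg bk τ =>
    if (∀ p, sgn (bk p) = true) ∧ ∀ x : {q // sg q = false}, bk x.1 = bk (τ x).1 then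
      (pf (fun l => B ∘ₗ q (bk (e sg τ (l, 1)))) (e sg τ)).smulRight
        ((s : K) ^ (m sg τ) • w sg bk τ) else 0 with hC
  have hmem : ∀ sg bk τ, C sg bk τ ∈ Submodule.span K (GenT B q S E) := by
    intro sg bk τ
    rw [hC]
    beta_reduce
    split_ifs
    · exact Submodule.subset_span ⟨_, _, _, _, rfl⟩
    · exact Submodule.zero_mem _
  -- the values
  have hval : ∀ sg bk τ (sg' : S → Bool) (r' : S → J), C sg bk τ (vec P N sg' r') =
      if (∀ p, sgn (bk p) = true) ∧ sg' = sg ∧ bk = (fun p => κ (r' p)) ∧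
        ∀ x : {q // sg q = false}, r' x.1 = r' (τ x).1 then w sg bk τ else 0 := by
    intro sg bk τ sg' r'
    rw [hC]
    beta_reduce
    by_cases h1 : (∀ p, sgn (bk p) = true) ∧ ∀ x : {q // sg q = false}, bk x.1 = bk (τ x).1
    · rw [if_pos h1, MultilinearMap.smulRight_apply, pf_apply]
      rw [Finset.prod_congr rfl fun l _ =>
        pair_val h hsgn ha (h1.1 (e sg τ (l, 1))) sg' r' (e sg τ (l, 0)) (e sg τ (l, 1)),
        Finset.prod_ite_zero]
      have h2 : (∀ l ∈ univ, sg' (e sg τ (l, 0)) = true ∧ sg' (e sg τ (l, 1)) = false ∧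
          κ (r' (e sg τ (l, 0))) = bk (e sg τ (l, 1)) ∧
          r' (e sg τ (l, 0)) = r' (e sg τ (l, 1))) ↔ (∀ p, sgn (bk p) = true) ∧ sg' = sg ∧
          bk = (fun p => κ (r' p)) ∧ ∀ x : {q // sg q = false}, r' x.1 = r' (τ x).1 := by
        constructor
        · intro h3
          have h4 : ∀ x : {q // sg q = false}, ∃ l, e sg τ (l, 1) = x.1 ∧
              e sg τ (l, 0) = (τ x).1 := by
            intro x
            obtain ⟨⟨l, j⟩, hl⟩ := (e sg τ).surjective x.1
            obtain ⟨y, hy1, hy0⟩ := he sg τ l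
            have hj : j = 1 := by
              by_contra hj
              have hj0 : j = 0 := by omega
              rw [hj0, hy0] at hl
              have h5 := (τ y).2
              rw [hl, x.2] at h5
              exact absurd h5 (by decide)
            rw [hj] at hl
            have hxy : x = y := Subtype.ext (hl.symm.trans hy1)
            exact ⟨l, hl, by rw [hxy]; exact hy0⟩
          have h5 : ∀ x : {q // sg q = false}, sg' (τ x).1 = true ∧ sg' x.1 = false ∧
              κ (r' (τ x).1) = bk x.1 ∧ r' (τ x).1 = r' x.1 := by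
            intro x
            obtain ⟨l, hl1, hl0⟩ := h4 x
            have h6 := h3 l (Finset.mem_univ _)
            rwa [hl1, hl0] at h6
          refine ⟨h1.1, ?_, ?_, fun x => (h5 x).2.2.2.symm⟩
          · funext p
            cases hp : sg p with
            | true =>
              have h6 := (h5 (τ.symm ⟨p, hp⟩)).1
              rwa [Equiv.apply_symm_apply] at h6
            | false => exact (h5 ⟨p, hp⟩).2.1
          · funext p
            cases hp : sg p with
            | true =>
              have h6 := h5 (τ.symm ⟨p, hp⟩)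
              have h7 := h1.2 (τ.symm ⟨p, hp⟩)
              rw [Equiv.apply_symm_apply] at h6 h7
              rw [← h7, ← h6.2.2.1]
            | false =>
              have h6 := h5 ⟨p, hp⟩
              rw [← h6.2.2.1, h6.2.2.2]
        · rintro ⟨_, rfl, rfl, h4⟩ l _
          obtain ⟨x, hx1, hx0⟩ := he sg' τ l
          rw [hx1, hx0]
          exact ⟨(τ x).2, x.2, by rw [← h4], (h4 x).symm⟩
      by_cases h3 : (∀ p, sgn (bk p) = true) ∧ sg' = sg ∧ bk = (fun p => κ (r' p)) ∧
          ∀ x : {q // sg q = false}, r' x.1 = r' (τ x).1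
      · rw [if_pos (h2.2 h3), if_pos h3, Finset.prod_const, Finset.card_univ, Fintype.card_fin,
          smul_smul, ← mul_pow, h.ss, one_pow, one_smul]
      · rw [if_neg fun h4 => h3 (h2.1 h4), if_neg h3, zero_smul]
    · rw [if_neg h1, if_neg]
      · rfl
      · rintro ⟨h2, rfl, rfl, h3⟩
        exact h1 ⟨h2, fun x => congrArg κ (h3 x)⟩
  have key : f = ∑ sg, ∑ bk, ∑ τ, C sg bk τ := by
    rw [← sub_eq_zero]
    refine MultilinearMap.ext fun v => ?_
    refine multi_zero (P := f - ∑ sg, ∑ bk, ∑ τ, C sg bk τ) ha.span (fun v hv => ?_) v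
    obtain ⟨sg', r', rfl⟩ : ∃ (sg' : S → Bool) (r' : S → J), v = vec P N sg' r' := by
      have h1 : ∀ p, ∃ (t : Bool) (a : J), v p = if t = true then P a else N a := by
        intro p
        rcases hv p with ⟨a, ha⟩ | ⟨a, ha⟩
        · exact ⟨true, a, by rw [if_pos rfl, ha]⟩
        · exact ⟨false, a, by rw [if_neg (by decide), ha]⟩
      choose t a hta using h1
      exact ⟨t, a, funext hta⟩
    rw [_root_.sub_apply, _root_.sum_apply, Finset.sum_eq_single sg', _root_.sum_apply,
      Finset.sum_eq_single (fun p => κ (r' p)), _root_.sum_apply]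
    · have h1 : f (vec P N sg' r') = crd f κ P N sg' (fun p => κ (r' p)) r' :=
        (if_pos fun _ => rfl).symm
      rw [h1, hw sg' (fun p => κ (r' p)) (fun p => ha.hκ _), Finset.sum_apply, sub_eq_zero]
      refine Finset.sum_congr rfl fun τ _ => ?_
      rw [hval, gs]
      refine if_congr ?_ rfl rfl
      constructor
      · rintro ⟨_, h2⟩
        exact ⟨fun p => ha.hκ _, rfl, rfl, h2⟩
      · rintro ⟨_, _, _, h2⟩
        exact ⟨fun _ => rfl, h2⟩
    · intro bk _ hbk
      rw [_root_.sum_apply]
      refine Finset.sum_eq_zero fun τ _ => ?_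
      rw [hval, if_neg fun h2 => hbk h2.2.2.1]
    · intro h1
      exact absurd (Finset.mem_univ _) h1
    · intro sg _ hsg
      rw [_root_.sum_apply]
      refine Finset.sum_eq_zero fun bk _ => ?_
      rw [_root_.sum_apply]
      refine Finset.sum_eq_zero fun τ _ => ?_
      rw [hval, if_neg fun h2 => hsg h2.2.1.symm]
    · intro h1
      exact absurd (Finset.mem_univ _) h1
  rw [key]
  exact Submodule.sum_mem _ fun sg _ => Submodule.sum_mem _ fun bk _ =>
    Submodule.sum_mem _ fun τ _ => hmem sg bk τ

/-- **Equivariant maps.** -/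
theorem eqv_span {K : Type u} [Field K] [CharZero K] {T : Type v} [AddCommGroup T] [Module K T]
    [Module.Finite K T] {I : Type} [Fintype I] [DecidableEq I] {G : Type x} [Group G]
    {B : T →ₗ[K] T →ₗ[K] K} {s : ℤ} {bar : I → I} {q : I → (T →ₗ[K] T)}
    {ρ : G →* (T →ₗ[K] T)} {μ : G → K} (h : Blocks B s bar q ρ μ)
    {E : Type w} [AddCommGroup E] [Module K E] {S : Type} [Fintype S] [DecidableEq S]
    {g : G} {δ : I → T} {c : I → K} (hr : Refl B bar q ρ g δ c) (hμ : μ g = 1)
    {σ : G →* (E →ₗ[K] E)} (hσ : σ g = 1) (hK : FewRoots K)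
    (hmul : ∀ γ γ', μ (γ * γ') = μ γ * μ γ')
    (hdim : ∀ i, 2 ≤ Module.finrank K (blk q i) ∧ Fintype.card S < Module.finrank K (blk q i))
    {f : MultilinearMap K (fun _ : S => T) E} (hf : Eqv ρ σ f) :
    f ∈ Submodule.span K (GenT B q S E) := by
  obtain ⟨sgn, hsgn⟩ := exists_sgn h.bar_bar h.bar_ne
  obtain ⟨J, _, _, κ, P, N, ha, hcard⟩ := exists_adapted h hsgn
  refine in_span h hsgn ha (fun i => ?_) fun i hi => ?_
  · obtain ⟨w₀, hw₀⟩ := sl_mem (S := S) h hr hμ hσ hK hmul i (hdim i).1 (hdim (bar i)).1
    exact ⟨w₀, fun a b ha hb => (hw₀ a b ha hb).2 f hf⟩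
  · rw [hcard i hi]
    exact (hdim i).2

end Pool.Agent.TH125.Cyc
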