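import Pool.Agent.TH125.Cyc.Exp
import Pool.Agent.TH125.Sec.Fin

/-!
# The Tate conjecture for powers of varieties over a base: several blocks
-/

open CategoryTheory AlgebraicGeometry Finset

set_option linter.unusedSectionVars false

universe u v w

namespace Pool.Agent.TH125.Cyc

open Pool.Agent.H914 Pool.Agent.H914.VarClass Pool.Agent.H914.VarClass.Obj
  Pool.Agent.H914.WeilCohomology Pool.Agent.H281R3.HT Pool.Agent.W552 Pool.Agent.TH125.Gal
  Pool.Agent.TH125.Sec

section pattern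

variable {K : Type u} [Field K] {A : Type v} [Ring A] [Algebra K A] {JC JT : Type} {N : ℕ}

/-- **Sums of monomials over the free positions of a pattern.** -/
theorem sum_pattern' [Fintype JT] [DecidableEq JT] {E : Fin N → JC ⊕ JT → A} {dg : JC ⊕ JT → ℕ}
    {d : ℕ} (hd : ∀ j, dg (Sum.inr j) = d)
    (hE : ∀ p q, p ≠ q → ∀ i j, E p i * E q j = (-1 : K) ^ (dg i * dg j) • (E q j * E p i))
    {c : Fin N → Option JC} {m : ℕ} (e : Fin m × Fin 2 ≃ Free c) (Q : Fin m → JT → JT → K) :
    ∃ ε : ℤ, ∑ r : Free c → JT, (∏ l, Q l (r (e (l, 0))) (r (e (l, 1)))) •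
        (List.ofFn fun p => E p (comb c r p)).prod =
      (ε : K) • ((List.ofFn fun l : Fin m => ∑ a : Fin 2 → JT, Q l (a 0) (a 1) •
        (E (e (l, 0)).1 (Sum.inr (a 0)) * E (e (l, 1)).1 (Sum.inr (a 1)))).prod *
        ((fixList c).map fun p => (c p).elim 1 fun i => E p (Sum.inl i)).prod) := by
  obtain ⟨ε, h1, h2⟩ := perm_sign (K := K) (A := A)
    (fun p => (c p).elim d fun i => dg (Sum.inl i)) (perm_lists e) (List.nodup_finRange N)
  refine ⟨ε, ?_⟩
  have hdeg : ∀ (r : Free c → JT) p, dg (comb c r p) = (c p).elim d fun i => dg (Sum.inl i) := by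
    intro r p
    cases h : c p with
    | none => rw [comb_none r ⟨p, h⟩, hd]; rfl
    | some i => rw [comb_some r h]; rfl
  have h3 : ∀ r : Free c → JT, (List.ofFn fun p => E p (comb c r p)).prod =
      (ε : K) • ((List.ofFn fun l : Fin m =>
        E (e (l, 0)).1 (Sum.inr (r (e (l, 0)))) * E (e (l, 1)).1 (Sum.inr (r (e (l, 1))))).prod *
        ((fixList c).map fun p => (c p).elim 1 fun i => E p (Sum.inl i)).prod) := by
    intro r
    have h4 := h2 (fun p => E p (comb c r p)) fun p q hpq => by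
      rw [hE p q hpq, hdeg, hdeg]
    have h5 : ((pairList e).map fun p => E p (comb c r p)).prod = (List.ofFn fun l : Fin m =>
        E (e (l, 0)).1 (Sum.inr (r (e (l, 0)))) *
          E (e (l, 1)).1 (Sum.inr (r (e (l, 1))))).prod := by
      rw [pairList, List.map_flatMap, List.ofFn_eq_map]
      generalize List.finRange m = L
      induction L with
      | nil => rfl
      | cons l L ih =>
        rw [List.flatMap_cons, List.prod_append, ih, List.map_cons, List.prod_cons]
        congr 1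
        simp only [List.map_cons, List.map_nil, List.prod_cons, List.prod_nil, mul_one]
        rw [comb_none, comb_none]
    have h6 : ((fixList c).map fun p => E p (comb c r p)) =
        ((fixList c).map fun p => (c p).elim 1 fun i => E p (Sum.inl i)) := by
      refine List.map_congr_left fun p hp => ?_
      rw [mem_fixList] at hp
      cases h : c p with
      | none => exact absurd h hp
      | some i => rw [comb_some r h]; rfl
    rw [List.map_append, List.prod_append, h5, h6] at h4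
    rw [List.ofFn_eq_map, h4, smul_smul]
    have h7 : (ε : K) * (ε : K) = 1 := by
      rw [← Int.cast_mul, h1, Int.cast_one]
    rw [h7, one_smul]
  have h8 : ∑ r : Free c → JT, (∏ l, Q l (r (e (l, 0))) (r (e (l, 1)))) •
      (List.ofFn fun l : Fin m =>
        E (e (l, 0)).1 (Sum.inr (r (e (l, 0)))) * E (e (l, 1)).1 (Sum.inr (r (e (l, 1))))).prod =
      (List.ofFn fun l : Fin m => ∑ a : Fin 2 → JT, Q l (a 0) (a 1) •
        (E (e (l, 0)).1 (Sum.inr (a 0)) * E (e (l, 1)).1 (Sum.inr (a 1)))).prod := by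
    rw [← sum_prod (fun (l : Fin m) (a : Fin 2 → JT) => Q l (a 0) (a 1))
      (fun (l : Fin m) (a : Fin 2 → JT) => E (e (l, 0)).1 (Sum.inr (a 0)) *
        E (e (l, 1)).1 (Sum.inr (a 1)))]
    refine Fintype.sum_equiv ((Equiv.arrowCongr e.symm (Equiv.refl JT)).trans
      (Equiv.curry _ _ _)) _ _ fun r => ?_
    rfl
  rw [← h8, Finset.sum_mul, Finset.smul_sum]
  refine Finset.sum_congr rfl fun r _ => ?_
  rw [h3, smul_comm, smul_mul_assoc]

end pattern

variable {k : Type u} [Field k] {𝒱 : VarClass k} {ops : CycleOps 𝒱}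
  {W : WeilCohomology.{u, v} ops}

/-- the class given by the Gram matrix of the dual classes and an operator -/
noncomputable def dK {X Y : 𝒱.Obj} {f : X ⟶ Y} (s : TB W X (relPrimitive W f))
    (q : relPrimitive W f →ₗ[W.K] relPrimitive W f) : W.H (X.prod X) :=
  ∑ a : Fin 2 → Fin s.NT, rform W X (relPrimitive W f) (q (s.uT (a 0))) (s.uT (a 1)) •
    (W.map (fst X X) (s.bT (a 0)) * W.map (snd X X) (s.bT (a 1)))

section pairs

variable {X Y : 𝒱.Obj} {f : X ⟶ Y} {s : TB W X (relPrimitive W f)}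
  (hmid : relPrimitive W f ≤ W.gr X X.dim) {N : ℕ} {A : 𝒱.Obj} {π : Fin N → (A ⟶ X)}

include hmid in
theorem dK_gr (q : relPrimitive W f →ₗ[W.K] relPrimitive W f) :
    dK s q ∈ W.gr (X.prod X) (2 * X.dim) := by
  rw [dK]
  refine Submodule.sum_mem _ fun a _ => Submodule.smul_mem _ _ ?_
  rw [two_mul]
  exact W.mul_mem (W.map_mem _ (hmid (s.bT _).2)) (W.map_mem _ (hmid (s.bT _).2))

include hmid in
/-- **The sums over the free positions.** -/
theorem pair_sum' {c₀ : Fin N → Option Unit} {m : ℕ} (e : Fin m × Fin 2 ≃ Free c₀)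
    (q : Fin m → (relPrimitive W f →ₗ[W.K] relPrimitive W f)) : ∃ ε : ℤ,
    ∑ r : Free c₀ → Fin s.NT,
      (∏ l, rform W X (relPrimitive W f) (q l (s.uT (r (e (l, 0))))) (s.uT (r (e (l, 1))))) •
      mono π (fun p => bx (fun i => (s.bT i : W.H X)) (comb c₀ r p)) =
      (ε : W.K) • (List.ofFn fun l : Fin m =>
        W.map (Obj.lift (π (e (l, 0)).1) (π (e (l, 1)).1)) (dK s (q l))).prod := by
  obtain ⟨ε, hε⟩ := sum_pattern' (K := W.K)
    (E := fun p i => W.map (π p) (bx (fun i => (s.bT i : W.H X)) i)) (dg := dgb X)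
    (d := X.dim) (fun _ => rfl) (fun p q _ i j => W.comm (W.map_mem _ (bx_gr hmid i))
      (W.map_mem _ (bx_gr hmid j))) e
    (fun l i j => rform W X (relPrimitive W f) (q l (s.uT i)) (s.uT j))
  refine ⟨ε, hε.trans ?_⟩
  have h1 : ((fixList c₀).map fun p => (c₀ p).elim (1 : W.H A) fun i =>
      W.map (π p) (bx (fun i => (s.bT i : W.H X)) (Sum.inl i))).prod = 1 := by
    refine List.prod_eq_one fun x hx => ?_
    obtain ⟨p, _, rfl⟩ := List.mem_map.1 hx
    cases c₀ p with
    | none => rfl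
    | some i => exact map_one (W.map (π p))
  rw [h1, mul_one]
  congr 3
  funext l
  rw [dK, map_sum]
  refine Finset.sum_congr rfl fun a _ => ?_
  rw [map_smul, map_mul, ← W.map_comp, ← W.map_comp, Obj.lift_fst, Obj.lift_snd]
  rfl

end pairs

section

variable {P Q : Polarized 𝒱} {n : ℕ} {Z : 𝒱.Obj} {f : P.X ⟶ Q.X} {z : W.H (P.X.prod Q.X)}
  {J : Type} [Fintype J] {e : Module.Basis J W.K (W.H P.X)}
  {b : Module.Basis (Fin (n + 1) → J) W.K (W.H (nest ops n fun _ => P).X)}
  (hb : ∀ r, b r = mono (prj ops n fun _ => P) fun p => e (r p))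
  (hmid : relPrimitive W f ≤ W.gr P.X P.X.dim)
  (hz : ∀ x, x - W.map f (W.corr z x) ∈ relPrimitive W f) (s : TB W P.X (relPrimitive W f))
  {Γ : Type w} [Group Γ] {χ : Γ →* W.Kˣ} {ρ : Γ →* (W.H P.X ≃ₐ[W.K] W.H P.X)}
  {ρ' : Γ →* (W.H Q.X ≃ₐ[W.K] W.H Q.X)} {τ : Γ →* (W.H Z ≃ₐ[W.K] W.H Z)}
  {υ : Γ →* (W.H ((nest ops n fun _ => P).X.prod Z) ≃ₐ[W.K]
    W.H ((nest ops n fun _ => P).X.prod Z))}
  {υ' : Γ →* (W.H ((nest ops n fun _ => Q).X.prod Z) ≃ₐ[W.K]
    W.H ((nest ops n fun _ => Q).X.prod Z))}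
  {I : Type} [Fintype I] [DecidableEq I] {bar : I → I}
  {q : I → (relPrimitive W f →ₗ[W.K] relPrimitive W f)}

/-- the index type of the products of forms -/
abbrev AIx (I S : Type) : Type := Σ m : ℕ, (Fin m × Fin 2 ≃ S) × (Fin m → I)

/-- the products of forms -/
def pfA {K : Type u} [Field K] {T : Type v} [AddCommGroup T] [Module K T] {I S : Type}
    (B : T →ₗ[K] T →ₗ[K] K) (q : I → (T →ₗ[K] T)) (a : AIx I S) :
    MultilinearMap K (fun _ : S => T) K :=
  pf (fun l => B ∘ₗ q (a.2.2 l)) a.2.1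

include hb hmid hz in
/-- **The contribution of a pattern is algebraic.** -/
theorem term_alg' (hG : IsGalois W χ P.X ρ) (hG' : IsGalois W χ Q.X ρ')
    (hf : Intertwines (W.map f) ρ' ρ) (hP : IsPowAct W P n Z ρ τ υ)
    (hQ : IsPowAct W Q n Z ρ' τ υ') (hυ' : ∀ g i, ∀ a ∈ W.gr _ i, υ' g a ∈ W.gr _ i)
    (hBl : Blocks (rform W P.X (relPrimitive W f)) ((-1) ^ P.X.dim) bar q (rhoR hG hf)
      (fun g => (χ g : W.K) ^ P.X.dim)) {g : Γ}
    {δ : I → relPrimitive W f} {cc : I → W.K}
    (hRf : Refl (rform W P.X (relPrimitive W f)) bar q (rhoR hG hf) g δ cc)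
    (hχ : χ g = 1) (hυ : υ' g = 1) (hK : FewRoots W.K)
    (hdim : ∀ i, n + 1 < Module.finrank W.K (blk q i))
    (hdK : ∀ i, dK s (q i) ∈ algSpan W (P.X.prod P.X))
    (hT : TateConj W χ ((nest ops n fun _ => Q).X.prod Z) υ')
    {c : W.H ((nest ops n fun _ => P).X.prod Z)} {j : ℕ} {Δ : Subgroup Γ} (hΔ : Δ.FiniteIndex)
    (hc : ∀ g ∈ Δ, υ g c = (χ g : W.K) ^ j • c)
    (hzg : ∀ g ∈ Δ, ∀ x, W.corr z (ρ g x) = ρ' g (W.corr z x))
    (c₀ : Fin (n + 1) → Option Unit) :
    proj (W.isInternal _) (2 * j) (∑ r : Free c₀ → Fin s.NT,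
      W.map (fst _ Z) (mono (prj ops n fun _ => P) fun p =>
        bx (fun i => (s.bT i : W.H P.X)) (comb c₀ r p)) *
        W.map (powMap ops f n Z) (hS f z e b c c₀ fun j => s.uT (r j))) ∈
      algSpan W ((nest ops n fun _ => P).X.prod Z) := by
  classical
  have h1 : hS f z e b c c₀ ∈ Submodule.span W.K
      (GenT (rform W P.X (relPrimitive W f)) q (Free c₀) _) := by
    refine eqv_span hBl hRf (by rw [hχ, Units.val_one, one_pow])
      (σ := twist (Sec.lam χ P c₀ j) υ') (by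
        apply LinearMap.ext
        intro z
        rw [twist_apply, Sec.lam_apply, hχ, hυ]
        simp) hK (fun γ γ' => by rw [map_mul, Units.val_mul, mul_pow])
      (fun i => ⟨?_, lt_of_le_of_lt (Fintype.card_subtype_le _) ?_⟩)
      ⟨Δ, hΔ, fun g hg v => hS_eqv hb hG hG' hf hP hQ (hc g hg) (hzg g hg) c₀ v⟩
    · have := hdim i
      omega
    · rw [Fintype.card_fin]
      exact hdim i
  obtain ⟨N, a, co, ha, hexp⟩ := indep_expand (R := Free c₀ → Fin s.NT)
    (fun (a : AIx I (Free c₀)) r => pfA (rform W P.X (relPrimitive W f)) q a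
      (fun j => s.uT (r j)))
  have h1' : (fun r : Free c₀ → Fin s.NT => hS f z e b c c₀ fun j => s.uT (r j)) ∈
      Submodule.span W.K {F : (Free c₀ → Fin s.NT) → W.H ((nest ops n fun _ => Q).X.prod Z) |
        ∃ (a : AIx I (Free c₀)) (w : W.H ((nest ops n fun _ => Q).X.prod Z)),
          F = fun r => pfA (rform W P.X (relPrimitive W f)) q a (fun j => s.uT (r j)) • w} := by
    have h3 : ∀ F ∈ Submodule.span W.K (GenT (rform W P.X (relPrimitive W f)) q (Free c₀)
        (W.H ((nest ops n fun _ => Q).X.prod Z))),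
        (fun r : Free c₀ → Fin s.NT => F fun j => s.uT (r j)) ∈
      Submodule.span W.K {F : (Free c₀ → Fin s.NT) → W.H ((nest ops n fun _ => Q).X.prod Z) |
        ∃ (a : AIx I (Free c₀)) (w : W.H ((nest ops n fun _ => Q).X.prod Z)),
          F = fun r => pfA (rform W P.X (relPrimitive W f)) q a (fun j => s.uT (r j)) • w} := by
      intro F hF
      induction hF using Submodule.span_induction with
      | mem F hF =>
        obtain ⟨m, e', k', w, rfl⟩ := hF
        exact Submodule.subset_span ⟨⟨m, e', k'⟩, w, rfl⟩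
      | zero => exact Submodule.zero_mem _
      | add F F' _ _ hF hF' => exact Submodule.add_mem _ hF hF'
      | smul x F _ hF => exact Submodule.smul_mem _ x hF
    exact h3 _ h1
  have h2 := hexp _ _ h1'
  set w : Fin N → W.H ((nest ops n fun _ => Q).X.prod Z) := fun l =>
    ∑ r, co l r • hS f z e b c c₀ (fun j => s.uT (r j)) with hw
  have h3 : ∑ r : Free c₀ → Fin s.NT,
      W.map (fst _ Z) (mono (prj ops n fun _ => P) fun p =>
        bx (fun i => (s.bT i : W.H P.X)) (comb c₀ r p)) *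
        W.map (powMap ops f n Z) (hS f z e b c c₀ fun j => s.uT (r j)) =
      ∑ l, W.map (fst _ Z) (∑ r : Free c₀ → Fin s.NT,
        pfA (rform W P.X (relPrimitive W f)) q (a l) (fun j => s.uT (r j)) •
          mono (prj ops n fun _ => P) fun p =>
            bx (fun i => (s.bT i : W.H P.X)) (comb c₀ r p)) *
        W.map (powMap ops f n Z) (w l) := by
    symm
    rw [Finset.sum_congr rfl fun l _ => by rw [map_sum, Finset.sum_mul], Finset.sum_comm]
    refine Finset.sum_congr rfl fun r _ => ?_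
    rw [h2 r, map_sum, Finset.mul_sum]
    refine Finset.sum_congr rfl fun l _ => ?_
    rw [map_smul, map_smul, mul_smul_comm, smul_mul_assoc]
  rw [h3, map_sum]
  refine Submodule.sum_mem _ fun l _ => ?_
  obtain ⟨ε, hε⟩ := pair_sum' (π := prj ops n fun _ => P) hmid (s := s) (a l).2.1
    (fun l' => q ((a l).2.2 l'))
  have hε' : ∑ r : Free c₀ → Fin s.NT,
      pfA (rform W P.X (relPrimitive W f)) q (a l) (fun j => s.uT (r j)) •
        (mono (prj ops n fun _ => P) fun p =>
          bx (fun i => (s.bT i : W.H P.X)) (comb c₀ r p)) = _ := hε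
  rw [hε']
  set m := (a l).1 with hm
  set x : W.H (nest ops n fun _ => P).X := (ε : W.K) • (List.ofFn fun l' : Fin m =>
    W.map (Obj.lift (prj ops n (fun _ => P) ((a l).2.1 (l', 0)).1)
      (prj ops n (fun _ => P) ((a l).2.1 (l', 1)).1)) (dK s (q ((a l).2.2 l')))).prod with hx
  have hxa : x ∈ algSpan W (nest ops n fun _ => P).X := by
    rw [hx, List.ofFn_eq_map]
    exact Submodule.smul_mem _ _ (list_alg _ _ fun l' _ => algSpan_map _ (hdK _))
  have hxg : x ∈ W.gr (nest ops n fun _ => P).X (2 * (P.X.dim * m)) := by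
    rw [hx, List.ofFn_eq_map]
    refine Submodule.smul_mem _ _ ?_
    have h4 := list_gr (W := W) (List.finRange m) (fun l' : Fin m =>
      W.map (Obj.lift (prj ops n (fun _ => P) ((a l).2.1 (l', 0)).1)
        (prj ops n (fun _ => P) ((a l).2.1 (l', 1)).1)) (dK s (q ((a l).2.2 l'))))
      (d := 2 * P.X.dim) fun l' _ => W.map_mem _ (dK_gr hmid _)
    rwa [List.length_finRange, mul_assoc] at h4
  rw [proj_mul (W.map_mem _ hxg)]
  by_cases hjl : 2 * (P.X.dim * m) ≤ 2 * j
  · rw [if_pos hjl, proj_map]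
    refine algSpan_mul (algSpan_map _ hxa) (algSpan_map _ ?_)
    have h5 : 2 * j - 2 * (P.X.dim * m) = 2 * (j - P.X.dim * m) := by omega
    rw [h5]
    refine Submodule.span_mono (Set.subset_iUnion _ _)
      (hT (j - P.X.dim * m) _ (proj_mem _ _ _) ⟨Δ, hΔ, fun g hg => ?_⟩)
    have hχ0 : (χ g : W.K) ≠ 0 := Units.ne_zero _
    rw [proj_act (hυ' g), ← map_smul]
    congr 1
    have h6 := coef_semi (fun l => pfA (rform W P.X (relPrimitive W f)) q (a l)) s.uT
      (h := hS f z e b c c₀) (a := co) ha h2 (ρ := rhoR hG hf g)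
      (σ := twist (Sec.lam χ P c₀ j) υ' g) (μ := fun l => ((χ g : W.K) ^ P.X.dim) ^ (a l).1)
      (fun l v => by
        refine pf_scale _ _ (fun l' x y => ?_) v
        rw [LinearMap.comp_apply, LinearMap.comp_apply, ← hBl.comm]
        exact hBl.act g _ _)
      (hS_eqv hb hG hG' hf hP hQ (hc g hg) (hzg g hg) c₀) l
    change twist (Sec.lam χ P c₀ j) υ' g (w l) = _ • w l at h6
    rw [twist_apply, Sec.lam_apply, card_free (a l).2.1] at h6
    rw [← hm] at h6
    have h7 : υ' g (w l) = ((χ g : W.K) ^ (j - P.X.dim * m)) • w l := by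
      have h8 : (χ g : W.K) ^ j = (χ g : W.K) ^ (j - P.X.dim * m) *
          ((χ g : W.K) ^ P.X.dim) ^ m := by
        rw [← pow_mul, ← pow_add]
        congr 1
        omega
      have h9 : (((χ g ^ j)⁻¹ * (χ g ^ P.X.dim) ^ (2 * m) : W.Kˣ) : W.K) =
          ((χ g : W.K) ^ (j - P.X.dim * m))⁻¹ * ((χ g : W.K) ^ P.X.dim) ^ m := by
        push_cast
        rw [h8, two_mul, pow_add]
        field_simp
      rw [h9, mul_comm, mul_smul] at h6
      have h10 := smul_right_injective _ (pow_ne_zero m (pow_ne_zero P.X.dim hχ0)) h6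
      conv_rhs => rw [← h10, smul_smul, mul_inv_cancel₀ (pow_ne_zero _ hχ0), one_smul]
    exact h7
  · rw [if_neg hjl]
    exact Submodule.zero_mem _

include hb hmid hz in
/-- **The Tate conjecture for powers of varieties over a base.** -/
theorem tate_blocks (hza : z ∈ algClasses W (P.X.prod Q.X) P.X.dim)
    (hG : IsGalois W χ P.X ρ) (hG' : IsGalois W χ Q.X ρ')
    {ω : Γ →* (W.H (P.X.prod Q.X) ≃ₐ[W.K] W.H (P.X.prod Q.X))}
    (hω : IsGalois W χ (P.X.prod Q.X) ω) (hω1 : Intertwines (W.map (fst P.X Q.X)) ρ ω)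
    (hω2 : Intertwines (W.map (snd P.X Q.X)) ρ' ω)
    (hf : Intertwines (W.map f) ρ' ρ) (hP : IsPowAct W P n Z ρ τ υ)
    (hQ : IsPowAct W Q n Z ρ' τ υ') (hυ' : ∀ g i, ∀ a ∈ W.gr _ i, υ' g a ∈ W.gr _ i)
    (hBl : Blocks (rform W P.X (relPrimitive W f)) ((-1) ^ P.X.dim) bar q (rhoR hG hf)
      (fun g => (χ g : W.K) ^ P.X.dim)) {g : Γ}
    {δ : I → relPrimitive W f} {cc : I → W.K}
    (hRf : Refl (rform W P.X (relPrimitive W f)) bar q (rhoR hG hf) g δ cc)
    (hχ : χ g = 1) (hυ : υ' g = 1) (hK : FewRoots W.K)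
    (hdim : ∀ i, n + 1 < Module.finrank W.K (blk q i))
    (hdK : ∀ i, dK s (q i) ∈ algSpan W (P.X.prod P.X))
    (hT : TateConj W χ ((nest ops n fun _ => Q).X.prod Z) υ') :
    TateConj W χ ((nest ops n fun _ => P).X.prod Z) υ := by
  obtain ⟨Δ', hΔ', hfix⟩ := hω.cl_fix _ z hza
  intro j c hcj ⟨Δ, hΔ, hc⟩
  refine algSpan_gr ?_ hcj
  have h1 := congrArg (proj (W.isInternal _) (2 * j)) (recon hb hmid hz s c)
  rw [proj_same _ hcj, map_sum] at h1
  rw [h1]
  refine Submodule.sum_mem _ fun c₀ _ => ?_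
  exact term_alg' hb hmid hz s hG hG' hf hP hQ hυ' hBl hRf hχ hυ hK hdim hdK hT
    (Δ := Δ ⊓ Δ') inferInstance (fun g hg => hc g hg.1)
    (fun g hg x => corr_act hG' hω hω1 hω2 (hfix g hg.2) x) c₀

end

end Pool.Agent.TH125.Cyc
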