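import Pool.Agent.TH125.Cyc.Ref
import Pool.Agent.TH125.Cyc.Bc

/-!
# The Lie algebra of the operators which kill all equivariant maps contains the special linear
# Lie algebras of the blocks
-/

open Finset Function

set_option linter.unusedSectionVars false

namespace Pool.Agent.TH125.Cyc

universe u v w x

open Pool.Agent.TH125.Gal

section general

variable {K : Type u} [Field K] [CharZero K] {V : Type v} [AddCommGroup V] [Module K V]

/-- components in eigenspaces -/
theorem eig_mem {ι : Type*} [DecidableEq ι] {N : Submodule K V} {A : V →ₗ[K] V}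
    (hA : ∀ x ∈ N, A x ∈ N) {m : ι → K} (s : Finset ι) (hm : Set.InjOn m s) :
    ∀ x : ι → V, (∀ k ∈ s, A (x k) = m k • x k) → ∑ k ∈ s, x k ∈ N → ∀ k ∈ s, x k ∈ N := by
  induction s using Finset.induction_on with
  | empty => exact fun x _ _ k hk => absurd hk (Finset.notMem_empty k)
  | insert a s ha ih =>
    intro x hx hsum
    have h1 : ∑ k ∈ s, (m k - m a) • x k ∈ N := by
      have h2 := Submodule.sub_mem _ (hA _ hsum) (Submodule.smul_mem _ (m a) hsum)
      rw [map_sum, Finset.smul_sum, ← Finset.sum_sub_distrib, Finset.sum_insert ha,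
        hx a (Finset.mem_insert_self a s), sub_self, zero_add] at h2
      convert h2 using 1
      refine Finset.sum_congr rfl fun k hk => ?_
      rw [hx k (Finset.mem_insert_of_mem hk), sub_smul]
    have h2 := ih (hm.mono (Finset.coe_subset.2 (Finset.subset_insert a s)))
      (fun k => (m k - m a) • x k) (fun k hk => by
        rw [map_smul, hx k (Finset.mem_insert_of_mem hk), smul_comm]) h1
    have h3 : ∀ k ∈ s, x k ∈ N := by
      intro k hk
      have h4 := Submodule.smul_mem _ (m k - m a)⁻¹ (h2 k hk)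
      have h5 : m k - m a ≠ 0 := by
        rw [sub_ne_zero]
        intro h6
        have h7 := hm (Finset.mem_coe.2 (Finset.mem_insert_of_mem hk))
          (Finset.mem_coe.2 (Finset.mem_insert_self a s)) h6
        exact ha (h7 ▸ hk)
      rwa [smul_smul, inv_mul_cancel₀ h5, one_smul] at h4
    intro k hk
    rcases Finset.mem_insert.1 hk with rfl | hk
    · rw [Finset.sum_insert ha] at hsum
      exact (Submodule.add_mem_iff_left _ (Submodule.sum_mem _ h3)).1 hsum
    · exact h3 k hk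

variable [Module.Finite K V] {G : Type x} [Group G] {ρ : G →* (V →ₗ[K] V)}

/-- **Irreducibility from one operator of rank one.** -/
theorem orbit_min (hSI : SI ρ) {𝓛 : Set (V →ₗ[K] V)}
    (h𝓛 : ∀ X ∈ 𝓛, ∀ γ, ρ γ ∘ₗ X ∘ₗ ρ γ⁻¹ ∈ 𝓛) {φ : V →ₗ[K] K} (hφ : φ ≠ 0) {z : V} (hz : z ≠ 0)
    (hmem : φ.smulRight z ∈ 𝓛) {U : Submodule K V} (hU : U ≠ ⊥)
    (hst : ∀ X ∈ 𝓛, ∀ x ∈ U, X x ∈ U) : U = ⊤ := by
  classical
  -- a stable subspace of minimal dimension
  have hex : ∃ n : ℕ, ∃ U : Submodule K V, U ≠ ⊥ ∧ (∀ X ∈ 𝓛, ∀ x ∈ U, X x ∈ U) ∧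
      Module.finrank K U = n := ⟨_, U, hU, hst, rfl⟩
  obtain ⟨U₀, hU₀, hst₀, hn⟩ := Nat.find_spec hex
  have hmin : ∀ U : Submodule K V, U ≠ ⊥ → (∀ X ∈ 𝓛, ∀ x ∈ U, X x ∈ U) →
      Module.finrank K U₀ ≤ Module.finrank K U := by
    intro U h1 h2
    rw [hn]
    exact Nat.find_min' hex ⟨U, h1, h2, rfl⟩
  have hfr : ∀ (γ : G) (U : Submodule K V), Module.finrank K (U.map (ρ γ)) =
      Module.finrank K U := fun γ U =>
    (LinearEquiv.finrank_eq (Submodule.equivMapOfInjective (ρ γ) (rho_injective γ) U)).symm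
  have hmapst : ∀ (γ : G) (U : Submodule K V), (∀ X ∈ 𝓛, ∀ x ∈ U, X x ∈ U) →
      ∀ X ∈ 𝓛, ∀ x ∈ U.map (ρ γ), X x ∈ U.map (ρ γ) := by
    rintro γ U h1 X hX _ ⟨x, hx, rfl⟩
    have h2 := h𝓛 X hX γ⁻¹
    rw [inv_inv] at h2
    refine ⟨_, h1 _ h2 x hx, ?_⟩
    change ρ γ (ρ γ⁻¹ (X (ρ γ x))) = _
    rw [rho_inv]
  -- a translate on which `φ` does not vanish
  have h1 : ∃ γ : G, ∃ x ∈ U₀, φ (ρ γ x) ≠ 0 := by
    by_contra hcon
    push Not at hcon
    rcases hSI ⊤ inferInstance (⨅ γ : G, LinearMap.ker (φ ∘ₗ ρ γ)) (fun n _ x hx => by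
      rw [Submodule.mem_iInf] at hx ⊢
      intro γ
      have h2 := hx (γ * n)
      rw [LinearMap.mem_ker, LinearMap.comp_apply] at h2 ⊢
      rw [rho_mul_apply] at h2
      exact h2) with h | h
    · apply hU₀
      rw [eq_bot_iff, ← h]
      intro x hx
      rw [Submodule.mem_iInf]
      intro γ
      exact hcon γ x hx
    · apply hφ
      apply LinearMap.ext
      intro x
      have h2 : x ∈ ⨅ γ : G, LinearMap.ker (φ ∘ₗ ρ γ) := by rw [h]; exact Submodule.mem_top
      rw [Submodule.mem_iInf] at h2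
      have h3 := h2 1
      rw [LinearMap.mem_ker, LinearMap.comp_apply, map_one] at h3
      exact h3
  obtain ⟨γ₀, x₀, hx₀, hφ₀⟩ := h1
  set U₁ := U₀.map (ρ γ₀) with hU₁
  have hst₁ := hmapst γ₀ U₀ hst₀
  have hz1 : ∀ (U : Submodule K V), (∀ X ∈ 𝓛, ∀ x ∈ U, X x ∈ U) → (∃ x ∈ U, φ x ≠ 0) → z ∈ U := by
    rintro U h2 ⟨x, hx, hφx⟩
    have h3 := h2 _ hmem x hx
    rw [LinearMap.smulRight_apply] at h3
    have h4 := Submodule.smul_mem _ (φ x)⁻¹ h3
    rwa [smul_smul, inv_mul_cancel₀ hφx, one_smul] at h4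
  have h2 : U₁ = ⊤ := by
    refine orbit_fun hSI (u := ρ γ₀ x₀) ⟨x₀, hx₀, rfl⟩ hφ₀ fun γ => ?_
    by_cases h3 : ∀ x ∈ U₁, φ (ρ γ x) = 0
    · exact Or.inr h3
    · left
      push Not at h3
      obtain ⟨x, hx, hφx⟩ := h3
      have hst₂ := hmapst γ U₁ hst₁
      have hz₁ := hz1 U₁ hst₁ ⟨_, ⟨x₀, hx₀, rfl⟩, hφ₀⟩
      have hz₂ := hz1 (U₁.map (ρ γ)) hst₂ ⟨_, ⟨x, hx, rfl⟩, hφx⟩
      have h4 : Module.finrank K U₀ ≤ Module.finrank K (U₁ ⊓ U₁.map (ρ γ) : Submodule K V) := by
        refine hmin _ ?_ ?_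
        · intro h5
          have h6 : z ∈ U₁ ⊓ U₁.map (ρ γ) := ⟨hz₁, hz₂⟩
          rw [h5, Submodule.mem_bot] at h6
          exact hz h6
        · intro X hX y hy
          exact ⟨hst₁ X hX y hy.1, hst₂ X hX y hy.2⟩
      have h5 : U₁ ⊓ U₁.map (ρ γ) = U₁.map (ρ γ) := by
        refine Submodule.eq_of_le_of_finrank_le inf_le_right ?_
        rw [hfr, hU₁, hfr]
        exact h4
      intro y hy
      have h6 : ρ γ y ∈ U₁.map (ρ γ) := ⟨y, hy, rfl⟩
      rw [← h5] at h6
      exact h6.1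
  have h3 : Module.finrank K U₀ = Module.finrank K V := by
    rw [← hfr γ₀ U₀, ← hU₁, h2, finrank_top]
  refine Submodule.eq_top_of_finrank_eq (le_antisymm (Submodule.finrank_le U) ?_)
  rw [← h3]
  exact hmin U hU hst

end general

variable {K : Type u} [Field K] [CharZero K] {T : Type v} [AddCommGroup T] [Module K T]
  {E : Type w} [AddCommGroup E] [Module K E] {S : Type} [Fintype S] [DecidableEq S]
  {G : Type x} [Group G] {B : T →ₗ[K] T →ₗ[K] K} {ρ : G →* (T →ₗ[K] T)} {σ : G →* (E →ₗ[K] E)}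
  {s : ℤ}

/-- the operator `x ↦ B b x • a - s B a x • b` -/
def ws (B : T →ₗ[K] T →ₗ[K] K) (s : ℤ) (a b : T) : T →ₗ[K] T := rk B b a - (s : K) • rk B a b

theorem ws_apply (a b x : T) : ws B s a b x = B b x • a - ((s : K) * B a x) • b := by
  rw [ws, LinearMap.sub_apply, LinearMap.smul_apply, rk_apply, rk_apply, smul_smul]

theorem ws_add_left (a a' b : T) : ws B s (a + a') b = ws B s a b + ws B s a' b := by
  apply LinearMap.ext
  intro x
  simp only [ws_apply, LinearMap.add_apply, map_add]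
  module

theorem ws_add_right (a b b' : T) : ws B s a (b + b') = ws B s a b + ws B s a b' := by
  apply LinearMap.ext
  intro x
  simp only [ws_apply, LinearMap.add_apply, map_add]
  module

theorem ws_smul_left (c : K) (a b : T) : ws B s (c • a) b = c • ws B s a b := by
  apply LinearMap.ext
  intro x
  simp only [ws_apply, LinearMap.smul_apply, map_smul, smul_eq_mul]
  module

theorem ws_smul_right (c : K) (a b : T) : ws B s a (c • b) = c • ws B s a b := by
  apply LinearMap.ext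
  intro x
  simp only [ws_apply, LinearMap.smul_apply, map_smul, smul_eq_mul]
  module

section

variable (hs : s = 1 ∨ s = -1) (hsy : ∀ x y, B x y = (s : K) * B y x)

theorem ss_one (hs : s = 1 ∨ s = -1) : (s : K) * s = 1 := by
  rcases hs with rfl | rfl <;> push_cast <;> ring

include hs in
theorem ws_swap (a b : T) : ws B s b a = -((s : K) • ws B s a b) := by
  apply LinearMap.ext
  intro x
  rw [LinearMap.neg_apply, LinearMap.smul_apply, ws_apply, ws_apply, smul_sub, smul_smul,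
    smul_smul, ← mul_assoc, ss_one hs, one_mul]
  abel

include hs hsy in
theorem ws_skew (a b : T) : Skew B (ws B s a b) := by
  intro x y
  rw [ws_apply, ws_apply, map_sub, map_sub, map_smul, map_smul, map_smul, map_smul,
    LinearMap.sub_apply, LinearMap.smul_apply, LinearMap.smul_apply, hsy x a, hsy x b]
  simp only [smul_eq_mul]
  linear_combination (-(B a y * B b x)) * ss_one (K := K) hs

include hs hsy in
/-- brackets with skew operators -/
theorem ws_bracket {A : T →ₗ[K] T} (hA : Skew B A) (a b : T) :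
    A ∘ₗ ws B s a b - ws B s a b ∘ₗ A = ws B s (A a) b + ws B s a (A b) := by
  apply LinearMap.ext
  intro x
  have h1 : B (A a) x = - B a (A x) := eq_neg_of_add_eq_zero_left (hA a x)
  have h2 : B (A b) x = - B b (A x) := eq_neg_of_add_eq_zero_left (hA b x)
  simp only [LinearMap.sub_apply, LinearMap.comp_apply, LinearMap.add_apply, ws_apply, map_sub,
    map_smul, h1, h2]
  module

/-- conjugation -/
theorem ws_conj {μ : G → K} (hμ : ∀ g, μ g ≠ 0)
    (hB : ∀ g x y, B (ρ g x) (ρ g y) = μ g * B x y) (γ : G) (a b : T) :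
    ρ γ ∘ₗ ws B s a b ∘ₗ ρ γ⁻¹ = (μ γ)⁻¹ • ws B s (ρ γ a) (ρ γ b) := by
  apply LinearMap.ext
  intro x
  have h1 : ∀ a, B a (ρ γ⁻¹ x) = (μ γ)⁻¹ * B (ρ γ a) x := by
    intro a
    have h2 := hB γ a (ρ γ⁻¹ x)
    rw [rho_inv] at h2
    rw [h2, ← mul_assoc, inv_mul_cancel₀ (hμ γ), one_mul]
  rw [LinearMap.comp_apply, LinearMap.comp_apply, LinearMap.smul_apply, ws_apply, ws_apply,
    map_sub, map_smul, map_smul, h1, h1]
  module

end

end Pool.Agent.TH125.Cyc
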