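import Pool.Agent.TH125.Cyc.Lie
import Pool.Agent.TH125.Gal.Pub

/-!
# Blocks and pseudoreflections: operators which kill all equivariant maps
-/

open Finset Function

set_option linter.unusedSectionVars false

namespace Pool.Agent.TH125.Cyc

universe u v w x

open Pool.Agent.TH125.Gal

variable {K : Type u} [Field K] [CharZero K] {T : Type v} [AddCommGroup T] [Module K T]
  {I : Type} [Fintype I] [DecidableEq I] {G : Type x} [Group G]

/-- A representation with an invariant form and a decomposition in strongly irreducible blocks which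
are dual in pairs. -/
structure Blocks (B : T →ₗ[K] T →ₗ[K] K) (s : ℤ) (bar : I → I) (q : I → (T →ₗ[K] T))
    (ρ : G →* (T →ₗ[K] T)) (μ : G → K) : Prop where
  hs : s = 1 ∨ s = -1
  symm : ∀ x y, B x y = (s : K) * B y x
  nondeg : ∀ x, (∀ y, B x y = 0) → x = 0
  bar_bar : ∀ i, bar (bar i) = i
  bar_ne : ∀ i, bar i ≠ i
  idem : ∀ i x, q i (q i x) = q i x
  orth : ∀ i j, i ≠ j → ∀ x, q i (q j x) = 0
  total : ∀ x, ∑ i, q i x = x
  adj : ∀ i x y, B (q i x) y = B x (q (bar i) y)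
  comm : ∀ γ i x, ρ γ (q i x) = q i (ρ γ x)
  mu_ne : ∀ γ, μ γ ≠ 0
  act : ∀ γ x y, B (ρ γ x) (ρ γ y) = μ γ * B x y
  irr : ∀ i, ∀ Δ : Subgroup G, Δ.FiniteIndex → ∀ U : Submodule K T,
    (∀ x ∈ U, q i x = x) → (∀ g ∈ Δ, ∀ x ∈ U, ρ g x ∈ U) → U = ⊥ ∨ ∀ x, q i x ∈ U

/-- A pseudoreflection on every block. -/
structure Refl (B : T →ₗ[K] T →ₗ[K] K) (bar : I → I) (q : I → (T →ₗ[K] T))
    (ρ : G →* (T →ₗ[K] T)) (g : G) (δ : I → T) (c : I → K) : Prop where
  mem : ∀ i, q i (δ i) = δ i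
  act : ∀ i x, q i x = x → ρ g x = x + (c i * B (δ (bar i)) x) • δ i
  ne : ∀ i, 1 + c i * B (δ (bar i)) (δ i) ≠ 1
  inj : Injective fun i => 1 + c i * B (δ (bar i)) (δ i)

/-- polynomial relations -/
theorem plane_rel {H : T →ₗ[K] T} {δ δ' x : T} {a b l u w : K} (hl : l ≠ 0)
    (hx : H x = x + a • δ + b • δ')
    (hδ : H δ = (l - l⁻¹ * (u * w)) • δ - (l⁻¹ * w) • δ')
    (hδ' : H δ' = (l⁻¹ * u) • δ + l⁻¹ • δ') :
    ((H - 1) * (H * H - (l + l⁻¹ - l⁻¹ * (u * w)) • H + 1)) x = 0 := by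
  have h1 : Commute (H - 1) (H * H - (l + l⁻¹ - l⁻¹ * (u * w)) • H + 1) := by
    have h2 : Commute H (H * H - (l + l⁻¹ - l⁻¹ * (u * w)) • H + 1) :=
      (((Commute.refl H).mul_right (Commute.refl H)).sub_right
        ((Commute.refl H).smul_right _)).add_right (Commute.one_right H)
    exact h2.sub_left (Commute.one_left _)
  have h2 : (H - 1) x = a • δ + b • δ' := by
    rw [LinearMap.sub_apply, hx, Module.End.one_apply]
    abel
  rw [h1.eq, Module.End.mul_apply, h2]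
  simp only [LinearMap.add_apply, LinearMap.sub_apply, LinearMap.smul_apply, Module.End.mul_apply,
    Module.End.one_apply, map_add, map_sub, map_smul, hδ, hδ']
  match_scalars <;> field_simp <;> ring

namespace Blocks

variable {B : T →ₗ[K] T →ₗ[K] K} {s : ℤ} {bar : I → I} {q : I → (T →ₗ[K] T)}
  {ρ : G →* (T →ₗ[K] T)} {μ : G → K} (h : Blocks B s bar q ρ μ)

include h

theorem zero_of {i j : I} {x y : T} (hx : q i x = x) (hy : q j y = y) (hij : j ≠ bar i) :
    B x y = 0 := by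
  rw [← hx, h.adj, ← hy, h.orth _ _ (Ne.symm hij), map_zero]

theorem ss : (s : K) * s = 1 := ss_one h.hs

theorem q_of {i j : I} {x : T} (hx : q i x = x) (hij : j ≠ i) : q j x = 0 := by
  rw [← hx, h.orth _ _ hij]

/-- operators which commute with the projections -/
theorem ws_q {i : I} {a b : T} (ha : q (bar i) a = a) (hb : q i b = b) (j : I) :
    ws B s a b ∘ₗ q j = q j ∘ₗ ws B s a b := by
  apply LinearMap.ext
  intro x
  rw [LinearMap.comp_apply, LinearMap.comp_apply, ws_apply, ws_apply, map_sub, map_smul, map_smul]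
  have e : ∀ y, B y (q j x) = B (q (bar j) y) x := by
    intro y
    rw [h.adj, h.bar_bar]
  rw [e, e]
  by_cases h1 : j = i
  · subst h1
    rw [ha, hb, h.q_of hb (h.bar_ne j), h.q_of ha (h.bar_ne j).symm]
    simp
  · by_cases h2 : j = bar i
    · subst h2
      rw [h.bar_bar, ha, hb, h.q_of ha (h.bar_ne i).symm, h.q_of hb (h.bar_ne i)]
      simp
    · have h3 : bar j ≠ i := by
        rintro rfl
        exact h2 (h.bar_bar j).symm
      have h4 : bar j ≠ bar i := by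
        intro h5
        apply h1
        rw [← h.bar_bar j, h5, h.bar_bar]
      rw [h.q_of hb h3, h.q_of ha h4, h.q_of ha h2, h.q_of hb h1]
      simp

end Blocks

/-- the restriction of a representation -/
def resR (ρ : G →* (T →ₗ[K] T)) (N : Submodule K T) (hN : ∀ g, ∀ x ∈ N, ρ g x ∈ N) :
    G →* (N →ₗ[K] N) where
  toFun g := (ρ g).restrict (hN g)
  map_one' := by
    apply LinearMap.ext
    intro x
    apply Subtype.ext
    change ρ 1 (x : T) = x
    rw [map_one]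
    rfl
  map_mul' g g' := by
    apply LinearMap.ext
    intro x
    apply Subtype.ext
    change ρ (g * g') (x : T) = ρ g (ρ g' (x : T))
    rw [map_mul]
    rfl

theorem resR_apply {ρ : G →* (T →ₗ[K] T)} {N : Submodule K T} (hN : ∀ g, ∀ x ∈ N, ρ g x ∈ N)
    (g : G) (x : N) : (resR ρ N hN g x : T) = ρ g x := rfl

/-- the block -/
def blk (q : I → (T →ₗ[K] T)) (i : I) : Submodule K T := LinearMap.range (q i)

section

variable {B : T →ₗ[K] T →ₗ[K] K} {s : ℤ} {bar : I → I} {q : I → (T →ₗ[K] T)}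
  {ρ : G →* (T →ₗ[K] T)} {μ : G → K} (h : Blocks B s bar q ρ μ)

include h

theorem mem_blk {i : I} {x : T} : x ∈ blk q i ↔ q i x = x := by
  constructor
  · rintro ⟨y, rfl⟩
    exact h.idem i y
  · intro hx
    exact ⟨x, hx⟩

theorem blk_stable (i : I) (γ : G) : ∀ x ∈ blk q i, ρ γ x ∈ blk q i := by
  intro x hx
  rw [mem_blk h] at hx ⊢
  rw [← h.comm, hx]

theorem blk_SI (i : I) : SI (resR ρ (blk q i) (blk_stable h i)) := by
  intro Δ hΔ U hU
  rcases h.irr i Δ hΔ (U.map (blk q i).subtype) (by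
      rintro _ ⟨x, _, rfl⟩
      exact (mem_blk h).1 x.2) (by
      rintro γ hγ _ ⟨x, hx, rfl⟩
      exact ⟨_, hU γ hγ x hx, rfl⟩) with h1 | h1
  · left
    rw [eq_bot_iff]
    intro x hx
    have h2 : (x : T) ∈ U.map (blk q i).subtype := ⟨x, hx, rfl⟩
    rw [h1, Submodule.mem_bot] at h2
    exact (Submodule.mem_bot _).2 (Subtype.ext h2)
  · right
    rw [eq_top_iff]
    intro x _
    have h2 := h1 x
    rw [(mem_blk h).1 x.2] at h2
    obtain ⟨y, hy, hyx⟩ := h2
    have h3 : y = x := Subtype.ext hyx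
    rwa [h3] at hy

end

section

variable {B : T →ₗ[K] T →ₗ[K] K} {s : ℤ} {bar : I → I} {q : I → (T →ₗ[K] T)}
  {ρ : G →* (T →ₗ[K] T)} {μ : G → K} (h : Blocks B s bar q ρ μ) {g : G} {δ : I → T} {c : I → K}
  (hr : Refl B bar q ρ g δ c) (hμ : μ g = 1)

/-- the eigenvalue -/
def lam (B : T →ₗ[K] T →ₗ[K] K) (bar : I → I) (δ : I → T) (c : I → K) (i : I) : K :=
  1 + c i * B (δ (bar i)) (δ i)

include hr in
theorem act_delta (i : I) : ρ g (δ i) = lam B bar δ c i • δ i := by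
  rw [hr.act i _ (hr.mem i), lam, add_smul, one_smul]

include hr in
theorem pair_ne (i : I) : B (δ (bar i)) (δ i) ≠ 0 := by
  intro h1
  apply hr.ne i
  rw [h1, mul_zero, add_zero]

include hr in
theorem delta_ne (i : I) : δ i ≠ 0 := by
  intro h1
  apply pair_ne hr i
  rw [h1, map_zero]

include hr in
theorem c_ne (i : I) : c i ≠ 0 := by
  intro h1
  apply hr.ne i
  rw [h1, zero_mul, add_zero]

include h hr hμ in
theorem lam_mul (i : I) : lam B bar δ c i * lam B bar δ c (bar i) = 1 := by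
  have h1 := h.act g (δ (bar i)) (δ i)
  rw [hμ, one_mul, act_delta hr, act_delta hr, map_smul, map_smul, LinearMap.smul_apply,
    smul_eq_mul, smul_eq_mul] at h1
  have h2 := pair_ne hr i
  have h3 : (lam B bar δ c i * lam B bar δ c (bar i) - 1) * B (δ (bar i)) (δ i) = 0 := by
    linear_combination h1
  exact sub_eq_zero.1 ((mul_eq_zero.1 h3).resolve_right h2)

include h hr hμ in
theorem lam_ne_zero (i : I) : lam B bar δ c i ≠ 0 := by
  intro h1
  have h2 := lam_mul h hr hμ i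
  rw [h1, zero_mul] at h2
  exact zero_ne_one h2

include h hr hμ in
theorem c_bar (i : I) : (s : K) * c (bar i) * lam B bar δ c i = - c i := by
  have h1 := lam_mul h hr hμ i
  have h2 := pair_ne hr i
  have h3 : B (δ i) (δ (bar i)) = (s : K) * B (δ (bar i)) (δ i) := h.symm _ _
  have h4 : ((s : K) * c (bar i) * lam B bar δ c i + c i) * B (δ (bar i)) (δ i) = 0 := by
    rw [lam, lam, h.bar_bar, h3] at h1
    rw [lam]
    linear_combination h1
  exact eq_neg_of_add_eq_zero_left ((mul_eq_zero.1 h4).resolve_right h2)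

include h hr hμ in
theorem lam_sq_ne (i : I) : lam B bar δ c i * lam B bar δ c i ≠ 1 := by
  intro h1
  have h2 := lam_mul h hr hμ i
  have h3 : lam B bar δ c i = lam B bar δ c (bar i) :=
    mul_left_cancel₀ (lam_ne_zero h hr hμ i) (h1.trans h2.symm)
  exact h.bar_ne i (hr.inj h3).symm

/-- the functional -/
noncomputable def fn (B : T →ₗ[K] T →ₗ[K] K) (bar : I → I) (δ : I → T) (c : I → K) (i : I) :
    T →ₗ[K] K := c i • B (δ (bar i))

theorem fn_apply (i : I) (x : T) : fn B bar δ c i x = c i * B (δ (bar i)) x := rfl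

/-- the values on pairs -/
noncomputable def cvT (B : T →ₗ[K] T →ₗ[K] K) (bar : I → I) (ρ : G →* (T →ₗ[K] T)) (δ : I → T)
    (c : I → K) (γ : G) (i : I) : K :=
  fn B bar δ c i (ρ γ (δ i)) * fn B bar δ c i (ρ γ⁻¹ (δ i))

/-- the traces -/
noncomputable def yv (B : T →ₗ[K] T →ₗ[K] K) (bar : I → I) (ρ : G →* (T →ₗ[K] T)) (δ : I → T)
    (c : I → K) (γ : G) (i : I) : K :=
  lam B bar δ c i + (lam B bar δ c i)⁻¹ - (lam B bar δ c i)⁻¹ * cvT B bar ρ δ c γ i

include h hr hμ in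
theorem yv_bar (γ : G) (i : I) : yv B bar ρ δ c γ (bar i) = yv B bar ρ δ c γ i := by
  have h1 := lam_mul h hr hμ i
  have h2 := c_bar h hr hμ i
  have h0 := lam_ne_zero h hr hμ i
  have h3 : lam B bar δ c (bar i) = (lam B bar δ c i)⁻¹ := eq_inv_of_mul_eq_one_right h1
  have h4 : c (bar i) = -((s : K) * c i * (lam B bar δ c i)⁻¹) := by
    have h5 : c (bar i) * lam B bar δ c i = -((s : K) * c i) := by
      linear_combination (s : K) * h2 - (c (bar i) * lam B bar δ c i) * h.ss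
    field_simp
    linear_combination h5
  have e1 : B (δ i) (ρ γ (δ (bar i))) = μ γ * ((s : K) * B (δ (bar i)) (ρ γ⁻¹ (δ i))) := by
    have h5 := h.act γ (ρ γ⁻¹ (δ i)) (δ (bar i))
    rw [rho_inv, h.symm (ρ γ⁻¹ (δ i))] at h5
    exact h5
  have e2 : μ γ * B (δ i) (ρ γ⁻¹ (δ (bar i))) = (s : K) * B (δ (bar i)) (ρ γ (δ i)) := by
    have h5 := h.act γ (δ i) (ρ γ⁻¹ (δ (bar i)))
    rw [rho_inv, h.symm (ρ γ (δ i))] at h5
    exact h5.symm
  have e3 : B (δ i) (ρ γ (δ (bar i))) * B (δ i) (ρ γ⁻¹ (δ (bar i))) =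
      B (δ (bar i)) (ρ γ (δ i)) * B (δ (bar i)) (ρ γ⁻¹ (δ i)) := by
    rw [e1]
    linear_combination ((s : K) * B (δ (bar i)) (ρ γ⁻¹ (δ i))) * e2 +
      (B (δ (bar i)) (ρ γ (δ i)) * B (δ (bar i)) (ρ γ⁻¹ (δ i))) * h.ss
  have e4 : cvT B bar ρ δ c γ (bar i) =
      (lam B bar δ c i)⁻¹ * (lam B bar δ c i)⁻¹ * cvT B bar ρ δ c γ i := by
    rw [cvT, cvT, fn_apply, fn_apply, fn_apply, fn_apply, h.bar_bar, h4]
    linear_combination (c i * c i * (lam B bar δ c i)⁻¹ * (lam B bar δ c i)⁻¹) * e3 +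
      ((B (δ i) (ρ γ (δ (bar i))) * B (δ i) (ρ γ⁻¹ (δ (bar i)))) *
        (c i * c i * (lam B bar δ c i)⁻¹ * (lam B bar δ c i)⁻¹)) * h.ss
  rw [yv, yv, h3, e4, inv_inv]
  field_simp
  ring

include h in
theorem q_act {i : I} {x : T} (hx : q i x = x) (γ : G) : q i (ρ γ x) = ρ γ x := by
  rw [← h.comm, hx]

include h hr hμ in
theorem act_inv_T {i : I} {x : T} (hx : q i x = x) :
    ρ g⁻¹ x = x - ((lam B bar δ c i)⁻¹ * fn B bar δ c i x) • δ i := by
  have h0 := lam_ne_zero h hr hμ i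
  have h1 : ρ g (x - ((lam B bar δ c i)⁻¹ * fn B bar δ c i x) • δ i) = x := by
    have h2 : (lam B bar δ c i)⁻¹ * fn B bar δ c i x * lam B bar δ c i = fn B bar δ c i x := by
      field_simp
    rw [map_sub, map_smul, act_delta hr, hr.act i x hx, smul_smul, h2, fn_apply]
    abel
  conv_lhs => rw [← h1]
  rw [rho_inv']

include h hr hμ in
theorem act_comm (γ : G) {i : I} {x : T} (hx : q i x = x) :
    ρ (g * γ * g⁻¹ * γ⁻¹) x = x + (fn B bar δ c i x - (lam B bar δ c i)⁻¹ *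
      fn B bar δ c i (ρ γ⁻¹ x) * fn B bar δ c i (ρ γ (δ i))) • δ i +
      (-((lam B bar δ c i)⁻¹ * fn B bar δ c i (ρ γ⁻¹ x))) • ρ γ (δ i) := by
  rw [rho_mul_apply, rho_mul_apply, rho_mul_apply, act_inv_T h hr hμ (q_act h hx γ⁻¹), map_sub,
    map_smul, rho_inv, map_sub, map_smul, hr.act i x hx, hr.act i _ (q_act h (hr.mem i) γ)]
  rw [← fn_apply, ← fn_apply]
  module

include h hr hμ in
theorem act_comm_inv (γ : G) (i : I) :
    ρ (g * γ * g⁻¹ * γ⁻¹)⁻¹ (δ i) = (lam B bar δ c i)⁻¹ • δ i +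
      ((lam B bar δ c i)⁻¹ * fn B bar δ c i (ρ γ⁻¹ (δ i))) • ρ γ (δ i) := by
  have h0 := lam_ne_zero h hr hμ i
  have h1 : (g * γ * g⁻¹ * γ⁻¹)⁻¹ = γ * g * γ⁻¹ * g⁻¹ := by group
  have h2 : ρ g⁻¹ (δ i) = (lam B bar δ c i)⁻¹ • δ i := by
    conv_rhs => rw [← rho_inv' ρ g (δ i), act_delta hr, map_smul, smul_smul, inv_mul_cancel₀ h0,
      one_smul]
  rw [h1, rho_mul_apply, rho_mul_apply, rho_mul_apply, h2, map_smul, map_smul,
    hr.act i _ (q_act h (hr.mem i) γ⁻¹), map_smul, map_add, rho_inv, map_smul, ← fn_apply]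
  module

include h hr hμ in
theorem rel_comm (γ : G) (j : I) :
    (ρ (g * γ * g⁻¹ * γ⁻¹) - 1) * (ρ (g * γ * g⁻¹ * γ⁻¹) * ρ (g * γ * g⁻¹ * γ⁻¹) -
      yv B bar ρ δ c γ j • ρ (g * γ * g⁻¹ * γ⁻¹) + 1) * q j = 0 := by
  have h0 := lam_ne_zero h hr hμ j
  apply LinearMap.ext
  intro x
  rw [Module.End.mul_apply, LinearMap.zero_apply, yv, cvT]
  refine plane_rel (δ := δ j) (δ' := ρ γ (δ j)) h0 (act_comm h hr hμ γ (h.idem j x)) ?_ ?_
  · rw [act_comm h hr hμ γ (hr.mem j)]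
    have h1 : fn B bar δ c j (δ j) = lam B bar δ c j - 1 := by
      rw [fn_apply, lam]
      ring
    rw [h1]
    match_scalars <;> field_simp <;> ring
  · rw [act_comm h hr hμ γ (q_act h (hr.mem j) γ), rho_inv']
    have h1 : fn B bar δ c j (δ j) = lam B bar δ c j - 1 := by
      rw [fn_apply, lam]
      ring
    rw [h1]
    match_scalars
    · field_simp
      ring
    · field_simp
      ring

end

/-- the eigenvalues -/
theorem exists_zf (L : Type w) [Field L] [CharZero L] [IsAlgClosed L] [Algebra K L] :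
    ∃ zf : K → Lˣ, ∀ y, (zf y : L) + ((zf y)⁻¹ : Lˣ) = algebraMap K L y := by
  have h1 : ∀ y : K, ∃ z : Lˣ, (z : L) + (z⁻¹ : Lˣ) = algebraMap K L y := by
    intro y
    obtain ⟨r, hr⟩ := IsAlgClosed.exists_pow_nat_eq (algebraMap K L y * algebraMap K L y - 4)
      (n := 2) (by norm_num)
    have h2 : ((algebraMap K L y + r) / 2) * ((algebraMap K L y - r) / 2) = 1 := by
      field_simp
      linear_combination -hr
    refine ⟨⟨_, _, h2, by rw [mul_comm]; exact h2⟩, ?_⟩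
    change (algebraMap K L y + r) / 2 + (algebraMap K L y - r) / 2 = _
    ring
  choose zf hzf using h1
  exact ⟨zf, hzf⟩

section

variable {B : T →ₗ[K] T →ₗ[K] K} {s : ℤ} {bar : I → I} {q : I → (T →ₗ[K] T)}
  {ρ : G →* (T →ₗ[K] T)} {μ : G → K} (h : Blocks B s bar q ρ μ) {g : G} {δ : I → T} {c : I → K}
  (hr : Refl B bar q ρ g δ c) (hμ : μ g = 1) {E : Type w} [AddCommGroup E] [Module K E]
  {σ : G →* (E →ₗ[K] E)} (hσ : σ g = 1) {S : Type} [Fintype S] [DecidableEq S]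
  [Module.Finite K T]

include h hr hμ hσ in
/-- **An operator which does not preserve the line.** -/
theorem exists_elt (hK : FewRoots K) (hmul : ∀ γ γ', μ (γ * γ') = μ γ * μ γ') (i : I)
    (hi : 2 ≤ Module.finrank K (blk q i)) :
    ∃ X ∈ LL S B ρ σ, (∀ j, X ∘ₗ q j = q j ∘ₗ X) ∧ ∀ t : K, X (δ i) ≠ t • δ i := by
  have h0 := lam_ne_zero h hr hμ i
  have hlam : fn B bar δ c i (δ i) = lam B bar δ c i - 1 := by
    rw [fn_apply, lam]
    ring
  have hlam' : 1 + fn B bar δ c i (δ i) = lam B bar δ c i := by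
    rw [hlam]
    ring
  -- the element of the group
  set Few : Set K := {y : K | ∃ ζ : AlgebraicClosure K, (∃ m ≥ 1, ζ ^ m = 1) ∧
    algebraMap K (AlgebraicClosure K) y = ζ + ζ⁻¹} with hFew
  set l := lam B bar δ c i with hl
  have hfin : ({0, (l - 1) * (l - 1)} ∪ (fun x : K => l + l⁻¹ - l⁻¹ * x) ⁻¹' Few : Set K).Finite := by
    refine (Set.toFinite _).union (Set.Finite.preimage ?_ hK)
    intro x _ y _ hxy
    have h1 : l⁻¹ * x = l⁻¹ * y := sub_right_injective hxy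
    exact mul_left_cancel₀ (inv_ne_zero h0) h1
  obtain ⟨γ, hγ⟩ := exists_cv (ρ := resR ρ (blk q i) (blk_stable h i))
    (δ := (⟨δ i, (mem_blk h).2 (hr.mem i)⟩ : blk q i))
    (φ := fn B bar δ c i ∘ₗ (blk q i).subtype) (g := g)
    (fun x => Subtype.ext (hr.act i x ((mem_blk h).1 x.2))) (blk_SI h i) hi
    (by
      rw [LinearMap.comp_apply, Submodule.subtype_apply, hlam']
      exact h0)
    (by
      rw [LinearMap.comp_apply, Submodule.subtype_apply, hlam']
      exact lam_sq_ne h hr hμ i) hfin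
  have hγ' : cvT B bar ρ δ c γ i ∉
      ({0, (l - 1) * (l - 1)} ∪ (fun x : K => l + l⁻¹ - l⁻¹ * x) ⁻¹' Few : Set K) := hγ
  have hc0 : cvT B bar ρ δ c γ i ≠ 0 := fun h1 => hγ' (Or.inl (Or.inl h1))
  have hc1 : cvT B bar ρ δ c γ i ≠ (l - 1) * (l - 1) := fun h1 => hγ' (Or.inl (Or.inr h1))
  have hc2 : yv B bar ρ δ c γ i ∉ Few := fun h1 => hγ' (Or.inr h1)
  set k := g * γ * g⁻¹ * γ⁻¹ with hk
  have hμ1 : μ 1 = 1 := by
    have h1 := hmul 1 1
    rw [mul_one] at h1
    exact (mul_eq_left₀ (h.mu_ne 1)).1 h1.symm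
  have hμi : ∀ γ, μ γ * μ γ⁻¹ = 1 := by
    intro γ
    rw [← hmul, mul_inv_cancel, hμ1]
  have hμk : μ k = 1 := by
    rw [hk, hmul, hmul, hmul, hμ, one_mul]
    have h1 := hμi g
    rw [hμ, one_mul] at h1
    rw [h1, mul_one]
    exact hμi γ
  have hσk : σ k = 1 := by
    rw [hk, map_mul, map_mul, map_mul, hσ, one_mul]
    have h1 : σ g⁻¹ = 1 := by
      have h2 : σ g * σ g⁻¹ = 1 := by rw [← map_mul, mul_inv_cancel, map_one]
      rwa [hσ, one_mul] at h2
    rw [h1, mul_one, ← map_mul, mul_inv_cancel, map_one]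
  -- the eigenvalues
  obtain ⟨zf, hzf⟩ := exists_zf (K := K) (AlgebraicClosure K)
  set z : I → (AlgebraicClosure K)ˣ := fun j => zf (yv B bar ρ δ c γ j) with hz
  have hzn : ∀ n : ℕ, 1 ≤ n → z i ^ n ≠ 1 := by
    intro n hn h1
    apply hc2
    refine ⟨z i, ⟨n, hn, ?_⟩, ?_⟩
    · have h2 := congrArg Units.val h1
      push_cast at h2
      exact h2
    · rw [← hzf, hz, Units.val_inv_eq_inv_val]
  obtain ⟨a, ha⟩ := exists_additive hzn
  have hkp : kp a (z i) ≠ 0 := by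
    rw [kp, if_neg ha]
    refine div_ne_zero ?_ (kp_ne ha)
    exact_mod_cast ha
  obtain ⟨θ, hθ⟩ : ∃ θ : AlgebraicClosure K →ₗ[K] K, θ (kp a (z i)) ≠ 0 := by
    by_contra hcon
    push Not at hcon
    exact hkp ((Module.forall_dual_apply_eq_zero_iff K _).1 hcon)
  set X : T →ₗ[K] T := ∑ j, θ (kp a (z j)) • ((ρ k - ρ k⁻¹) * q j) with hX
  have hXq : ∀ j x, q j x = x → X x = θ (kp a (z j)) • (ρ k x - ρ k⁻¹ x) := by
    intro j x hx
    rw [hX, LinearMap.sum_apply, Finset.sum_eq_single j]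
    · rw [LinearMap.smul_apply, Module.End.mul_apply, hx, LinearMap.sub_apply]
    · intro j' _ hj
      rw [LinearMap.smul_apply, Module.End.mul_apply, h.q_of hx hj, map_zero, smul_zero]
    · intro h1
      exact absurd (Finset.mem_univ _) h1
  have hcomm : ∀ j x, X (q j x) = q j (X x) := by
    intro j x
    conv_rhs => rw [← h.total x]
    rw [map_sum, map_sum, Finset.sum_eq_single j]
    · rw [hXq j _ (h.idem j x), map_smul, map_sub, ← h.comm, ← h.comm, h.idem]
    · intro j' _ hj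
      rw [hXq j' _ (h.idem j' x), map_smul, map_sub, ← h.comm, ← h.comm, h.orth _ _ hj.symm,
        map_zero, map_zero, sub_zero, smul_zero]
    · intro h1
      exact absurd (Finset.mem_univ _) h1
  refine ⟨X, ⟨?_, ?_⟩, fun j => LinearMap.ext fun x => hcomm j x, ?_⟩
  · -- skew
    have hadj : ∀ x y, B (ρ k x - ρ k⁻¹ x) y = - B x (ρ k y - ρ k⁻¹ y) := by
      intro x y
      have h1 := h.act k x (ρ k⁻¹ y)
      have h2 := h.act k (ρ k⁻¹ x) y
      rw [rho_inv, hμk, one_mul] at h1 h2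
      rw [map_sub, LinearMap.sub_apply, h1, ← h2, map_sub]
      ring
    intro x y
    have h1 : ∀ j, B (X (q j x)) y = - B (q j x) (X y) := by
      intro j
      rw [hXq j _ (h.idem j x), map_smul, LinearMap.smul_apply, hadj, smul_eq_mul]
      have h2 : B (q j x) (X y) = B (q j x) (X (q (bar j) y)) := by
        rw [hcomm, ← h.adj, h.idem]
      have h3 : kp a (z (bar j)) = kp a (z j) := by
        rw [hz]
        beta_reduce
        rw [yv_bar h hr hμ]
      have h4 : B (q j x) (ρ k y - ρ k⁻¹ y) =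
          B (q j x) (ρ k (q (bar j) y) - ρ k⁻¹ (q (bar j) y)) := by
        rw [h.comm, h.comm, ← map_sub, ← h.adj, h.idem]
      rw [h2, hXq (bar j) _ (h.idem (bar j) y), h3, map_smul, smul_eq_mul, h4]
      ring
    have h2 : B (X x) y = ∑ j, B (X (q j x)) y := by
      conv_lhs => rw [← h.total x]
      rw [map_sum, map_sum, LinearMap.sum_apply]
    have h3 : B x (X y) = ∑ j, B (q j x) (X y) := by
      conv_lhs => rw [← h.total x]
      rw [map_sum, LinearMap.sum_apply]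
    rw [h2, h3, ← Finset.sum_add_distrib]
    refine Finset.sum_eq_zero fun j _ => ?_
    rw [h1, neg_add_cancel]
  · -- killing
    rintro f ⟨Δ, hΔ, hf⟩
    obtain ⟨m, hm, hkm⟩ := exists_pow hΔ k
    refine torus_kill (H := ρ k) (H' := ρ k⁻¹) (y := yv B bar ρ δ c γ) ?_ ?_ ?_ ?_ ?_
      (fun j => hzf _) a θ (Nat.succ_le_of_lt hm) ?_
    · rw [← map_mul, mul_inv_cancel, map_one]
    · rw [← map_mul, inv_mul_cancel, map_one]
    · intro j
      apply LinearMap.ext
      intro x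
      exact (h.comm k j x).symm
    · apply LinearMap.ext
      intro x
      rw [LinearMap.sum_apply, h.total]
      rfl
    · exact fun j => rel_comm h hr hμ γ j
    · intro v
      have h1 := hf _ hkm v
      rw [map_pow, map_pow, hσk, one_pow] at h1
      exact h1
  · -- the line
    intro t ht
    rw [hXq i _ (hr.mem i), act_comm h hr hμ γ (hr.mem i), act_comm_inv h hr hμ γ i, hlam] at ht
    set w := fn B bar δ c i (ρ γ⁻¹ (δ i)) with hw
    set u := fn B bar δ c i (ρ γ (δ i)) with hu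
    have hcuw : cvT B bar ρ δ c γ i = u * w := rfl
    have hw0 : w ≠ 0 := by
      intro h1
      apply hc0
      rw [hcuw, h1, mul_zero]
    have h1 : (2 * (θ (kp a (z i)) * (l⁻¹ * w))) • ρ γ (δ i) =
        (θ (kp a (z i)) * (1 + (l - 1 - l⁻¹ * w * u) - l⁻¹) - t) • δ i := by
      rw [sub_smul, ← ht]
      module
    have h2 : (2 * (θ (kp a (z i)) * (l⁻¹ * w))) ≠ 0 :=
      mul_ne_zero two_ne_zero (mul_ne_zero hθ (mul_ne_zero (inv_ne_zero h0) hw0))
    obtain ⟨e, he⟩ : ∃ e : K, ρ γ (δ i) = e • δ i := by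
      refine ⟨(2 * (θ (kp a (z i)) * (l⁻¹ * w)))⁻¹ *
        (θ (kp a (z i)) * (1 + (l - 1 - l⁻¹ * w * u) - l⁻¹) - t), ?_⟩
      rw [mul_smul, ← h1, smul_smul, inv_mul_cancel₀ h2, one_smul]
    have he0 : e ≠ 0 := by
      rintro rfl
      rw [zero_smul] at he
      apply delta_ne hr i
      rw [← rho_inv' ρ γ (δ i), he, map_zero]
    have he' : ρ γ⁻¹ (δ i) = e⁻¹ • δ i := by
      conv_rhs => rw [← rho_inv' ρ γ (δ i), he, map_smul, smul_smul, inv_mul_cancel₀ he0, one_smul]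
    apply hc1
    rw [hcuw, hu, hw, he, he', map_smul, map_smul, hlam, smul_eq_mul, smul_eq_mul]
    field_simp

end

end Pool.Agent.TH125.Cyc
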