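import Pool.Agent.TH125.Cyc.Lie2

/-!
# The special linear Lie algebras of the blocks kill all equivariant maps
-/

open Finset Function

set_option linter.unusedSectionVars false

namespace Pool.Agent.TH125.Cyc

universe u v w x

open Pool.Agent.TH125.Gal

variable {K : Type u} [Field K] [CharZero K] {T : Type v} [AddCommGroup T] [Module K T]
  {I : Type} [Fintype I] [DecidableEq I] {G : Type x} [Group G]

variable {B : T →ₗ[K] T →ₗ[K] K} {s : ℤ} {bar : I → I} {q : I → (T →ₗ[K] T)}
  {ρ : G →* (T →ₗ[K] T)} {μ : G → K} (h : Blocks B s bar q ρ μ) {g : G} {δ : I → T} {c : I → K}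
  (hr : Refl B bar q ρ g δ c) (hμ : μ g = 1) {E : Type w} [AddCommGroup E] [Module K E]
  {σ : G →* (E →ₗ[K] E)} (hσ : σ g = 1) {S : Type} [Fintype S] [DecidableEq S]

/-- the projection to the orthogonal complement -/
noncomputable def Pp (B : T →ₗ[K] T →ₗ[K] K) (bar : I → I) (δ : I → T) (i : I) : T →ₗ[K] T :=
  LinearMap.id - (B (δ (bar i)) (δ i))⁻¹ • (B (δ (bar i))).smulRight (δ i)

theorem Pp_apply (i : I) (y : T) :
    Pp B bar δ i y = y - ((B (δ (bar i)) (δ i))⁻¹ * B (δ (bar i)) y) • δ i := by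
  rw [Pp, LinearMap.sub_apply, LinearMap.smul_apply, LinearMap.smulRight_apply, smul_smul]
  rfl

include hr in
theorem Pp_orth (i : I) (y : T) : B (δ (bar i)) (Pp B bar δ i y) = 0 := by
  have h1 := pair_ne hr i
  rw [Pp_apply, map_sub, map_smul, smul_eq_mul]
  field_simp
  ring

include hr in
theorem Pp_q {i : I} {y : T} (hy : q i y = y) : q i (Pp B bar δ i y) = Pp B bar δ i y := by
  rw [Pp_apply, map_sub, map_smul, hr.mem, hy]

theorem Pp_of {i : I} {y : T} (hy : B (δ (bar i)) y = 0) : Pp B bar δ i y = y := by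
  rw [Pp_apply, hy, mul_zero, zero_smul, sub_zero]

include hr in
theorem Pp_delta (i : I) : Pp B bar δ i (δ i) = 0 := by
  rw [Pp_apply, inv_mul_cancel₀ (pair_ne hr i), one_smul, sub_self]

include h hr in
/-- operators which preserve the lines commute with `g` -/
theorem comm_g {X : T →ₗ[K] T} (hX : Skew B X) (hXq : ∀ j x, X (q j x) = q j (X x)) {x : I → K}
    (hx : ∀ i, X (δ i) = x i • δ i) (y : T) : X (ρ g y) = ρ g (X y) := by
  have h1 : ∀ i, X (ρ g (q i y)) = ρ g (X (q i y)) := by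
    intro i
    have h2 := hX (δ (bar i)) (δ i)
    rw [hx, hx, map_smul, map_smul, LinearMap.smul_apply, smul_eq_mul, smul_eq_mul, ← add_mul] at h2
    have h3 : x (bar i) = - x i :=
      eq_neg_of_add_eq_zero_left ((mul_eq_zero.1 h2).resolve_right (pair_ne hr i))
    have h4 := hX (δ (bar i)) (q i y)
    rw [hx, map_smul, LinearMap.smul_apply, smul_eq_mul, h3] at h4
    have h5 : q i (X (q i y)) = X (q i y) := by rw [← hXq, h.idem]
    rw [hr.act i _ (h.idem i y), hr.act i _ h5, map_add, map_smul, hx, smul_smul]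
    congr 2
    linear_combination (-c i) * h4
  have h2 := h.total y
  calc X (ρ g y) = ∑ i, X (ρ g (q i y)) := by
        conv_lhs => rw [← h2]
        rw [map_sum, map_sum]
    _ = ∑ i, ρ g (X (q i y)) := Finset.sum_congr rfl fun i _ => h1 i
    _ = ρ g (X y) := by
        conv_rhs => rw [← h2]
        rw [map_sum, map_sum]

/-- conjugation by `g` -/
def Adg (ρ : G →* (T →ₗ[K] T)) (g : G) : (T →ₗ[K] T) →ₗ[K] (T →ₗ[K] T) where
  toFun X := ρ g ∘ₗ X ∘ₗ ρ g⁻¹
  map_add' X Y := by
    apply LinearMap.ext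
    intro x
    simp
  map_smul' a X := by
    apply LinearMap.ext
    intro x
    simp

theorem Adg_apply (X : T →ₗ[K] T) : Adg ρ g X = ρ g ∘ₗ X ∘ₗ ρ g⁻¹ := rfl

include h in
theorem ws_comm {i : I} {a b : T} (ha : q (bar i) a = a) (hb : q i b = b) (j : I) (x : T) :
    ws B s a b (q j x) = q j (ws B s a b x) :=
  DFunLike.congr_fun (h.ws_q ha hb j) x

include h hr hμ in
/-- **Components.** -/
theorem ws_mem {X : T →ₗ[K] T} (hX : X ∈ LL S B ρ σ) (hXq : ∀ j x, X (q j x) = q j (X x))
    (i : I) : ws B s (δ (bar i)) (Pp B bar δ i (X (δ i))) ∈ LL S B ρ σ := by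
  set v : I → T := fun j => (-((s : K) * (B (δ j) (δ (bar j)))⁻¹)) •
    Pp B bar δ (bar j) (X (δ (bar j))) with hv
  have hXd : ∀ j, q j (X (δ j)) = X (δ j) := fun j => by rw [← hXq, hr.mem]
  have hvq : ∀ j, q (bar j) (v j) = v j := by
    intro j
    rw [hv]
    beta_reduce
    rw [map_smul, Pp_q hr (hXd (bar j))]
  have hvo : ∀ j, B (δ j) (v j) = 0 := by
    intro j
    have h1 := Pp_orth hr (bar j) (X (δ (bar j)))
    rw [h.bar_bar] at h1
    rw [hv]
    beta_reduce
    rw [map_smul, h1, smul_zero]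
  have hvo' : ∀ j, B (v j) (δ j) = 0 := by
    intro j
    rw [h.symm, hvo, mul_zero]
  set X₁ : T →ₗ[K] T := X - ∑ j, ws B s (δ j) (v j) with hX₁
  have hws : ∀ i j, ws B s (δ j) (v j) (δ i) =
      if j = bar i then Pp B bar δ i (X (δ i)) else 0 := by
    intro i j
    rw [ws_apply]
    split_ifs with hij
    · subst hij
      have h1 : B (v (bar i)) (δ i) = 0 :=
        h.zero_of (i := i) (j := i) (by have := hvq (bar i); rwa [h.bar_bar] at this) (hr.mem i)
          (h.bar_ne i).symm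
      have h2 := pair_ne hr i
      rw [h1, zero_smul, zero_sub, hv]
      beta_reduce
      rw [h.bar_bar, smul_smul, ← neg_smul]
      have h3 : -((s : K) * B (δ (bar i)) (δ i) * -((s : K) * (B (δ (bar i)) (δ i))⁻¹)) = 1 := by
        field_simp
        linear_combination h.ss
      rw [h3, one_smul]
    · have h1 : B (δ j) (δ i) = 0 := by
        refine h.zero_of (hr.mem j) (hr.mem i) fun h2 => hij ?_
        rw [h2, h.bar_bar]
      have h2 : B (v j) (δ i) = 0 := by
        by_cases h3 : i = j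
        · rw [h3, hvo']
        · refine h.zero_of (hvq j) (hr.mem i) ?_
          rwa [h.bar_bar]
      rw [h1, h2, mul_zero, zero_smul, zero_smul, sub_zero]
  have hX₁d : ∀ i, X₁ (δ i) = ((B (δ (bar i)) (δ i))⁻¹ * B (δ (bar i)) (X (δ i))) • δ i := by
    intro i
    rw [hX₁, LinearMap.sub_apply, LinearMap.sum_apply, Finset.sum_congr rfl fun j _ => hws i j,
      Finset.sum_ite_eq' univ (bar i), if_pos (Finset.mem_univ _), Pp_apply, sub_sub_cancel]
  have hwsk : ∀ j, Skew B (ws B s (δ j) (v j)) := fun j => ws_skew h.hs h.symm _ _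
  have hX₁s : Skew B X₁ := by
    intro x y
    rw [hX₁, LinearMap.sub_apply, LinearMap.sub_apply, map_sub, map_sub, LinearMap.sub_apply,
      LinearMap.sum_apply, LinearMap.sum_apply, map_sum, map_sum, LinearMap.sum_apply]
    have h1 : ∑ j, B (ws B s (δ j) (v j) x) y = - ∑ j, B x (ws B s (δ j) (v j) y) := by
      rw [← Finset.sum_neg_distrib]
      exact Finset.sum_congr rfl fun j _ => eq_neg_of_add_eq_zero_left (hwsk j x y)
    rw [h1]
    linear_combination hX.1 x y
  have hX₁q : ∀ j x, X₁ (q j x) = q j (X₁ x) := by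
    intro j x
    rw [hX₁, LinearMap.sub_apply, LinearMap.sub_apply, LinearMap.sum_apply, LinearMap.sum_apply,
      map_sub, map_sum, hXq]
    congr 1
    refine Finset.sum_congr rfl fun j' _ => ?_
    exact ws_comm h (i := bar j') (by rw [h.bar_bar]; exact hr.mem j') (hvq j') j x
  have key := eig_mem (N := LL S B ρ σ) (A := Adg ρ g)
    (fun Y hY => LL_conj h.act hY g)
    (m := fun o : Option I => o.elim 1 (lam B bar δ c)) univ (by
      rintro (_ | a) _ (_ | b) _ hab
      · rfl
      · exact absurd hab.symm (hr.ne b)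
      · exact absurd hab (hr.ne a)
      · exact congrArg some (hr.inj hab))
    (fun o : Option I => o.elim X₁ fun j => ws B s (δ j) (v j)) (by
      rintro (_ | j) _
      · change Adg ρ g X₁ = (1 : K) • X₁
        rw [Adg_apply, one_smul]
        apply LinearMap.ext
        intro x
        rw [LinearMap.comp_apply, LinearMap.comp_apply, ← comm_g h hr hX₁s hX₁q hX₁d, rho_inv]
      · change Adg ρ g (ws B s (δ j) (v j)) = lam B bar δ c j • ws B s (δ j) (v j)
        rw [Adg_apply, ws_conj h.mu_ne h.act, hμ, inv_one, one_smul, act_delta hr,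
          hr.act (bar j) (v j) (hvq j), h.bar_bar, hvo, mul_zero, zero_smul, add_zero,
          ws_smul_left])
    (by
      rw [Fintype.sum_option]
      change X₁ + ∑ j, ws B s (δ j) (v j) ∈ _
      rw [hX₁, sub_add_cancel]
      exact hX)
    (some (bar i)) (Finset.mem_univ _)
  change ws B s (δ (bar i)) (v (bar i)) ∈ _ at key
  rw [hv] at key
  beta_reduce at key
  rw [h.bar_bar, ws_smul_right] at key
  have h1 : (-((s : K) * (B (δ (bar i)) (δ i))⁻¹)) ≠ 0 := by
    refine neg_ne_zero.2 (mul_ne_zero ?_ (inv_ne_zero (pair_ne hr i)))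
    intro h2
    have h3 := h.ss
    rw [h2, zero_mul] at h3
    exact zero_ne_one h3
  have h2 := Submodule.smul_mem _ (-((s : K) * (B (δ (bar i)) (δ i))⁻¹))⁻¹ key
  rwa [smul_smul, inv_mul_cancel₀ h1, one_smul] at h2

variable [Module.Finite K T]

include h hr hμ hσ in
/-- **The root vectors.** -/
theorem root_mem (hK : FewRoots K) (hmul : ∀ γ γ', μ (γ * γ') = μ γ * μ γ') (i : I)
    (hi : 2 ≤ Module.finrank K (blk q i)) {x : T} (hx : q i x = x) :
    ws B s (δ (bar i)) (Pp B bar δ i x) ∈ LL S B ρ σ := by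
  obtain ⟨X, hX, hXq', hXl⟩ := exists_elt (S := S) h hr hμ hσ hK hmul i hi
  have hXq : ∀ j x, X (q j x) = q j (X x) := fun j x => DFunLike.congr_fun (hXq' j) x
  -- the subspace
  let U : Submodule K (blk q i) :=
    { carrier := {x | ws B s (δ (bar i)) (Pp B bar δ i x) ∈ LL S B ρ σ}
      zero_mem' := by
        change ws B s (δ (bar i)) (Pp B bar δ i (0 : T)) ∈ LL S B ρ σ
        rw [map_zero, ← zero_smul K (0 : T), ws_smul_right, zero_smul]
        exact Submodule.zero_mem _
      add_mem' := by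
        intro x y hx hy
        change ws B s (δ (bar i)) (Pp B bar δ i ((x : T) + y)) ∈ LL S B ρ σ
        rw [map_add, ws_add_right]
        exact Submodule.add_mem _ hx hy
      smul_mem' := by
        intro a x hx
        change ws B s (δ (bar i)) (Pp B bar δ i (a • (x : T))) ∈ LL S B ρ σ
        rw [map_smul, ws_smul_right]
        exact Submodule.smul_mem _ a hx }
  have hU : ∀ x : blk q i, x ∈ U ↔ ws B s (δ (bar i)) (Pp B bar δ i x) ∈ LL S B ρ σ :=
    fun x => Iff.rfl
  -- the operators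
  let 𝓛 : Set (blk q i →ₗ[K] blk q i) := {Y | ∃ X ∈ LL S B ρ σ, (∀ j x, X (q j x) = q j (X x)) ∧
    ∀ x : blk q i, (Y x : T) = X x}
  have hbar : q (bar i) (δ (bar i)) = δ (bar i) := hr.mem (bar i)
  have hXd : q i (X (δ i)) = X (δ i) := by rw [← hXq, hr.mem]
  have hstab : ∀ Y ∈ 𝓛, ∀ x ∈ U, Y x ∈ U := by
    rintro Y ⟨A, hA, hAq, hYA⟩ x hx
    rw [hU] at hx ⊢
    rw [hYA]
    have hxi : q i (x : T) = x := (mem_blk h).1 x.2
    have hP := Pp_q hr hxi
    have h1 : A ∘ₗ ws B s (δ (bar i)) (Pp B bar δ i x) - ws B s (δ (bar i)) (Pp B bar δ i x) ∘ₗ A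
        ∈ LL S B ρ σ := LL_bracket hA hx
    have h2 := ws_mem h hr hμ h1 (by
      intro j y
      simp only [LinearMap.sub_apply, LinearMap.comp_apply, map_sub]
      rw [ws_comm h hbar hP, hAq, hAq, ws_comm h hbar hP]) i
    rw [ws_bracket h.hs h.symm hA.1] at h2
    have hAd : q i (A (δ i)) = A (δ i) := by rw [← hAq, hr.mem]
    have hAb : q (bar i) (A (δ (bar i))) = A (δ (bar i)) := by rw [← hAq, hr.mem]
    have hAP : q i (A (Pp B bar δ i x)) = A (Pp B bar δ i x) := by rw [← hAq, hP]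
    have h3 : (ws B s (A (δ (bar i))) (Pp B bar δ i x) +
        ws B s (δ (bar i)) (A (Pp B bar δ i x))) (δ i) =
        ((s : K) * B (δ (bar i)) (A (δ i))) • Pp B bar δ i x -
          ((s : K) * B (δ (bar i)) (δ i)) • A (Pp B bar δ i x) := by
      rw [LinearMap.add_apply, ws_apply, ws_apply,
        h.zero_of hP (hr.mem i) (h.bar_ne i).symm, h.zero_of hAP (hr.mem i) (h.bar_ne i).symm,
        zero_smul, zero_smul, eq_neg_of_add_eq_zero_left (hA.1 (δ (bar i)) (δ i))]
      module
    have h4 : Pp B bar δ i (Pp B bar δ i (x : T)) = Pp B bar δ i (x : T) :=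
      Pp_of (Pp_orth hr i _)
    rw [h3, map_sub, map_smul, map_smul, h4, sub_eq_add_neg, ws_add_right, ws_smul_right,
      ← neg_smul, ws_smul_right] at h2
    have h5 := (Submodule.add_mem_iff_right _ (Submodule.smul_mem _ _ hx)).1 h2
    have h6 : (-((s : K) * B (δ (bar i)) (δ i))) ≠ 0 := by
      refine neg_ne_zero.2 (mul_ne_zero ?_ (pair_ne hr i))
      intro h7
      have h8 := h.ss
      rw [h7, zero_mul] at h8
      exact zero_ne_one h8
    have h7 := Submodule.smul_mem _ (-((s : K) * B (δ (bar i)) (δ i)))⁻¹ h5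
    rw [smul_smul, inv_mul_cancel₀ h6, one_smul] at h7
    have h8 := ws_mem h hr hμ hA hAq i
    have h9 : Pp B bar δ i (A x) = Pp B bar δ i (A (Pp B bar δ i (x : T))) +
        ((B (δ (bar i)) (δ i))⁻¹ * B (δ (bar i)) (x : T)) • Pp B bar δ i (A (δ i)) := by
      conv_rhs => rw [Pp_apply i (x : T)]
      rw [map_sub, map_smul, map_sub, map_smul, sub_add_cancel]
    rw [h9, ws_add_right, ws_smul_right]
    exact Submodule.add_mem _ h7 (Submodule.smul_mem _ _ h8)
  set z : blk q i := ⟨Pp B bar δ i (X (δ i)), (mem_blk h).2 (Pp_q hr hXd)⟩ with hz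
  have hz0 : z ≠ 0 := by
    intro h1
    have h2 := congrArg Subtype.val h1
    change Pp B bar δ i (X (δ i)) = 0 at h2
    rw [Pp_apply, sub_eq_zero] at h2
    exact hXl _ h2
  set φ : blk q i →ₗ[K] K := (-(s : K)) • (B (δ (bar i)) ∘ₗ (blk q i).subtype) with hφ
  have hφ0 : φ ≠ 0 := by
    intro h1
    have h2 := DFunLike.congr_fun h1 (⟨δ i, (mem_blk h).2 (hr.mem i)⟩ : blk q i)
    change (-(s : K)) * B (δ (bar i)) (δ i) = 0 at h2
    rcases mul_eq_zero.1 h2 with h3 | h3
    · have h4 := h.ss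
      rw [neg_eq_zero] at h3
      rw [h3, zero_mul] at h4
      exact zero_ne_one h4
    · exact pair_ne hr i h3
  have hmem : φ.smulRight z ∈ 𝓛 := by
    refine ⟨ws B s (δ (bar i)) (Pp B bar δ i (X (δ i))), ws_mem h hr hμ hX hXq i,
      ws_comm h hbar (Pp_q hr hXd), fun x => ?_⟩
    have hxi : q i (x : T) = x := (mem_blk h).1 x.2
    rw [ws_apply, h.zero_of (Pp_q hr hXd) hxi (h.bar_ne i).symm, zero_smul, zero_sub, ← neg_smul]
    change ((-(s : K)) * B (δ (bar i)) x) • Pp B bar δ i (X (δ i)) = _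
    congr 1
    ring
  have htop := orbit_min (ρ := resR ρ (blk q i) (blk_stable h i)) (blk_SI h i) (𝓛 := 𝓛) (by
      rintro Y ⟨A, hA, hAq, hYA⟩ γ
      refine ⟨ρ γ ∘ₗ A ∘ₗ ρ γ⁻¹, LL_conj h.act hA γ, fun j x => ?_, fun x => ?_⟩
      · rw [LinearMap.comp_apply, LinearMap.comp_apply, LinearMap.comp_apply,
          LinearMap.comp_apply, h.comm, hAq, h.comm]
      · rw [LinearMap.comp_apply, LinearMap.comp_apply, LinearMap.comp_apply,
          LinearMap.comp_apply, resR_apply, hYA, resR_apply]) hφ0 hz0 hmem (U := U) (by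
      intro h1
      have h2 : (⟨δ i, (mem_blk h).2 (hr.mem i)⟩ : blk q i) ∈ U := by
        rw [hU]
        change ws B s (δ (bar i)) (Pp B bar δ i (δ i)) ∈ LL S B ρ σ
        rw [Pp_delta hr, ← zero_smul K (0 : T), ws_smul_right, zero_smul]
        exact Submodule.zero_mem _
      rw [h1, Submodule.mem_bot] at h2
      exact delta_ne hr i (congrArg Subtype.val h2)) hstab
  have h1 : (⟨x, (mem_blk h).2 hx⟩ : blk q i) ∈ U := by
    rw [htop]
    exact Submodule.mem_top
  exact h1

include h hr hμ hσ in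
/-- **The special linear Lie algebra.** -/
theorem sl_mem (hK : FewRoots K) (hmul : ∀ γ γ', μ (γ * γ') = μ γ * μ γ') (i : I)
    (hi : 2 ≤ Module.finrank K (blk q i)) (hi' : 2 ≤ Module.finrank K (blk q (bar i))) :
    ∃ w₀ : T →ₗ[K] T, ∀ a b, q (bar i) a = a → q i b = b →
      ws B s a b - B a b • w₀ ∈ LL S B ρ σ := by
  have hb := pair_ne hr i
  have hb' : B (δ i) (δ (bar i)) = (s : K) * B (δ (bar i)) (δ i) := h.symm _ _
  refine ⟨(B (δ (bar i)) (δ i))⁻¹ • ws B s (δ (bar i)) (δ i), fun a b ha hbi => ?_⟩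
  set x := Pp B bar δ i b with hx
  set y := Pp B bar δ (bar i) a with hy
  have h1 : ws B s (δ (bar i)) x ∈ LL S B ρ σ := root_mem h hr hμ hσ hK hmul i hi hbi
  have h2 : ws B s (δ i) y ∈ LL S B ρ σ := by
    have h3 := root_mem (S := S) h hr hμ hσ hK hmul (bar i) hi' ha
    rwa [h.bar_bar] at h3
  have h2' : ws B s y (δ i) ∈ LL S B ρ σ := by
    rw [ws_swap h.hs]
    exact Submodule.neg_mem _ (Submodule.smul_mem _ _ h2)
  have hxq : q i x = x := Pp_q hr hbi
  have hyq : q (bar i) y = y := Pp_q hr ha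
  have hxo : B (δ (bar i)) x = 0 := Pp_orth hr i b
  have hyo : B (δ i) y = 0 := by
    have h3 := Pp_orth hr (bar i) a
    rwa [h.bar_bar] at h3
  have hyo' : B (δ (bar i)) y = 0 := h.zero_of (hr.mem _) hyq (by
    rw [h.bar_bar]
    exact (h.bar_ne i))
  have hxo' : B x (δ i) = 0 := h.zero_of hxq (hr.mem i) (h.bar_ne i).symm
  have h3 := LL_bracket h1 h2'
  rw [ws_bracket h.hs h.symm h1.1] at h3
  have e1 : ws B s (δ (bar i)) x y = B x y • δ (bar i) := by
    rw [ws_apply, hyo', mul_zero, zero_smul, sub_zero]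
  have e2 : ws B s (δ (bar i)) x (δ i) = (-((s : K) * B (δ (bar i)) (δ i))) • x := by
    rw [ws_apply, hxo', zero_smul, zero_sub, neg_smul]
  rw [e1, e2, ws_smul_left, ws_smul_right] at h3
  have hs0 : (s : K) ≠ 0 := by
    intro h7
    have h8 := h.ss
    rw [h7, zero_mul] at h8
    exact zero_ne_one h8
  have h4 := Submodule.smul_mem _ (-((s : K) * B (δ (bar i)) (δ i)))⁻¹ h3
  have hBxy : B x y = (s : K) * B y x := h.symm _ _
  have h5 : (-((s : K) * B (δ (bar i)) (δ i)))⁻¹ • (B x y • ws B s (δ (bar i)) (δ i) +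
      (-((s : K) * B (δ (bar i)) (δ i))) • ws B s y x) =
      ws B s y x - B y x • (B (δ (bar i)) (δ i))⁻¹ • ws B s (δ (bar i)) (δ i) := by
    rw [hBxy]
    match_scalars <;> field_simp
  rw [h5] at h4
  -- general vectors
  set α := (B (δ (bar i)) (δ i))⁻¹ * B (δ (bar i)) b with hα
  set β := (B (δ i) (δ (bar i)))⁻¹ * B (δ i) a with hβ
  have hbe : b = x + α • δ i := by
    rw [hx, Pp_apply, hα, sub_add_cancel]
  have hae : a = y + β • δ (bar i) := by
    rw [hy, Pp_apply, h.bar_bar, hβ, sub_add_cancel]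
  have hyd : B y (δ i) = 0 := by rw [h.symm, hyo, mul_zero]
  have h6 : ws B s a b - B a b • (B (δ (bar i)) (δ i))⁻¹ • ws B s (δ (bar i)) (δ i) =
      (ws B s y x - B y x • (B (δ (bar i)) (δ i))⁻¹ • ws B s (δ (bar i)) (δ i)) +
        β • ws B s (δ (bar i)) x + α • ws B s y (δ i) := by
    have h7 : B a b = B y x + α * β * B (δ (bar i)) (δ i) := by
      rw [hae, hbe]
      simp only [map_add, map_smul, LinearMap.add_apply, LinearMap.smul_apply, smul_eq_mul, hxo,
        hyd]
      ring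
    have h8 : ws B s a b = ws B s y x + β • ws B s (δ (bar i)) x + α • ws B s y (δ i) +
        (α * β) • ws B s (δ (bar i)) (δ i) := by
      conv_lhs => rw [hae, hbe]
      rw [ws_add_left, ws_add_right, ws_smul_left, ws_add_right, ws_smul_right, ws_smul_right]
      module
    rw [h8, h7]
    match_scalars <;> field_simp
    ring
  rw [h6]
  exact Submodule.add_mem _ (Submodule.add_mem _ h4 (Submodule.smul_mem _ _ h1))
    (Submodule.smul_mem _ _ h2')

end Pool.Agent.TH125.Cyc
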