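import Pool.Agent.TH125.Cyc.Aut
import Pool.Agent.TH125.Sec.Pub

/-!
# The Tate conjecture for powers of cyclic covers: the public form
-/

open CategoryTheory AlgebraicGeometry Finset

set_option linter.unusedSectionVars false

universe u v w

namespace Pool.Agent.TH125.Cyc

open Pool.Agent.H914 Pool.Agent.H914.VarClass Pool.Agent.H914.VarClass.Obj
  Pool.Agent.H914.WeilCohomology Pool.Agent.H281R3.HT Pool.Agent.W552 Pool.Agent.TH125.Gal
  Pool.Agent.TH125.Sec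

variable {k : Type u} [Field k] {𝒱 : VarClass k} {ops : CycleOps 𝒱}
  {W : WeilCohomology.{u, v} ops} {Γ : Type w} [Group Γ] {χ : Γ →* W.Kˣ}

/-- **The Tate conjecture for powers of cyclic covers.** -/
theorem tate_cyclic {G : Set (GVar W Γ)} {X Y Z : GVar W Γ} {f : X.X ⟶ Y.X} {σ : X.X ⟶ X.X}
    {d : ℕ} (h : CyclicOver χ G f σ d Z) {n : ℕ}
    (hn : SmallEigen d (relPrimitive W f) (W.map σ) n) {A B : GVar W Γ}
    (hA : IsPowProd Y n Z A) (hB : IsPowProd X n Z B) (hT : TateConjecture χ A) :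
    TateConjecture χ B := by
  obtain ⟨υ', hA1, hA2⟩ := hA
  obtain ⟨υ, hB1, hB2⟩ := hB
  have hQ := isPowAct hA1 hA2
  have hP := isPowAct hB1 hB2
  obtain ⟨hXG, hYG, hZG⟩ := h.mem
  obtain ⟨ω, hω1, hω2, hω⟩ := h.galoisClass.prod' hXG hYG
  obtain ⟨υ₁, hυ₁, hQ'⟩ := exists_pow_act h.galoisClass hYG hZG 0 n
  obtain rfl := powAct_unique hQ hQ'
  obtain ⟨haut, heq, hfew, hirr, g, hRf, hχ, hgY, hgZ⟩ := h.cyclic
  obtain ⟨hmid, _, ⟨z, hza, rfl⟩, hz⟩ := h.split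
  obtain ⟨s⟩ := exists_TB (rel_nondeg hmid hz)
  obtain ⟨b, hb⟩ := exists_monoBasis (ops := ops) ⟨X.X, 0⟩ (Module.finBasis W.K (W.H X.X)) n
  obtain ⟨ζ, hζ⟩ := haut.root
  have hG := isGalois (h.galoisClass.galois _ hXG)
  have hG' := isGalois (h.galoisClass.galois _ hYG)
  obtain ⟨δ, c, hR⟩ := refl_of (P := ⟨X.X, 0⟩) (Q := ⟨Y.X, 0⟩) h.comp_eq haut hζ hG
    h.equivariant hRf
  exact tate_blocks (P := ⟨X.X, 0⟩) (Q := ⟨Y.X, 0⟩) hb hmid hz s hza hG hG'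
    (isGalois (h.galoisClass.galois _ hω)) hω1 hω2 h.equivariant hP hQ
    (h.galoisClass.galois _ hυ₁).gr_mem
    (blocks (P := ⟨X.X, 0⟩) (Q := ⟨Y.X, 0⟩) h.comp_eq haut hζ hmid hz hG h.equivariant
      heq hirr) hR hχ
    (act_one hQ (trivAct.1 hgY) (trivAct.1 hgZ)) hfew
    (fun i => by
      rw [finrank_blk (P := ⟨X.X, 0⟩) (Q := ⟨Y.X, 0⟩) h.comp_eq haut hζ]
      exact hn _ (isChar_pow hζ i))
    (fun i => dK_alg h.comp_eq haut hζ s (dG_alg hmid hz s hza) i) hT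

end Pool.Agent.TH125.Cyc
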