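import Pool.Agent.TH125.Gal.Chev

/-!
# Pseudoreflections: the algebra spanned by the conjugates and pairs in general position
-/

open Finset Function

set_option linter.unusedSectionVars false

namespace Pool.Agent.TH125.Cyc

universe u v w x

open Pool.Agent.TH125.Gal

variable {K : Type u} [Field K] [CharZero K] {V : Type v} [AddCommGroup V] [Module K V]
  [Module.Finite K V]
  {G : Type x} [Group G] {ρ : G →* (V →ₗ[K] V)}

theorem rho_injective (γ : G) : Injective (ρ γ) := by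
  intro x y h
  rw [← rho_inv' ρ γ x, h, rho_inv']

/-- stable subspaces are stable under the inverse -/
theorem stable_inv {U : Submodule K V} {γ : G} (h : ∀ x ∈ U, ρ γ x ∈ U) :
    ∀ x ∈ U, ρ γ⁻¹ x ∈ U := by
  have h1 : U.map (ρ γ) ≤ U := by
    rintro _ ⟨x, hx, rfl⟩
    exact h x hx
  have h2 : U.map (ρ γ) = U := by
    refine Submodule.eq_of_le_of_finrank_eq h1 ?_
    exact (LinearEquiv.finrank_eq (Submodule.equivMapOfInjective (ρ γ) (rho_injective γ) U)).symm
  intro x hx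
  rw [← h2] at hx
  obtain ⟨y, hy, rfl⟩ := hx
  rw [rho_inv']
  exact hy

/-- the orbit lemma -/
theorem orbit_fun (hSI : SI ρ) {U : Submodule K V} {u : V} (hu : u ∈ U) {φ : V →ₗ[K] K}
    (huφ : φ u ≠ 0)
    (hU : ∀ γ : G, (∀ x ∈ U, ρ γ x ∈ U) ∨ ∀ x ∈ U, φ (ρ γ x) = 0) : U = ⊤ := by
  have horth : ∀ q q' : G ⧸ stab ρ U, q ≠ q' → ∀ x ∈ U, φ (ρ (q'.out⁻¹ * q.out) x) = 0 := by
    intro q q' hqq
    rcases hU (q'.out⁻¹ * q.out) with h | h
    · exfalso
      apply hqq
      have h1 : q'.out⁻¹ * q.out ∈ stab ρ U := ⟨h, stable_inv h⟩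
      have h2 := QuotientGroup.eq.2 h1
      rw [QuotientGroup.out_eq', QuotientGroup.out_eq'] at h2
      exact h2.symm
    · exact h
  have hli : LinearIndependent K (fun q : G ⧸ stab ρ U => ρ q.out u) := by
    rw [linearIndependent_iff']
    intro s c hc q hq
    have h1 := congrArg (fun z => φ (ρ q.out⁻¹ z)) hc
    simp only [map_zero, map_sum, map_smul, smul_eq_mul] at h1
    rw [Finset.sum_eq_single q] at h1
    · rw [rho_inv'] at h1
      exact (mul_eq_zero.1 h1).resolve_right huφ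
    · intro q' _ hqq
      rw [← rho_mul_apply, horth q' q hqq u hu, mul_zero]
    · intro h
      exact absurd hq h
  have hfin : Finite (G ⧸ stab ρ U) := hli.finite
  have hfi : (stab ρ U).FiniteIndex := Subgroup.finiteIndex_of_finite_quotient
  rcases hSI _ hfi U (fun g hg x hx => hg.1 x hx) with h | h
  · rw [h, Submodule.mem_bot] at hu
    rw [hu, map_zero] at huφ
    exact absurd rfl huφ
  · exact h

section

variable {g : G} {δ : V} {φ : V →ₗ[K] K} (hg : ∀ x, ρ g x = x + φ x • δ)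

/-- the operators `x ↦ φ_γ(x) δ_γ` -/
noncomputable def pr (ρ : G →* (V →ₗ[K] V)) (δ : V) (φ : V →ₗ[K] K) (γ : G) : V →ₗ[K] V :=
  (φ ∘ₗ ρ γ⁻¹).smulRight (ρ γ δ)

theorem pr_apply (γ : G) (x : V) : pr ρ δ φ γ x = φ (ρ γ⁻¹ x) • ρ γ δ := rfl

theorem pr_conj (n γ : G) : ρ n ∘ₗ pr ρ δ φ γ ∘ₗ ρ n⁻¹ = pr ρ δ φ (n * γ) := by
  apply LinearMap.ext
  intro x
  rw [LinearMap.comp_apply, LinearMap.comp_apply, pr_apply, pr_apply, map_smul, mul_inv_rev,
    rho_mul_apply, rho_mul_apply]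

include hg in
theorem rho_conj (γ : G) (x : V) : ρ (γ * g * γ⁻¹) x = x + pr ρ δ φ γ x := by
  rw [rho_mul_apply, rho_mul_apply, hg, map_add, map_smul, rho_inv, pr_apply]

include hg in
theorem lam_ne (h : (1 + φ δ) * (1 + φ δ) ≠ 1) : φ δ ≠ 0 := by
  intro h0
  apply h
  rw [h0]
  ring

include hg in
theorem lam_ne' : δ = 0 ∨ 1 + φ δ ≠ 0 := by
  by_contra hcon
  push Not at hcon
  apply hcon.1
  apply rho_injective (ρ := ρ) g
  rw [hg, map_zero]
  have h1 : φ δ = -1 := by linear_combination hcon.2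
  rw [h1]
  module

include hg in
theorem rho_conj_inv (h0 : 1 + φ δ ≠ 0) (γ : G) (x : V) :
    ρ (γ * g * γ⁻¹)⁻¹ x = x - (1 + φ δ)⁻¹ • pr ρ δ φ γ x := by
  apply rho_injective (ρ := ρ) (γ * g * γ⁻¹)
  rw [rho_inv, rho_conj hg, pr_apply, pr_apply, map_sub, map_sub, map_smul, map_smul, map_smul,
    map_smul, rho_inv']
  simp only [smul_eq_mul]
  have h1 : (1 + φ δ)⁻¹ * (φ (ρ γ⁻¹ x) * φ δ) = φ (ρ γ⁻¹ x) - (1 + φ δ)⁻¹ * φ (ρ γ⁻¹ x) := by
    field_simp
    ring
  rw [h1, sub_smul, sub_smul]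
  module

/-- the span of the operators -/
noncomputable def alg (ρ : G →* (V →ₗ[K] V)) (δ : V) (φ : V →ₗ[K] K) : Submodule K (V →ₗ[K] V) :=
  Submodule.span K (Set.range (pr ρ δ φ))

theorem alg_conj {s : V →ₗ[K] V} (hs : s ∈ alg ρ δ φ) (n : G) :
    ρ n ∘ₗ s ∘ₗ ρ n⁻¹ ∈ alg ρ δ φ := by
  induction hs using Submodule.span_induction with
  | mem x hx =>
    obtain ⟨γ, rfl⟩ := hx
    rw [pr_conj]
    exact Submodule.subset_span ⟨_, rfl⟩
  | zero =>
    rw [LinearMap.zero_comp, LinearMap.comp_zero]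
    exact Submodule.zero_mem _
  | add x y _ _ hx hy =>
    rw [LinearMap.add_comp, LinearMap.comp_add]
    exact Submodule.add_mem _ hx hy
  | smul a x _ hx =>
    rw [LinearMap.smul_comp, LinearMap.comp_smul]
    exact Submodule.smul_mem _ a hx

include hg in
/-- the span is closed under multiplication -/
theorem alg_mul (h0 : 1 + φ δ ≠ 0) (h1 : (1 + φ δ) * (1 + φ δ) ≠ 1) {s : V →ₗ[K] V}
    (hs : s ∈ alg ρ δ φ) (γ : G) :
    pr ρ δ φ γ ∘ₗ s ∈ alg ρ δ φ ∧ s ∘ₗ pr ρ δ φ γ ∈ alg ρ δ φ := by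
  set P := pr ρ δ φ γ with hP
  set l := 1 + φ δ with hl
  have hPm : P ∈ alg ρ δ φ := Submodule.subset_span ⟨γ, rfl⟩
  have hPsP : P ∘ₗ s ∘ₗ P = φ (ρ γ⁻¹ (s (ρ γ δ))) • P := by
    apply LinearMap.ext
    intro x
    rw [LinearMap.comp_apply, LinearMap.comp_apply, hP, pr_apply γ x, map_smul, map_smul,
      LinearMap.smul_apply, pr_apply, pr_apply, smul_comm]
  have e1 : P ∘ₗ s - l⁻¹ • (s ∘ₗ P) ∈ alg ρ δ φ := by
    have h2 := alg_conj hs (γ * g * γ⁻¹)
    have h3 : ρ (γ * g * γ⁻¹) ∘ₗ s ∘ₗ ρ (γ * g * γ⁻¹)⁻¹ = s + (P ∘ₗ s - l⁻¹ • (s ∘ₗ P)) -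
        l⁻¹ • (P ∘ₗ s ∘ₗ P) := by
      apply LinearMap.ext
      intro x
      rw [LinearMap.comp_apply, LinearMap.comp_apply, rho_conj_inv hg h0, rho_conj hg]
      simp only [LinearMap.sub_apply, LinearMap.add_apply, LinearMap.smul_apply,
        LinearMap.comp_apply, map_sub, map_smul]
      rw [← hP]
      abel
    rw [h3, hPsP] at h2
    have h4 := Submodule.sub_mem _ (Submodule.add_mem _ h2
      (Submodule.smul_mem _ l⁻¹ (Submodule.smul_mem _ (φ (ρ γ⁻¹ (s (ρ γ δ)))) hPm))) hs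
    convert h4 using 1
    abel
  have e2 : s ∘ₗ P - l⁻¹ • (P ∘ₗ s) ∈ alg ρ δ φ := by
    have h2 := alg_conj hs (γ * g * γ⁻¹)⁻¹
    have h3 : ρ (γ * g * γ⁻¹)⁻¹ ∘ₗ s ∘ₗ ρ (γ * g * γ⁻¹)⁻¹⁻¹ = s + (s ∘ₗ P - l⁻¹ • (P ∘ₗ s)) -
        l⁻¹ • (P ∘ₗ s ∘ₗ P) := by
      apply LinearMap.ext
      intro x
      rw [inv_inv, LinearMap.comp_apply, LinearMap.comp_apply, rho_conj_inv hg h0, rho_conj hg]
      simp only [LinearMap.sub_apply, LinearMap.add_apply, LinearMap.smul_apply,
        LinearMap.comp_apply, map_add, smul_add]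
      rw [← hP]
      abel
    rw [h3, hPsP] at h2
    have h4 := Submodule.sub_mem _ (Submodule.add_mem _ h2
      (Submodule.smul_mem _ l⁻¹ (Submodule.smul_mem _ (φ (ρ γ⁻¹ (s (ρ γ δ)))) hPm))) hs
    convert h4 using 1
    abel
  have hdet : 1 - l⁻¹ * l⁻¹ ≠ 0 := by
    intro h
    apply h1
    field_simp at h
    linear_combination h
  constructor
  · have h2 := Submodule.smul_mem _ (1 - l⁻¹ * l⁻¹)⁻¹
      (Submodule.add_mem _ e1 (Submodule.smul_mem _ l⁻¹ e2))
    have h3 : P ∘ₗ s - l⁻¹ • (s ∘ₗ P) + l⁻¹ • (s ∘ₗ P - l⁻¹ • (P ∘ₗ s)) =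
        (1 - l⁻¹ * l⁻¹) • (P ∘ₗ s) := by
      module
    rwa [h3, smul_smul, inv_mul_cancel₀ hdet, one_smul] at h2
  · have h2 := Submodule.smul_mem _ (1 - l⁻¹ * l⁻¹)⁻¹
      (Submodule.add_mem _ e2 (Submodule.smul_mem _ l⁻¹ e1))
    have h3 : s ∘ₗ P - l⁻¹ • (P ∘ₗ s) + l⁻¹ • (P ∘ₗ s - l⁻¹ • (s ∘ₗ P)) =
        (1 - l⁻¹ * l⁻¹) • (s ∘ₗ P) := by
      module
    rwa [h3, smul_smul, inv_mul_cancel₀ hdet, one_smul] at h2

include hg in
theorem alg_mul' (h0 : 1 + φ δ ≠ 0) (h1 : (1 + φ δ) * (1 + φ δ) ≠ 1) {s t : V →ₗ[K] V}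
    (hs : s ∈ alg ρ δ φ) (ht : t ∈ alg ρ δ φ) : s ∘ₗ t ∈ alg ρ δ φ := by
  induction hs using Submodule.span_induction with
  | mem x hx =>
    obtain ⟨γ, rfl⟩ := hx
    exact (alg_mul hg h0 h1 ht γ).1
  | zero => rw [LinearMap.zero_comp]; exact Submodule.zero_mem _
  | add x y _ _ hx hy => rw [LinearMap.add_comp]; exact Submodule.add_mem _ hx hy
  | smul a x _ hx => rw [LinearMap.smul_comp]; exact Submodule.smul_mem _ a hx

include hg in
/-- the orbit of `δ` under the algebra is everything -/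
theorem alg_orbit (hSI : SI ρ) (h0 : 1 + φ δ ≠ 0) (h1 : (1 + φ δ) * (1 + φ δ) ≠ 1) (z : V) :
    ∃ t ∈ alg ρ δ φ, t δ = z := by
  have hφ := lam_ne hg h1
  set U : Submodule K V := (alg ρ δ φ).map (LinearMap.applyₗ δ) with hU
  have hmem : ∀ {t}, t ∈ alg ρ δ φ → t δ ∈ U := fun {t} ht => ⟨t, ht, rfl⟩
  have hδ : δ ∈ U := by
    have h2 : pr ρ δ φ 1 δ ∈ U := hmem (Submodule.subset_span ⟨1, rfl⟩)
    rw [pr_apply, inv_one, map_one] at h2
    have h3 := Submodule.smul_mem _ (φ δ)⁻¹ h2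
    rwa [smul_smul, Module.End.one_apply, inv_mul_cancel₀ hφ, one_smul] at h3
  have h2 : U = ⊤ := by
    refine orbit_fun hSI hδ hφ fun γ => ?_
    by_cases h3 : ∀ x ∈ U, φ (ρ γ x) = 0
    · exact Or.inr h3
    · left
      push Not at h3
      obtain ⟨_, ⟨t, ht, rfl⟩, h3⟩ := h3
      have h3' : φ (ρ γ (t δ)) ≠ 0 := h3
      -- `ρ γ U` is stable under the algebra
      have hst : ∀ s ∈ alg ρ δ φ, ∀ y ∈ U.map (ρ γ), s y ∈ U.map (ρ γ) := by
        rintro s hs _ ⟨_, ⟨t, ht, rfl⟩, rfl⟩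
        have h4 := alg_conj hs γ⁻¹
        rw [inv_inv] at h4
        refine ⟨_, hmem (alg_mul' hg h0 h1 h4 ht), ?_⟩
        change ρ γ (ρ γ⁻¹ (s (ρ γ (t δ)))) = _
        rw [rho_inv]
        rfl
      have hδ' : δ ∈ U.map (ρ γ) := by
        have h4 := hst (pr ρ δ φ 1) (Submodule.subset_span ⟨1, rfl⟩) (ρ γ (t δ))
          ⟨t δ, hmem ht, rfl⟩
        rw [pr_apply, inv_one, map_one, Module.End.one_apply, Module.End.one_apply] at h4
        have h5 := Submodule.smul_mem _ (φ (ρ γ (t δ)))⁻¹ h4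
        rwa [smul_smul, inv_mul_cancel₀ h3', one_smul] at h5
      have hle : U ≤ U.map (ρ γ) := by
        rintro _ ⟨t, ht, rfl⟩
        exact hst t ht δ hδ'
      have heq : U = U.map (ρ γ) := by
        refine Submodule.eq_of_le_of_finrank_eq hle ?_
        exact LinearEquiv.finrank_eq (Submodule.equivMapOfInjective (ρ γ) (rho_injective γ) U)
      intro x hx
      rw [heq]
      exact ⟨x, hx, rfl⟩
  have h3 : z ∈ U := by rw [h2]; exact Submodule.mem_top
  obtain ⟨t, ht, rfl⟩ := h3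
  exact ⟨t, ht, rfl⟩

include hg in
/-- the algebra is the full matrix algebra -/
theorem alg_top (hSI : SI ρ) (h0 : 1 + φ δ ≠ 0) (h1 : (1 + φ δ) * (1 + φ δ) ≠ 1) :
    alg ρ δ φ = ⊤ := by
  have hφ := lam_ne hg h1
  -- the functionals
  have hker : ⨅ γ : G, LinearMap.ker (φ ∘ₗ ρ γ⁻¹) = ⊥ := by
    rcases hSI ⊤ inferInstance (⨅ γ : G, LinearMap.ker (φ ∘ₗ ρ γ⁻¹)) (fun n _ x hx => by
      rw [Submodule.mem_iInf] at hx ⊢
      intro γ
      have h2 := hx (n⁻¹ * γ)
      rw [LinearMap.mem_ker, LinearMap.comp_apply] at h2 ⊢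
      rw [mul_inv_rev, inv_inv, rho_mul_apply] at h2
      exact h2) with h | h
    · exact h
    · exfalso
      apply hφ
      have h2 : δ ∈ ⨅ γ : G, LinearMap.ker (φ ∘ₗ ρ γ⁻¹) := by rw [h]; exact Submodule.mem_top
      rw [Submodule.mem_iInf] at h2
      have h3 := h2 1
      rw [LinearMap.mem_ker, LinearMap.comp_apply, inv_one, map_one] at h3
      exact h3
  -- the rank one operators
  have h2 : ∀ (ψ : V →ₗ[K] K) (z : V), ψ.smulRight z ∈ alg ρ δ φ := by
    intro ψ z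
    have h3 : ψ ∈ Submodule.span K (Set.range fun γ : G => φ ∘ₗ ρ γ⁻¹) := by
      refine FiniteDimensional.mem_span_of_iInf_ker_le_ker ?_
      rw [hker]
      exact bot_le
    induction h3 using Submodule.span_induction with
    | mem ψ hψ =>
      obtain ⟨γ, rfl⟩ := hψ
      obtain ⟨t, ht, htz⟩ := alg_orbit hg hSI h0 h1 (ρ γ⁻¹ z)
      have h4 := alg_conj ht γ
      have h5 := (alg_mul hg h0 h1 h4 γ).2
      convert h5 using 1
      apply LinearMap.ext
      intro x
      rw [LinearMap.smulRight_apply, LinearMap.comp_apply, LinearMap.comp_apply, pr_apply,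
        map_smul, LinearMap.comp_apply, LinearMap.comp_apply, rho_inv', htz, rho_inv]
    | zero =>
      rw [LinearMap.zero_smulRight]
      exact Submodule.zero_mem _
    | add ψ ψ' _ _ hψ hψ' =>
      have : (ψ + ψ').smulRight z = ψ.smulRight z + ψ'.smulRight z := by
        apply LinearMap.ext
        intro x
        simp [add_smul]
      rw [this]
      exact Submodule.add_mem _ hψ hψ'
    | smul a ψ _ hψ =>
      have : (a • ψ).smulRight z = a • ψ.smulRight z := by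
        apply LinearMap.ext
        intro x
        simp [smul_smul]
      rw [this]
      exact Submodule.smul_mem _ a hψ
  rw [eq_top_iff]
  intro s _
  have h3 : s = ∑ i, ((Module.finBasis K V).coord i).smulRight (s (Module.finBasis K V i)) := by
    apply (Module.finBasis K V).ext
    intro j
    rw [LinearMap.sum_apply, Finset.sum_eq_single j]
    · simp
    · intro i _ hi
      rw [LinearMap.smulRight_apply, Module.Basis.coord_apply, Module.Basis.repr_self,
        Finsupp.single_eq_of_ne hi, zero_smul]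
    · intro h
      exact absurd (Finset.mem_univ _) h
  rw [h3]
  exact Submodule.sum_mem _ fun i _ => h2 _ _

/-- the value of the pair -/
noncomputable def cv (ρ : G →* (V →ₗ[K] V)) (δ : V) (φ : V →ₗ[K] K) (γ : G) : K :=
  φ (ρ γ δ) * φ (ρ γ⁻¹ δ)

include hg in
/-- **Pairs in general position.** -/
theorem exists_cv (hSI : SI ρ) (h2 : 2 ≤ Module.finrank K V) (h0 : 1 + φ δ ≠ 0)
    (h1 : (1 + φ δ) * (1 + φ δ) ≠ 1) {F : Set K} (hF : F.Finite) : ∃ γ, cv ρ δ φ γ ∉ F := by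
  by_contra hcon
  push Not at hcon
  have hφ := lam_ne hg h1
  have hδ0 : δ ≠ 0 := by
    rintro rfl
    exact hφ (map_zero _)
  have htop := alg_top hg hSI h0 h1
  obtain ⟨b, hb, hbs, hbl⟩ := exists_linearIndependent K (Set.range (pr ρ δ φ))
  have hbs' : Submodule.span K b = ⊤ := hbs.trans htop
  have hbfin : Finite b := hbl.finite
  set M : G → b → K := fun γ j => φ (ρ γ⁻¹ ((j : V →ₗ[K] V) (ρ γ δ))) with hM
  have hMfin : (Set.range M).Finite := by
    refine Set.Finite.subset (Set.Finite.pi' fun _ : b => hF) ?_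
    rintro _ ⟨γ, rfl⟩ j
    obtain ⟨γ', hγ'⟩ := hb j.2
    have h3 := hcon (γ⁻¹ * γ')
    have h4 : M γ j = cv ρ δ φ (γ⁻¹ * γ') := by
      rw [hM]
      beta_reduce
      rw [← hγ', pr_apply, map_smul, map_smul, smul_eq_mul, ← rho_mul_apply, ← rho_mul_apply, cv,
        mul_inv_rev, inv_inv, mul_comm]
    rw [h4]
    exact h3
  have hinj : ∀ γ γ' : G, M γ = M γ' → ∃ c : K, ρ γ δ = c • ρ γ' δ := by
    intro γ γ' hMM
    have hall : ∀ s : V →ₗ[K] V, φ (ρ γ⁻¹ (s (ρ γ δ))) = φ (ρ γ'⁻¹ (s (ρ γ' δ))) := by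
      intro s
      have hs : s ∈ Submodule.span K b := by rw [hbs']; exact Submodule.mem_top
      induction hs using Submodule.span_induction with
      | mem x hx => exact congrFun hMM ⟨x, hx⟩
      | zero => simp
      | add x y _ _ hx hy =>
        rw [LinearMap.add_apply, LinearMap.add_apply, map_add, map_add, map_add, map_add, hx, hy]
      | smul a x _ hx =>
        rw [LinearMap.smul_apply, LinearMap.smul_apply, map_smul, map_smul, map_smul, map_smul, hx]
    by_contra hne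
    push Not at hne
    have h3 : ρ γ δ ∉ Submodule.span K {ρ γ' δ} := by
      rw [Submodule.mem_span_singleton]
      rintro ⟨c, hc⟩
      exact hne c hc.symm
    obtain ⟨ψ, hψ, hψ'⟩ := Submodule.exists_le_ker_of_notMem h3
    have h4 := hall (ψ.smulRight (ρ γ δ))
    have h5 : ψ (ρ γ' δ) = 0 := hψ' (Submodule.mem_span_singleton_self _)
    rw [LinearMap.smulRight_apply, LinearMap.smulRight_apply, h5, zero_smul, map_zero, map_zero,
      map_smul, map_smul, rho_inv', smul_eq_mul] at h4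
    exact mul_ne_zero hψ hφ h4
  have hfi : (stab ρ (Submodule.span K {δ})).FiniteIndex := by
    have hfin : Finite (G ⧸ stab ρ (Submodule.span K {δ})) := by
      have := hMfin.to_subtype
      refine Finite.of_injective (fun q : G ⧸ stab ρ (Submodule.span K {δ}) =>
        (⟨M q.out, q.out, rfl⟩ : Set.range M)) ?_
      intro q q' hqq
      have h3 : M q.out = M q'.out := congrArg Subtype.val hqq
      obtain ⟨c, hc⟩ := hinj _ _ h3
      obtain ⟨c', hc'⟩ := hinj _ _ h3.symm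
      have h4 : q.out⁻¹ * q'.out ∈ stab ρ (Submodule.span K {δ}) := by
        refine ⟨fun x hx => ?_, fun x hx => ?_⟩
        · obtain ⟨a, rfl⟩ := Submodule.mem_span_singleton.1 hx
          rw [map_smul, rho_mul_apply, hc', map_smul, rho_inv']
          exact Submodule.smul_mem _ _ (Submodule.smul_mem _ _
            (Submodule.mem_span_singleton_self δ))
        · obtain ⟨a, rfl⟩ := Submodule.mem_span_singleton.1 hx
          rw [mul_inv_rev, inv_inv, map_smul, rho_mul_apply, hc, map_smul, rho_inv']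
          exact Submodule.smul_mem _ _ (Submodule.smul_mem _ _
            (Submodule.mem_span_singleton_self δ))
      have h5 := QuotientGroup.eq.2 h4
      rwa [QuotientGroup.out_eq', QuotientGroup.out_eq'] at h5
    exact Subgroup.finiteIndex_of_finite_quotient
  rcases hSI _ hfi _ (fun g hg x hx => hg.1 x hx) with h | h
  · apply hδ0
    have h3 := Submodule.mem_span_singleton_self (R := K) δ
    rw [h, Submodule.mem_bot] at h3
    exact h3
  · have h3 : Module.finrank K V ≤ 1 := by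
      rw [← finrank_top K V, ← h]
      exact (finrank_span_le_card ({δ} : Set V)).trans (by simp)
    omega

end

end Pool.Agent.TH125.Cyc
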