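import Pool.Agent.TH125.Gal.Grp

/-!
# Additive functionals on eigenvalues and the operators which kill invariant forms
-/

open Finset Function

set_option linter.unusedSectionVars false

namespace Pool.Agent.TH125.Cyc

universe u v w x

open Pool.Agent.TH125.Gal

/-- an additive functional on the multiplicative group -/
theorem exists_additive {L : Type u} [Field L] {z : Lˣ} (hz : ∀ n : ℕ, 1 ≤ n → z ^ n ≠ 1) :
    ∃ a : Additive Lˣ →+ ℚ, a (Additive.ofMul z) ≠ 0 := by
  have h1 : Injective (zmultiplesHom (Additive Lˣ) (Additive.ofMul z)) := by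
    rw [injective_iff_map_eq_zero]
    intro n hn
    by_contra hn0
    rw [zmultiplesHom_apply, ← ofMul_zpow, ofMul_eq_zero] at hn
    have h2 : z ^ n.natAbs = 1 := by
      rcases Int.natAbs_eq n with h | h
      · rw [h, zpow_natCast] at hn
        exact hn
      · rw [h, zpow_neg, zpow_natCast, inv_eq_one] at hn
        exact hn
    exact hz _ (Int.natAbs_pos.2 hn0) h2
  obtain ⟨a, ha⟩ := (Module.Baer.of_divisible ℚ).extension_property_addMonoidHom
    (zmultiplesHom (Additive Lˣ) (Additive.ofMul z)) h1 (Int.castAddHom ℚ)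
  refine ⟨a, ?_⟩
  have h2 := DFunLike.congr_fun ha 1
  rw [AddMonoidHom.comp_apply, zmultiplesHom_apply, one_smul] at h2
  rw [h2]
  simp

section alg

variable {L : Type u} [Field L] {W : Type v} [AddCommGroup W] [Module L W] {S : Type}
  [Fintype S] [DecidableEq S] {E : Type w} [AddCommGroup E] [Module L E] {H : W →ₗ[L] W}

/-- generalized eigenvectors -/
def GE (H : W →ₗ[L] W) (z : L) (x : W) : Prop := ∃ n : ℕ, ((H - z • 1) ^ n) x = 0

theorem comm_pow (z : L) (m : ℕ) : ∃ q : W →ₗ[L] W, H ^ m - z ^ m • 1 = q * (H - z • 1) ∧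
    Commute q (H - z • 1) := by
  induction m with
  | zero => exact ⟨0, by simp, Commute.zero_left _⟩
  | succ m ih =>
    obtain ⟨q, hq, hc⟩ := ih
    refine ⟨H * q + z ^ m • 1, ?_, ?_⟩
    · have h1 : H ^ (m + 1) - z ^ (m + 1) • (1 : W →ₗ[L] W) =
          H * (H ^ m - z ^ m • 1) + z ^ m • (H - z • 1) := by
        rw [pow_succ', pow_succ, mul_sub, smul_sub, mul_smul_comm, mul_one, smul_smul]
        abel
      rw [h1, hq, add_mul, smul_mul_assoc, one_mul, mul_assoc]
    · have h2 : Commute H (H - z • 1) :=
        (Commute.refl H).sub_right ((Commute.one_right H).smul_right z)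
      exact (h2.mul_left hc).add_left ((Commute.one_left _).smul_left _)

/-- **Invariant forms on generalized eigenvectors.** -/
theorem inv_zero {F : MultilinearMap L (fun _ : S => W) E} {m : ℕ}
    (hF : ∀ v, F (fun j => (H ^ m) (v j)) = F v) {z : S → L} (hz : ∏ j, z j ^ m ≠ 1) :
    ∀ n : ℕ, ∀ N : S → ℕ, ∑ j, N j = n → ∀ v : S → W,
      (∀ j, ((H - z j • 1) ^ N j) (v j) = 0) → F v = 0 := by
  intro n
  induction n using Nat.strong_induction_on with
  | _ n ih =>
    intro N hN v hv
    by_cases h0 : ∃ j, N j = 0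
    · obtain ⟨j, hj⟩ := h0
      have h1 := hv j
      rw [hj, pow_zero, Module.End.one_apply] at h1
      exact F.map_coord_zero j h1
    push Not at h0
    have h1 : (fun j => (H ^ m) (v j)) = (fun j => z j ^ m • v j) +
        fun j => (H ^ m - z j ^ m • 1) (v j) := by
      funext j
      rw [Pi.add_apply, LinearMap.sub_apply, LinearMap.smul_apply, Module.End.one_apply]
      abel
    have h2 := hF v
    rw [h1, MultilinearMap.map_add_univ, ← Finset.add_sum_erase _ _ (Finset.mem_univ univ),
      Finset.piecewise_univ, MultilinearMap.map_smul_univ] at h2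
    have h3 : ∀ s ∈ (univ : Finset (Finset S)).erase univ, F (s.piecewise
        (fun j => z j ^ m • v j) fun j => (H ^ m - z j ^ m • 1) (v j)) = 0 := by
      intro s hs
      have hs' : ∃ j, j ∉ s := by
        by_contra hcon
        push Not at hcon
        exact (Finset.mem_erase.1 hs).1 (Finset.eq_univ_iff_forall.2 hcon)
      obtain ⟨j₀, hj₀⟩ := hs'
      refine ih (∑ j, if j ∈ s then N j else N j - 1) ?_ (fun j => if j ∈ s then N j else N j - 1)
        rfl _ fun j => ?_
      · rw [← hN]
        refine Finset.sum_lt_sum (fun j _ => ?_) ⟨j₀, Finset.mem_univ _, ?_⟩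
        · split_ifs
          · exact le_rfl
          · exact Nat.sub_le _ _
        · rw [if_neg hj₀]
          have := h0 j₀
          omega
      · by_cases hj : j ∈ s
        · rw [if_pos hj, Finset.piecewise_eq_of_mem _ _ _ hj, map_smul, hv, smul_zero]
        · rw [if_neg hj, Finset.piecewise_eq_of_notMem _ _ _ hj]
          obtain ⟨q, hq, hc⟩ := comm_pow (H := H) (z j) m
          rw [hq, ← Module.End.mul_apply]
          have h4 : (H - z j • 1) ^ (N j - 1) * (q * (H - z j • 1)) =
              q * (H - z j • 1) ^ N j := by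
            rw [← mul_assoc, (hc.pow_right (N j - 1)).eq.symm, mul_assoc, ← pow_succ,
              Nat.sub_add_cancel (Nat.one_le_iff_ne_zero.2 (h0 j))]
          rw [h4, Module.End.mul_apply, hv, map_zero]
    rw [Finset.sum_eq_zero h3, add_zero] at h2
    have h4 : (1 - ∏ j, z j ^ m) • F v = 0 := by
      rw [sub_smul, one_smul, h2, sub_self]
    exact (smul_eq_zero.1 h4).resolve_left (sub_ne_zero.2 (Ne.symm hz))

/-- the derivation -/
noncomputable def killMap (X : W →ₗ[L] W) (F : MultilinearMap L (fun _ : S => W) E) :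
    MultilinearMap L (fun _ : S => W) E :=
  ∑ j, F.compLinearMap (update (fun _ => LinearMap.id) j X)

theorem killMap_apply (X : W →ₗ[L] W) (F : MultilinearMap L (fun _ : S => W) E) (v : S → W) :
    killMap X F v = ∑ j, F (update v j (X (v j))) := by
  rw [killMap, _root_.sum_apply]
  refine Finset.sum_congr rfl fun j _ => ?_
  rw [MultilinearMap.compLinearMap_apply]
  congr 1
  funext i
  by_cases h : i = j
  · subst h
    rw [update_self, update_self]
  · rw [update_of_ne h, update_of_ne h]
    rfl

/-- multilinear maps vanishing on a spanning set -/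
theorem multi_zero {P : MultilinearMap L (fun _ : S => W) E} {A : Set W}
    (hA : Submodule.span L A = ⊤) (h : ∀ v : S → W, (∀ j, v j ∈ A) → P v = 0) (v : S → W) :
    P v = 0 := by
  have key : ∀ s : Finset S, ∀ v : S → W, (∀ j, j ∉ s → v j ∈ A) → P v = 0 := by
    intro s
    induction s using Finset.induction_on with
    | empty => exact fun v hv => h v fun j => hv j (Finset.notMem_empty j)
    | insert j₀ s hj₀ ih =>
      intro v hv
      have h1 : v j₀ ∈ Submodule.span L A := by rw [hA]; exact Submodule.mem_top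
      have h2 : ∀ x ∈ Submodule.span L A, P (update v j₀ x) = 0 := by
        intro x hx
        induction hx using Submodule.span_induction with
        | mem x hx =>
          refine ih _ fun j hj => ?_
          by_cases hjj : j = j₀
          · subst hjj
            rw [update_self]
            exact hx
          · rw [update_of_ne hjj]
            refine hv j fun h3 => ?_
            rcases Finset.mem_insert.1 h3 with h4 | h4
            · exact hjj h4
            · exact hj h4
        | zero => exact P.map_coord_zero j₀ (update_self _ _ _)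
        | add x y _ _ hx hy => rw [MultilinearMap.map_update_add, hx, hy, add_zero]
        | smul a x _ hx => rw [MultilinearMap.map_update_smul, hx, smul_zero]
      have h3 := h2 _ h1
      rwa [update_eq_self] at h3
  exact key univ v fun j hj => absurd (Finset.mem_univ j) hj

/-- **Invariant forms are killed.** -/
theorem kill_of_inv [CharZero L] {F : MultilinearMap L (fun _ : S => W) E} {m : ℕ} (hm : 1 ≤ m)
    (hF : ∀ v, F (fun j => (H ^ m) (v j)) = F v) (a : Additive Lˣ →+ ℚ) {X : W →ₗ[L] W}
    (hX : ∀ (z : Lˣ) (x : W), GE H z x → X x = ((a (Additive.ofMul z) : ℚ) : L) • x)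
    (hspan : Submodule.span L {x : W | ∃ z : Lˣ, GE H z x} = ⊤) (v : S → W) :
    ∑ j, F (update v j (X (v j))) = 0 := by
  rw [← killMap_apply]
  refine multi_zero hspan (fun v hv => ?_) v
  choose z hz using hv
  rw [killMap_apply]
  have h1 : ∀ j, F (update v j (X (v j))) = ((a (Additive.ofMul (z j)) : ℚ) : L) • F v := by
    intro j
    rw [hX _ _ (hz j), MultilinearMap.map_update_smul, update_eq_self]
  rw [Finset.sum_congr rfl fun j _ => h1 j, ← Finset.sum_smul]
  by_cases h2 : ∏ j, (z j : L) ^ m = 1
  · have h3 : ∏ j, z j ^ m = 1 := by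
      apply Units.ext
      push_cast
      exact h2
    have h4 : a (Additive.ofMul (∏ j, z j ^ m)) = 0 := by rw [h3, ofMul_one, map_zero]
    rw [ofMul_prod, map_sum] at h4
    simp only [ofMul_pow, map_nsmul] at h4
    rw [← Finset.smul_sum, smul_eq_zero] at h4
    have h5 : ∑ j, a (Additive.ofMul (z j)) = 0 := h4.resolve_left (by omega)
    rw [← Rat.cast_sum, h5, Rat.cast_zero, zero_smul]
  · choose N hN using hz
    rw [inv_zero hF h2 _ N rfl v hN, smul_zero]

end alg

section eig

variable {L : Type u} [Field L] {W : Type v} [AddCommGroup W] [Module L W] {H : W →ₗ[L] W}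

theorem GE.map {q : W →ₗ[L] W} (hq : Commute q H) {z : L} {x : W} (hx : GE H z x) :
    GE H z (q x) := by
  obtain ⟨n, hn⟩ := hx
  refine ⟨n, ?_⟩
  have h1 : Commute q (H - z • 1) := hq.sub_right ((Commute.one_right q).smul_right z)
  rw [← Module.End.mul_apply, ← (h1.pow_right n).eq, Module.End.mul_apply, hn, map_zero]

/-- a product of linear factors which does not vanish at the eigenvalue is injective -/
theorem GE.eq_zero_one {z c : L} (hzc : z ≠ c) {x : W} (hx : GE H z x)
    (h : (H - c • 1) x = 0) : x = 0 := by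
  obtain ⟨n, hn⟩ := hx
  induction n with
  | zero => exact hn
  | succ n ih =>
    apply ih
    have h1 : (H - z • 1) x = (c - z) • x := by
      rw [LinearMap.sub_apply, LinearMap.smul_apply, Module.End.one_apply] at h ⊢
      rw [sub_eq_zero.1 h, sub_smul]
    rw [pow_succ, Module.End.mul_apply, h1, map_smul] at hn
    exact (smul_eq_zero.1 hn).resolve_left (sub_ne_zero.2 (Ne.symm hzc))

theorem comm_lin (c : L) : Commute (H - c • 1) H :=
  ((Commute.refl H).sub_left ((Commute.one_left H).smul_left c))

theorem comm_lin' (c z : L) : Commute (H - c • 1) (H - z • 1) :=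
  (comm_lin c).sub_right ((Commute.one_right _).smul_right z)

theorem GE.eq_zero {z c₁ c₂ c₃ : L} (h1 : z ≠ c₁) (h2 : z ≠ c₂) (h3 : z ≠ c₃) {x : W}
    (hx : GE H z x) (h : ((H - c₁ • 1) * (H - c₂ • 1) * (H - c₃ • 1)) x = 0) : x = 0 := by
  have hx3 := hx.map (comm_lin (H := H) c₃)
  have hx2 := hx3.map (comm_lin (H := H) c₂)
  rw [Module.End.mul_apply, Module.End.mul_apply] at h
  exact hx.eq_zero_one h3 (hx3.eq_zero_one h2 (hx2.eq_zero_one h1 h))

theorem GE.eig {z c₂ c₃ : L} (h2 : z ≠ c₂) (h3 : z ≠ c₃) {x : W} (hx : GE H z x)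
    (h : ((H - z • 1) * (H - c₂ • 1) * (H - c₃ • 1)) x = 0) : H x = z • x := by
  have hx1 := hx.map (comm_lin (H := H) z)
  have hx2 := hx1.map (comm_lin (H := H) c₃)
  have h4 : (H - c₂ • 1) ((H - c₃ • 1) ((H - z • 1) x)) = 0 := by
    have h5 : (H - z • 1) * (H - c₂ • 1) * (H - c₃ • 1) =
        (H - c₂ • 1) * ((H - c₃ • 1) * (H - z • 1)) := by
      rw [mul_assoc, ((comm_lin' (H := H) z c₂).mul_right (comm_lin' (H := H) z c₃)).eq, mul_assoc]
    rw [h5] at h
    exact h
  have h5 := hx1.eq_zero_one h3 (hx2.eq_zero_one h2 h4)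
  rw [LinearMap.sub_apply, LinearMap.smul_apply, Module.End.one_apply] at h5
  exact sub_eq_zero.1 h5

end eig

end Pool.Agent.TH125.Cyc
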